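import Pool.Agent.Helper72.BA.Stubs

/-!
# Module KA of MP_3dd6d4_an: combination of KL, PH and IV
-/

set_option autoImplicit false

open MeasureTheory Complex FourierTransform Filter Topology
open scoped ENNReal NNReal ComplexConjugate

noncomputable section

namespace Helper72.BA.P

open Helper72.BA

theorem KA_measurable_psi : Measurable psi := by
  unfold psi
  exact (Real.smoothTransition.continuous).measurable.comp (measurable_const.sub measurable_id)

theorem KA_measurable_cW (b : ℕ) : Measurable (cW b) := by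
  unfold cW
  exact (KA_measurable_psi.comp (measurable_const.mul measurable_id)).sub
    (KA_measurable_psi.comp (measurable_const.mul measurable_id))

theorem KA_measurable_Kn (n : ℕ) : Measurable (Kn n) := by
  unfold Kn
  have h : Measurable (fun z : ℂ => (starRingEnd ℂ) z / z) :=
    (Complex.continuous_conj.measurable).div measurable_id
  have h2 : Measurable (fun z : ℂ => ((‖z‖ ^ 2 : ℝ) : ℂ)) :=
    Complex.measurable_ofReal.comp ((measurable_norm).pow_const 2)
  exact ((measurable_const.mul (h.pow_const n))).div h2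

theorem KA_measurable_Kt (n b : ℕ) : Measurable (Kt n b) := by
  unfold Kt
  apply Measurable.mul _ (KA_measurable_Kn n)
  apply Complex.measurable_ofReal.comp
  apply (KA_measurable_cW b).comp
  exact measurable_const.div (measurable_const.mul measurable_norm)

theorem KA_measurable_etaw (n : ℕ) : Measurable (etaw n) := by
  unfold etaw
  exact measurable_const.div Complex.continuous_conj.measurable

theorem KA_measurable_ch (z : ℂ) : Measurable (ch z) := by
  unfold ch
  apply Complex.measurable_exp.comp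
  apply measurable_const.mul
  apply Complex.measurable_ofReal.comp
  exact (measurable_const.mul Complex.measurable_re).add
    (measurable_const.mul Complex.measurable_im)

theorem kernel_asymp (b : ℕ) (hb : 1 ≤ b) : ∃ e : ℕ → ℂ → ℝ, (∀ z, Tendsto (fun n => e n z) atTop (𝓝 0)) ∧
    (∃ C : ℝ, ∀ n z, 0 ≤ e n z ∧ e n z ≤ C) ∧ (∀ n, Measurable (e n)) ∧ ∀ n : ℕ, 1 ≤ n →
    ∀ f : ℂ → ℂ, Nice f → (∀ z, ‖f z‖ ≤ 1) → ∃ F : ℂ → ℂ, Measurable F ∧
      (∀ η, ‖F η‖ ≤ cW b ‖η‖ / (Real.pi * ‖η‖ ^ 2)) ∧
      ∀ z : ℂ, ‖gW n (Finset.Ico (0:ℤ) b) f z - n * ∫ η, F η * ch z η‖ ≤ n * e n z := by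
  obtain ⟨e₁, he₁, hK⟩ := kernel_close b hb
  obtain ⟨e₂, he₂, ⟨C₂, hC₂⟩, hm₂, hP⟩ := phase_lin b hb
  have habs : Tendsto (fun n => |e₁ n|) atTop (𝓝 0) := by
    have := he₁.abs
    rwa [abs_zero] at this
  obtain ⟨C₁, hC₁⟩ := habs.bddAbove_range
  have hC₁' : ∀ n, |e₁ n| ≤ C₁ := fun n => hC₁ ⟨n, rfl⟩
  refine ⟨fun n z => |e₁ n| + e₂ n z, ?_, ⟨C₁ + C₂, ?_⟩, ?_, ?_⟩
  · intro z
    have := habs.add (he₂ z)
    rwa [add_zero] at this
  · intro n z
    exact ⟨add_nonneg (abs_nonneg _) (hC₂ n z).1, add_le_add (hC₁' n) (hC₂ n z).2⟩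
  · intro n
    exact measurable_const.add (hm₂ n)
  intro n hn f hf hf1
  obtain ⟨F, hFm, hFb, hF⟩ := inversion_cov n b hn hb f hf.meas hf1
  refine ⟨F, hFm, hFb, fun z => ?_⟩
  have hn0 : (0 : ℝ) ≤ n := Nat.cast_nonneg n
  -- the Schwartz kernel
  have hKi : ∀ j : ℤ, Integrable (fun w => KK n j (z - w)) := by
    intro j
    obtain ⟨s, hs⟩ := ker_KK n j
    rw [hs]
    exact (s.integrable (μ := volume)).comp_sub_left z
  have hKf : ∀ j : ℤ, Integrable (fun w => KK n j (z - w) * f w) := by
    intro j
    apply (hKi j).mul_bdd (c := 1) hf.meas.aestronglyMeasurable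
    exact Filter.Eventually.of_forall hf1
  have hKWi : Integrable (fun w => KWn n b (z - w)) := by
    unfold KWn
    exact integrable_finsetSum _ (fun j _ => hKi j)
  have hKWf : Integrable (fun w => KWn n b (z - w) * f w) := by
    apply hKWi.mul_bdd (c := 1) hf.meas.aestronglyMeasurable
    exact Filter.Eventually.of_forall hf1
  have hg : gW n (Finset.Ico (0:ℤ) b) f z = ∫ w, KWn n b (z - w) * f w := by
    unfold gW gj cv KWn
    rw [← integral_finsetSum _ (fun j _ => hKf j)]
    apply integral_congr_ae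
    apply Filter.Eventually.of_forall
    intro w
    simp only [Finset.sum_mul]
  -- first difference
  have hKtm : Measurable (fun w => Kt n b (z - w)) :=
    (KA_measurable_Kt n b).comp (measurable_const.sub measurable_id)
  have hd1 : ∫⁻ w, ‖KWn n b (z - w) - Kt n b (z - w)‖ₑ ≤ ENNReal.ofReal (n * |e₁ n|) := by
    have h1 := lintegral_sub_left_eq_self (μ := (volume : Measure ℂ))
      (fun u => ‖KWn n b u - Kt n b u‖ₑ) z
    rw [h1]
    refine (hK n hn).trans ?_
    apply ENNReal.ofReal_le_ofReal
    exact mul_le_mul_of_nonneg_left (le_abs_self _) hn0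
  have hd1i : Integrable (fun w => KWn n b (z - w) - Kt n b (z - w)) := by
    refine ⟨hKWi.aestronglyMeasurable.sub hKtm.aestronglyMeasurable, ?_⟩
    exact lt_of_le_of_lt hd1 ENNReal.ofReal_lt_top
  have hKti : Integrable (fun w => Kt n b (z - w)) := by
    have := hKWi.sub hd1i
    refine this.congr ?_
    apply Filter.Eventually.of_forall
    intro w
    simp
  have hKtf : Integrable (fun w => Kt n b (z - w) * f w) := by
    apply hKti.mul_bdd (c := 1) hf.meas.aestronglyMeasurable
    exact Filter.Eventually.of_forall hf1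
  -- second difference
  have hBm : Measurable (fun w => Kt n b (-w) * ch z (etaw n w)) := by
    apply Measurable.mul
    · exact (KA_measurable_Kt n b).comp measurable_neg
    · exact (KA_measurable_ch z).comp (KA_measurable_etaw n)
  have hd2 := hP n hn z
  have hd2i : Integrable (fun w => Kt n b (z - w) - Kt n b (-w) * ch z (etaw n w)) := by
    refine ⟨hKti.aestronglyMeasurable.sub hBm.aestronglyMeasurable, ?_⟩
    exact lt_of_le_of_lt hd2 ENNReal.ofReal_lt_top
  have hBi : Integrable (fun w => Kt n b (-w) * ch z (etaw n w)) := by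
    have := hKti.sub hd2i
    refine this.congr ?_
    apply Filter.Eventually.of_forall
    intro w
    simp
  have hBf : Integrable (fun w => Kt n b (-w) * ch z (etaw n w) * f w) := by
    apply hBi.mul_bdd (c := 1) hf.meas.aestronglyMeasurable
    exact Filter.Eventually.of_forall hf1
  have key : gW n (Finset.Ico (0:ℤ) b) f z - n * ∫ η, F η * ch z η =
      (∫ w, (KWn n b (z - w) - Kt n b (z - w)) * f w) +
        ∫ w, (Kt n b (z - w) - Kt n b (-w) * ch z (etaw n w)) * f w := by
    rw [hg, ← hF z]
    have h1 : ∫ w, (KWn n b (z - w) - Kt n b (z - w)) * f w =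
        (∫ w, KWn n b (z - w) * f w) - ∫ w, Kt n b (z - w) * f w := by
      rw [← integral_sub hKWf hKtf]
      apply integral_congr_ae
      apply Filter.Eventually.of_forall
      intro w
      simp only [sub_mul]
    have h2 : ∫ w, (Kt n b (z - w) - Kt n b (-w) * ch z (etaw n w)) * f w =
        (∫ w, Kt n b (z - w) * f w) - ∫ w, Kt n b (-w) * ch z (etaw n w) * f w := by
      rw [← integral_sub hKtf hBf]
      apply integral_congr_ae
      apply Filter.Eventually.of_forall
      intro w
      simp only [sub_mul]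
    rw [h1, h2]
    ring
  have bound : ∀ (G : ℂ → ℂ) (c : ℝ), 0 ≤ c → Integrable G →
      ∫⁻ w, ‖G w‖ₑ ≤ ENNReal.ofReal c → ‖∫ w, G w * f w‖ ≤ c := by
    intro G c hc hG hle
    have h1 : ‖∫ w, G w * f w‖ ≤ ∫ w, ‖G w‖ := by
      apply norm_integral_le_of_norm_le hG.norm
      apply Filter.Eventually.of_forall
      intro w
      rw [norm_mul]
      exact mul_le_of_le_one_right (norm_nonneg _) (hf1 w)
    refine h1.trans ?_
    rw [integral_norm_eq_lintegral_enorm hG.aestronglyMeasurable]
    exact ENNReal.toReal_le_of_le_ofReal hc hle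
  rw [key]
  refine (norm_add_le _ _).trans ?_
  have b1 := bound _ _ (mul_nonneg hn0 (abs_nonneg (e₁ n))) hd1i hd1
  have b2 := bound _ _ (mul_nonneg hn0 (hC₂ n z).1) hd2i hd2
  simp only []
  rw [mul_add]
  exact add_le_add b1 b2

end Helper72.BA.P
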