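import Pool.Agent.Helper72.BA.Stubs

/-!
# Module SFb of MP_3dd6d4_an: the dyadic square function of the `g_j`
-/

set_option autoImplicit false

open MeasureTheory Complex FourierTransform Filter Topology
open scoped ENNReal NNReal ComplexConjugate

noncomputable section

namespace Helper72.BA.P

open Helper72.BA

/-- the area of a square of side `r` -/
theorem SFb_volume (s : ℝ) (hs : 0 < s) (i : ℤ) (q : ℤ × ℤ) :
    volume {z : ℂ | cub s i z = q} = ENNReal.ofReal ((s * 2 ^ (-i)) ^ 2) := by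
  set r : ℝ := s * 2 ^ (-i) with hr
  have hr0 : 0 < r := by positivity
  have h1 : {z : ℂ | cub s i z = q} =
      Complex.measurableEquivRealProd ⁻¹'
        (Set.Ico ((q.1 : ℝ) * r) ((q.1 + 1 : ℝ) * r) ×ˢ
          Set.Ico ((q.2 : ℝ) * r) ((q.2 + 1 : ℝ) * r)) := by
    ext z
    simp only [Set.mem_setOf_eq, cub, Set.mem_preimage, Set.mem_prod, Set.mem_Ico,
      Complex.measurableEquivRealProd_apply, Prod.ext_iff, ← hr]
    rw [Int.floor_eq_iff, Int.floor_eq_iff, le_div_iff₀ hr0, div_lt_iff₀ hr0, le_div_iff₀ hr0,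
      div_lt_iff₀ hr0]
  rw [h1, Complex.volume_preserving_equiv_real_prod.measure_preimage_equiv,
    Measure.volume_eq_prod, Measure.prod_prod, Real.volume_Ico, Real.volume_Ico]
  have e1 : ((q.1 : ℝ) + 1) * r - q.1 * r = r := by ring
  have e2 : ((q.2 : ℝ) + 1) * r - q.2 * r = r := by ring
  rw [e1, e2, ← ENNReal.ofReal_mul hr0.le, sq]

theorem SFb_measurableSet (s : ℝ) (i : ℤ) (q : ℤ × ℤ) :
    MeasurableSet {z : ℂ | cub s i z = q} := by
  have : Measurable (cub s i) := by
    unfold cub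
    apply Measurable.prodMk
    · exact Int.measurable_floor.comp (Complex.measurable_re.div_const _)
    · exact Int.measurable_floor.comp (Complex.measurable_im.div_const _)
  exact this (measurableSet_singleton q)

/-- points of the same square are close -/
theorem SFb_close (s : ℝ) (hs : 0 < s) (i : ℤ) (z w : ℂ) (h : cub s i z = cub s i w) :
    ‖z - w‖ ^ 2 ≤ 2 * (s * 2 ^ (-i)) ^ 2 := by
  set r : ℝ := s * 2 ^ (-i) with hr
  have hr0 : 0 < r := by positivity
  simp only [cub, Prod.ext_iff, ← hr] at h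
  obtain ⟨h1, h2⟩ := h
  have a1 := Int.floor_le (z.re / r)
  have a2 := Int.lt_floor_add_one (z.re / r)
  have a3 := Int.floor_le (w.re / r)
  have a4 := Int.lt_floor_add_one (w.re / r)
  have b1 := Int.floor_le (z.im / r)
  have b2 := Int.lt_floor_add_one (z.im / r)
  have b3 := Int.floor_le (w.im / r)
  have b4 := Int.lt_floor_add_one (w.im / r)
  rw [h1] at a1 a2
  rw [h2] at b1 b2
  have c1 : |z.re / r - w.re / r| ≤ 1 := by rw [abs_le]; constructor <;> linarith
  have c2 : |z.im / r - w.im / r| ≤ 1 := by rw [abs_le]; constructor <;> linarith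
  have d1 : (z.re - w.re) ^ 2 ≤ r ^ 2 := by
    rw [← sub_div, abs_div, abs_of_pos hr0, div_le_one hr0] at c1
    rw [sq_le_sq, abs_of_pos hr0]; exact c1
  have d2 : (z.im - w.im) ^ 2 ≤ r ^ 2 := by
    rw [← sub_div, abs_div, abs_of_pos hr0, div_le_one hr0] at c2
    rw [sq_le_sq, abs_of_pos hr0]; exact c2
  rw [← Complex.normSq_eq_norm_sq, Complex.normSq_apply, Complex.sub_re, Complex.sub_im]
  nlinarith

theorem SFb_measurable_gam (ρ : ℝ) : Measurable (gam ρ) := by
  unfold gam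
  fun_prop

theorem SFb_meas_conv (ρ : ℝ) (g : ℂ → ℝ≥0∞) (hg : Measurable g) :
    Measurable (fun z : ℂ => ∫⁻ w, ENNReal.ofReal (gam ρ (z - w)) * g w) := by
  apply Measurable.lintegral_prod_right'
    (f := fun p : ℂ × ℂ => ENNReal.ofReal (gam ρ (p.1 - p.2)) * g p.2)
  apply Measurable.mul
  · exact ENNReal.measurable_ofReal.comp
      ((SFb_measurable_gam ρ).comp (measurable_fst.sub measurable_snd))
  · exact hg.comp measurable_snd

theorem SFb_gam_symm (ρ : ℝ) (z w : ℂ) : gam ρ (z - w) = gam ρ (w - z) := by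
  unfold gam
  rw [norm_sub_rev]

theorem square_fun (k : ℕ) (hk : 2 ≤ k) : ∃ C : ℝ≥0, ∀ n : ℕ, 1 ≤ n → ∀ m0 : ℕ,
    n ≤ 2 ^ m0 → ∀ A : Finset ℤ, ∀ f : ℂ → ℂ, Nice f →
    ∫⁻ z, (∑ j ∈ A, avg (2 ^ m0) j (fun w => ‖gj n j f w‖ₑ ^ 2) z) ^ k ≤ C * nrm (2 * k) f := by
  obtain ⟨Ce, hCe0, hCe⟩ := energy
  obtain ⟨Cm, hCm⟩ := maximal k hk
  refine ⟨(k : ℝ≥0) ^ k * ((9 * Ce).toNNReal ^ k * Cm), ?_⟩
  intro n hn m0 hm A f hf
  set s : ℝ := 2 ^ m0 with hs
  have hs0 : 0 < s := by positivity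
  set M : ℂ → ℝ≥0∞ := fun z => ⨆ i ∈ A, ∫⁻ w, ENNReal.ofReal (gam (s * 2 ^ (-i)) (z - w)) *
    ‖f w‖ₑ ^ 2 with hM
  have hfm : Measurable (fun w => ‖f w‖ₑ ^ 2) := (hf.meas.enorm).pow_const 2
  have hMm : Measurable M := by
    apply Measurable.biSup _ (Set.to_countable _)
    intro i _
    exact SFb_meas_conv _ _ hfm
  set h : ℂ → ℝ≥0∞ := fun z => ENNReal.ofReal (9 * Ce) * M z with hh
  have hhm : Measurable h := hMm.const_mul _
  have key := square_abstract s hs0 A (fun j w => ‖gj n j f w‖ₑ ^ 2) ?_ ?_ h hhm ?_ k (by omega)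
  · refine key.trans ?_
    have e1 : ∫⁻ z, h z ^ k = ENNReal.ofReal (9 * Ce) ^ k * ∫⁻ z, M z ^ k := by
      rw [← lintegral_const_mul _ (hMm.pow_const k)]
      apply lintegral_congr
      intro z
      rw [hh]
      simp only [mul_pow]
    have e2 : ∫⁻ z, M z ^ k ≤ Cm * nrm (2 * k) f := by
      have := hCm A (fun i => s * 2 ^ (-i)) (fun i => by positivity) (fun w => ‖f w‖ₑ ^ 2) hfm
      refine this.trans (le_of_eq ?_)
      unfold nrm
      congr 1
      apply lintegral_congr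
      intro z
      rw [← pow_mul]
    rw [e1]
    push_cast
    rw [mul_assoc, mul_assoc]
    have e3 : ((9 * Ce).toNNReal : ℝ≥0∞) = ENNReal.ofReal (9 * Ce) := rfl
    rw [e3]
    gcongr
  · intro j
    exact ((nice_cv (ker_KK n j) hf).meas.enorm).pow_const 2
  · intro j _
    have hg : Nice (gj n j f) := nice_cv (ker_KK n j) hf
    obtain ⟨C, hC⟩ := hg.bdd
    have hC' : ∀ z, ‖gj n j f z‖ₑ ≤ (C.toNNReal : ℝ≥0∞) := by
      intro z
      rw [← ofReal_norm_eq_enorm]
      exact ENNReal.ofReal_le_ofReal (hC z)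
    constructor
    · have : ∫⁻ z, ‖gj n j f z‖ₑ ^ 2 ≤ ∫⁻ z, (C.toNNReal : ℝ≥0∞) * ‖gj n j f z‖ₑ := by
        apply lintegral_mono
        intro z
        simp only [sq]
        gcongr
        exact hC' z
      refine ne_top_of_le_ne_top ?_ this
      rw [lintegral_const_mul _ hg.meas.enorm]
      exact ENNReal.mul_ne_top ENNReal.coe_ne_top hg.int.hasFiniteIntegral.ne
    · refine ⟨C.toNNReal ^ 2, fun z => ?_⟩
      push_cast
      gcongr
      exact hC' z
  · intro i hi q
    set Q : Set ℂ := {z : ℂ | cub s i z = q} with hQ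
    have hQm : MeasurableSet Q := SFb_measurableSet s i q
    set r : ℝ := s * 2 ^ (-i) with hr
    have hr0 : 0 < r := by positivity
    have hvol : volume Q = ENNReal.ofReal (r ^ 2) := SFb_volume s hs0 i q
    set X : ℝ≥0∞ := ∑ j ∈ A with i ≤ j, ∫⁻ z in Q, ‖gj n j f z‖ₑ ^ 2 with hX
    -- pointwise bound
    have hpt : ∀ z₀ ∈ Q, X ≤ ENNReal.ofReal (r ^ 2) * h z₀ := by
      intro z₀ hz₀
      have hE := hCe n hn r hr0 (A.filter (fun j => i ≤ j)) (by
        intro j hj
        have hij : i ≤ j := (Finset.mem_filter.1 hj).2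
        rw [hr, hs]
        have h1 : (n : ℝ) ≤ 2 ^ m0 := by exact_mod_cast hm
        have h2 : (2 : ℝ) ^ (-j) ≤ 2 ^ (-i) := by
          apply zpow_le_zpow_right₀ (by norm_num); omega
        have h3 : (0 : ℝ) < 2 ^ (-j) := by positivity
        have h4 : (0 : ℝ) ≤ 2 ^ m0 := by positivity
        exact mul_le_mul h1 h2 h3.le h4) f hf z₀
      have h1 : X ≤ ∑ j ∈ A with i ≤ j, ENNReal.ofReal (9 * r ^ 2) *
          ∫⁻ z, ‖gj n j f z‖ₑ ^ 2 * ENNReal.ofReal (gam r (z - z₀)) := by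
        rw [hX]
        apply Finset.sum_le_sum
        intro j _
        have hg : Nice (gj n j f) := nice_cv (ker_KK n j) hf
        rw [← lintegral_const_mul _ (by
          apply Measurable.mul (hg.meas.enorm.pow_const 2)
          exact ENNReal.measurable_ofReal.comp
            ((SFb_measurable_gam r).comp (measurable_id.sub_const _)))]
        calc ∫⁻ z in Q, ‖gj n j f z‖ₑ ^ 2
            ≤ ∫⁻ z in Q, ENNReal.ofReal (9 * r ^ 2) *
                (‖gj n j f z‖ₑ ^ 2 * ENNReal.ofReal (gam r (z - z₀))) := by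
              apply setLIntegral_mono' hQm
              intro z hz
              have hc : ‖z - z₀‖ ^ 2 ≤ 2 * r ^ 2 :=
                SFb_close s hs0 i z z₀ (by rw [hz, hz₀])
              have hgam : 1 ≤ 9 * r ^ 2 * gam r (z - z₀) := by
                unfold gam
                have p1 : ‖z - z₀‖ ^ 2 / r ^ 2 ≤ 2 := by
                  rw [div_le_iff₀ (by positivity)]; exact hc
                have p0 : 0 ≤ ‖z - z₀‖ ^ 2 / r ^ 2 := by positivity
                have p2 : (1 + ‖z - z₀‖ ^ 2 / r ^ 2) ^ 2 ≤ 9 := by nlinarith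
                have p3 : (1 : ℝ) / 9 ≤ ((1 + ‖z - z₀‖ ^ 2 / r ^ 2) ^ 2)⁻¹ := by
                  rw [one_div]
                  apply inv_anti₀ (by positivity) p2
                have p4 : r ^ 2 * (r ^ 2)⁻¹ = 1 := mul_inv_cancel₀ (by positivity)
                calc (1 : ℝ) = 9 * (r ^ 2 * (r ^ 2)⁻¹) * (1 / 9) := by rw [p4]; norm_num
                  _ ≤ 9 * (r ^ 2 * (r ^ 2)⁻¹) * ((1 + ‖z - z₀‖ ^ 2 / r ^ 2) ^ 2)⁻¹ := by
                    gcongr
                  _ = _ := by ring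
              calc ‖gj n j f z‖ₑ ^ 2 = 1 * ‖gj n j f z‖ₑ ^ 2 := (one_mul _).symm
                _ ≤ ENNReal.ofReal (9 * r ^ 2 * gam r (z - z₀)) * ‖gj n j f z‖ₑ ^ 2 := by
                    gcongr
                    rw [← ENNReal.ofReal_one]
                    exact ENNReal.ofReal_le_ofReal hgam
                _ = _ := by
                    rw [ENNReal.ofReal_mul (by positivity)]
                    ring
          _ ≤ _ := setLIntegral_le_lintegral _ _
      rw [← Finset.mul_sum] at h1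
      refine h1.trans ?_
      have h2 : ∫⁻ z, ‖f z‖ₑ ^ 2 * ENNReal.ofReal (gam r (z - z₀)) ≤ M z₀ := by
        have : (∫⁻ w, ENNReal.ofReal (gam (s * 2 ^ (-i)) (z₀ - w)) * ‖f w‖ₑ ^ 2) ≤ M z₀ := by
          rw [hM]
          exact le_iSup₂ (f := fun i _ => ∫⁻ w, ENNReal.ofReal (gam (s * 2 ^ (-i)) (z₀ - w)) *
            ‖f w‖ₑ ^ 2) i hi
        refine le_trans (le_of_eq ?_) this
        apply lintegral_congr
        intro z
        rw [SFb_gam_symm, mul_comm]
      calc ENNReal.ofReal (9 * r ^ 2) * ∑ j ∈ A with i ≤ j,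
              ∫⁻ z, ‖gj n j f z‖ₑ ^ 2 * ENNReal.ofReal (gam r (z - z₀))
          ≤ ENNReal.ofReal (9 * r ^ 2) * (ENNReal.ofReal Ce *
              ∫⁻ z, ‖f z‖ₑ ^ 2 * ENNReal.ofReal (gam r (z - z₀))) := by gcongr
        _ ≤ ENNReal.ofReal (9 * r ^ 2) * (ENNReal.ofReal Ce * M z₀) := by gcongr
        _ = ENNReal.ofReal (r ^ 2) * h z₀ := by
            rw [hh]
            simp only []
            rw [← mul_assoc, ← mul_assoc, ← ENNReal.ofReal_mul (by positivity),
              ← ENNReal.ofReal_mul (by positivity)]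
            congr 2
            ring
    have hint : X * ENNReal.ofReal (r ^ 2) ≤ ENNReal.ofReal (r ^ 2) * ∫⁻ z in Q, h z := by
      calc X * ENNReal.ofReal (r ^ 2) = ∫⁻ _ in Q, X := by
            rw [setLIntegral_const, hvol]
        _ ≤ ∫⁻ z in Q, ENNReal.ofReal (r ^ 2) * h z := setLIntegral_mono' hQm hpt
        _ = ENNReal.ofReal (r ^ 2) * ∫⁻ z in Q, h z := lintegral_const_mul _ hhm
    rw [mul_comm] at hint
    have hr2 : ENNReal.ofReal (r ^ 2) ≠ 0 := by
      rw [Ne, ENNReal.ofReal_eq_zero]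
      push_neg
      positivity
    exact (ENNReal.mul_le_mul_iff_right hr2 ENNReal.ofReal_ne_top).1 hint

end Helper72.BA.P
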