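import Pool.Agent.Helper83.ConfDim.Defs

set_option autoImplicit false

/-!
# Lower bound for the Hausdorff dimension of the Brownian trace

`2 <= dimH (trace B w)` almost surely in dimension at least 3, by the energy method.
-/

open MeasureTheory ProbabilityTheory Set Filter Topology
open scoped ENNReal NNReal

namespace Pool.Agent.Helper14.BMDim

open Pool.Agent.Helper83.ConfDim

/-! ### Mass distribution principle -/

theorem mass_distribution {X : Type*} [MetricSpace X] [MeasurableSpace X] [BorelSpace X]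
    (μ : Measure X) {d : ℝ≥0} {A : Set X} {C : ℝ≥0∞} (hC0 : C ≠ 0) (hC : C ≠ ∞)
    (h : ∀ x ∈ A, ∀ t : Set X, x ∈ t → Metric.ediam t ≤ 1 → μ t ≤ C * Metric.ediam t ^ (d : ℝ))
    (hA : μ A ≠ 0) : (d : ℝ≥0∞) ≤ dimH A := by
  apply le_dimH_of_hausdorffMeasure_ne_zero
  intro h0
  apply hA
  have key : μ A ≤ C * μH[(d : ℝ)] A := by
    rw [Measure.hausdorffMeasure_apply]
    refine le_trans ?_ (mul_le_mul_right (le_iSup₂ (1 : ℝ≥0∞) one_pos) C)
    simp only [ENNReal.mul_iInf_of_ne hC0 hC]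
    refine le_iInf fun t => le_iInf fun hcov => le_iInf fun hdiam => ?_
    rw [← ENNReal.tsum_mul_left]
    calc μ A ≤ μ (⋃ n, A ∩ t n) := by
          apply measure_mono
          intro x hx
          obtain ⟨n, hn⟩ := mem_iUnion.1 (hcov hx)
          exact mem_iUnion.2 ⟨n, hx, hn⟩
      _ ≤ ∑' n, μ (A ∩ t n) := measure_iUnion_le _
      _ ≤ ∑' n, C * ⨆ _ : (t n).Nonempty, Metric.ediam (t n) ^ (d : ℝ) := by
          refine ENNReal.tsum_le_tsum fun n => ?_
          rcases (A ∩ t n).eq_empty_or_nonempty with he | ⟨x, hxA, hxt⟩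
          · rw [he]; simp
          · refine (measure_mono inter_subset_right).trans ((h x hxA (t n) hxt (hdiam n)).trans ?_)
            have hne : (t n).Nonempty := ⟨x, hxt⟩
            simp only [hne, iSup_pos]
            exact le_rfl
  rw [h0, mul_zero] at key
  exact le_antisymm key bot_le

/-- If the occupation measure of a continuous curve has small balls around almost all points
of the curve then the curve has large Hausdorff dimension. -/
theorem dimH_curve {X : Type*} [MetricSpace X] [MeasurableSpace X] [BorelSpace X]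
    (x : ℝ → X) (hx : Measurable x) {d : ℝ≥0} (hd : 0 < d)
    (h : ∀ᵐ u ∂(volume.restrict (Icc (0 : ℝ) 1)), ∃ M : ℝ≥0∞, M ≠ ∞ ∧ ∀ k : ℕ,
      (Measure.map x (volume.restrict (Icc (0 : ℝ) 1))) (Metric.closedBall (x u) ((1 / 2) ^ k)) ≤
        M * ((1 / 2 : ℝ≥0∞) ^ k) ^ (d : ℝ)) :
    (d : ℝ≥0∞) ≤ dimH (x '' Icc (0 : ℝ) 1) := by
  set ν : Measure ℝ := volume.restrict (Icc (0 : ℝ) 1) with hν
  set μ : Measure X := Measure.map x ν with hμ
  let S : ℕ → Set ℝ := fun m => {u | u ∈ Icc (0 : ℝ) 1 ∧ ∀ k : ℕ,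
    μ (Metric.closedBall (x u) ((1 / 2) ^ k)) ≤ (m : ℝ≥0∞) * ((1 / 2 : ℝ≥0∞) ^ k) ^ (d : ℝ)}
  have hS : ∃ m, ν (S m) ≠ 0 := by
    by_contra hcon
    push Not at hcon
    have h1 : ν (⋃ m, S m) = 0 := measure_iUnion_null hcon
    have h2 : ∀ᵐ u ∂ν, u ∈ ⋃ m, S m := by
      have h3 : ∀ᵐ u ∂ν, u ∈ Icc (0 : ℝ) 1 := ae_restrict_mem measurableSet_Icc
      filter_upwards [h, h3] with u hu hu'
      obtain ⟨M, hM, hk⟩ := hu
      obtain ⟨m, hm⟩ := ENNReal.exists_nat_gt hM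
      refine mem_iUnion.2 ⟨m, hu', fun k => (hk k).trans ?_⟩
      exact mul_le_mul_left hm.le _
    have h4 : ν univ = 0 := by
      have h5 : (univ : Set ℝ) ⊆ (⋃ m, S m) ∪ (⋃ m, S m)ᶜ := by
        intro u _; exact em _
      refine le_antisymm ((measure_mono h5).trans ((measure_union_le _ _).trans ?_)) bot_le
      rw [h1, zero_add]
      exact le_of_eq h2
    rw [hν] at h4
    simp at h4
  obtain ⟨m, hm⟩ := hS
  have hsub : x '' S m ⊆ x '' Icc (0 : ℝ) 1 := image_mono fun u hu => hu.1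
  refine le_trans ?_ (dimH_mono hsub)
  apply mass_distribution μ (C := ((m : ℝ≥0∞) + 1) * 2 ^ (d : ℝ))
  · positivity
  · exact ENNReal.mul_ne_top (by simp) (ENNReal.rpow_ne_top_of_nonneg d.2 (by simp))
  · rintro _ ⟨u, hu, rfl⟩ t hxt hdiam
    have hball : ∀ r : ℝ, 0 ≤ r → Metric.ediam t ≤ ENNReal.ofReal r →
        t ⊆ Metric.closedBall (x u) r := by
      intro r h0 hr y hy
      have h1 : edist y (x u) ≤ ENNReal.ofReal r := (Metric.edist_le_ediam_of_mem hy hxt).trans hr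
      rw [edist_dist] at h1
      exact (ENNReal.ofReal_le_ofReal_iff h0).1 h1
    have hpow : ∀ k : ℕ, ENNReal.ofReal ((1 / 2 : ℝ) ^ k) = (1 / 2 : ℝ≥0∞) ^ k := by
      intro k
      rw [ENNReal.ofReal_pow (by norm_num), ENNReal.ofReal_div_of_pos (by norm_num)]
      simp
    have hfin : Metric.ediam t ≠ ∞ := ne_top_of_le_ne_top ENNReal.one_ne_top hdiam
    rcases eq_or_ne (Metric.ediam t) 0 with h0 | h0
    · have h1 : ∀ k : ℕ, μ t ≤ (m : ℝ≥0∞) * ((1 / 2 : ℝ≥0∞) ^ k) ^ (d : ℝ) := by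
        intro k
        refine (measure_mono (hball ((1 / 2) ^ k) (by positivity) ?_)).trans (hu.2 k)
        rw [h0]; exact bot_le
      have h2 : Tendsto (fun k : ℕ => (m : ℝ≥0∞) * ((1 / 2 : ℝ≥0∞) ^ k) ^ (d : ℝ)) atTop
          (𝓝 ((m : ℝ≥0∞) * 0)) := by
        apply ENNReal.Tendsto.const_mul _ (Or.inr (by simp))
        have h3 : Tendsto (fun k : ℕ => ((1 / 2 : ℝ≥0∞) ^ k)) atTop (𝓝 0) :=
          ENNReal.tendsto_pow_atTop_nhds_zero_of_lt_one (by
            rw [one_div]; exact ENNReal.inv_lt_one.2 (by norm_num))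
        have h4 := (ENNReal.continuous_rpow_const (y := (d : ℝ))).tendsto 0
        rw [ENNReal.zero_rpow_of_pos (by exact_mod_cast hd)] at h4
        exact h4.comp h3
      rw [mul_zero] at h2
      have h5 : μ t ≤ 0 := ge_of_tendsto' h2 h1
      exact h5.trans bot_le
    · have hpos : 0 < (Metric.ediam t).toReal := ENNReal.toReal_pos h0 hfin
      have hle : (Metric.ediam t).toReal ≤ 1 := by
        have := ENNReal.toReal_mono ENNReal.one_ne_top hdiam
        simpa using this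
      obtain ⟨k, hk1, hk2⟩ := exists_nat_pow_near_of_lt_one hpos hle
        (by norm_num : (0 : ℝ) < 1 / 2) (by norm_num)
      have e1 : Metric.ediam t = ENNReal.ofReal (Metric.ediam t).toReal :=
        (ENNReal.ofReal_toReal hfin).symm
      have h1 : μ t ≤ (m : ℝ≥0∞) * ((1 / 2 : ℝ≥0∞) ^ k) ^ (d : ℝ) := by
        refine (measure_mono (hball ((1 / 2) ^ k) (by positivity) ?_)).trans (hu.2 k)
        rw [e1]
        exact ENNReal.ofReal_le_ofReal hk2
      refine h1.trans ?_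
      have h2 : (1 / 2 : ℝ≥0∞) ^ k ≤ 2 * Metric.ediam t := by
        rw [← hpow k, e1, show (2 : ℝ≥0∞) = ENNReal.ofReal 2 by simp,
          ← ENNReal.ofReal_mul (by norm_num)]
        apply ENNReal.ofReal_le_ofReal
        rw [pow_succ] at hk1
        linarith
      calc (m : ℝ≥0∞) * ((1 / 2 : ℝ≥0∞) ^ k) ^ (d : ℝ)
          ≤ (m : ℝ≥0∞) * (2 * Metric.ediam t) ^ (d : ℝ) :=
            mul_le_mul_right (ENNReal.rpow_le_rpow h2 d.2) _
        _ = (m : ℝ≥0∞) * (2 ^ (d : ℝ) * Metric.ediam t ^ (d : ℝ)) := by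
            rw [ENNReal.mul_rpow_of_nonneg _ _ (NNReal.coe_nonneg d)]
        _ ≤ ((m : ℝ≥0∞) + 1) * 2 ^ (d : ℝ) * Metric.ediam t ^ (d : ℝ) := by
            rw [← mul_assoc]
            gcongr
            exact le_self_add
  · exact fun h0 => hm (le_antisymm ((Measure.le_map_apply_image hx.aemeasurable _).trans h0.le)
      bot_le)

/-- the kernel -/
noncomputable def ker (b : ℝ) (h : ℝ) : ℝ≥0∞ := (ENNReal.ofReal |h|) ^ (-b)

lemma ker_neg (b h : ℝ) : ker b (-h) = ker b h := by simp [ker]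

lemma lintegral_ker_lt_top {b : ℝ} (hb : b < 1) :
    ∫⁻ h in Icc (-1 : ℝ) 1, ker b h < ∞ := by
  let g : ℝ → ℝ≥0∞ := (Ioc (0 : ℝ) 1).indicator (ker b)
  have hg : ∫⁻ h, g h < ∞ := by
    rw [lintegral_indicator measurableSet_Ioc]
    have h1 : ∫⁻ h in Ioc (0 : ℝ) 1, ker b h =
        ∫⁻ h in Ioc (0 : ℝ) 1, ENNReal.ofReal (h ^ (-b)) := by
      apply setLIntegral_congr_fun measurableSet_Ioc
      intro h hh
      simp only [ker]
      rw [abs_of_pos hh.1, ENNReal.ofReal_rpow_of_pos hh.1]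
    rw [h1]
    have h2 : IntervalIntegrable (fun x : ℝ => x ^ (-b)) volume 0 1 :=
      intervalIntegral.intervalIntegrable_rpow' (by linarith)
    rw [intervalIntegrable_iff_integrableOn_Ioc_of_le zero_le_one] at h2
    exact h2.lintegral_lt_top
  have hle : ∫⁻ h in Icc (-1 : ℝ) 1, ker b h ≤ ∫⁻ h, (g h + g (-h)) := by
    rw [← lintegral_indicator measurableSet_Icc]
    apply lintegral_mono_ae
    have h0 : ∀ᵐ h : ℝ, h ≠ 0 := by
      rw [ae_iff]; simp
    filter_upwards [h0] with h hh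
    by_cases hmem : h ∈ Icc (-1 : ℝ) 1
    · rw [indicator_of_mem hmem]
      rcases lt_or_gt_of_ne hh with hneg | hpos
      · have : -h ∈ Ioc (0 : ℝ) 1 := ⟨by linarith, by linarith [hmem.1]⟩
        have h3 : g (-h) = ker b h := by
          simp only [g]
          rw [indicator_of_mem this, ker_neg]
        rw [h3]; exact le_add_self
      · have : h ∈ Ioc (0 : ℝ) 1 := ⟨hpos, hmem.2⟩
        have h3 : g h = ker b h := by
          simp only [g]
          rw [indicator_of_mem this]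
        rw [h3]; exact le_self_add
    · rw [indicator_of_notMem hmem]; exact bot_le
  have hmeas : Measurable g := by
    apply Measurable.indicator _ measurableSet_Ioc
    unfold ker
    fun_prop
  refine hle.trans_lt ?_
  rw [lintegral_add_left hmeas, lintegral_neg_eq_self]
  exact ENNReal.add_lt_top.2 ⟨hg, hg⟩

lemma inner_ker {b : ℝ} {u : ℝ} (hu : u ∈ Icc (0 : ℝ) 1) :
    ∫⁻ v in Icc (0 : ℝ) 1, ker b (u - v) ≤ ∫⁻ h in Icc (-1 : ℝ) 1, ker b h := by
  rw [← lintegral_indicator measurableSet_Icc, ← lintegral_indicator measurableSet_Icc]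
  rw [← lintegral_sub_left_eq_self ((Icc (-1 : ℝ) 1).indicator (ker b)) u]
  apply lintegral_mono
  intro v
  by_cases hv : v ∈ Icc (0 : ℝ) 1
  · have : u - v ∈ Icc (-1 : ℝ) 1 := ⟨by linarith [hu.1, hv.2], by linarith [hu.2, hv.1]⟩
    simp only [indicator_of_mem hv, indicator_of_mem this]
    exact le_rfl
  · simp only [indicator_of_notMem hv]
    exact bot_le

lemma gauss_le (t : ℝ≥0) (ht : t ≠ 0) {r : ℝ} (hr : 0 ≤ r) :
    gaussianReal 0 t (Icc (-r) r) ≤ ENNReal.ofReal (r / √t) := by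
  have htpos : (0 : ℝ) < t := by
    have : 0 < t := pos_iff_ne_zero.2 ht
    exact_mod_cast this
  rw [gaussianReal_apply _ ht]
  have h1 : ∀ x : ℝ, gaussianPDF 0 t x ≤ ENNReal.ofReal ((√(2 * Real.pi * t))⁻¹) := by
    intro x
    unfold gaussianPDF gaussianPDFReal
    apply ENNReal.ofReal_le_ofReal
    apply mul_le_of_le_one_right (by positivity)
    apply Real.exp_le_one_iff.2
    apply div_nonpos_of_nonpos_of_nonneg
    · simp; positivity
    · positivity
  calc ∫⁻ x in Icc (-r) r, gaussianPDF 0 t x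
      ≤ ∫⁻ x in Icc (-r) r, ENNReal.ofReal ((√(2 * Real.pi * t))⁻¹) :=
        lintegral_mono h1
    _ = ENNReal.ofReal ((√(2 * Real.pi * t))⁻¹) * ENNReal.ofReal (r - (-r)) := by
        rw [setLIntegral_const, Real.volume_Icc]
    _ = ENNReal.ofReal ((√(2 * Real.pi * t))⁻¹ * (r - (-r))) := by
        rw [ENNReal.ofReal_mul (by positivity)]
    _ ≤ ENNReal.ofReal (r / √t) := by
        apply ENNReal.ofReal_le_ofReal
        rw [Real.sqrt_mul (by positivity), mul_inv]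
        have h2 : (2 : ℝ) ≤ √(2 * Real.pi) := by
          apply Real.le_sqrt_of_sq_le
          nlinarith [Real.pi_gt_three]
        have h3 : (√(2 * Real.pi))⁻¹ ≤ 1 / 2 := by
          rw [one_div]; exact inv_anti₀ (by norm_num) h2
        have h4 : 0 ≤ (√(t : ℝ))⁻¹ * r := by positivity
        have h5 : (√(2 * Real.pi))⁻¹ * (√(t : ℝ))⁻¹ * (r - -r) =
          (√(2 * Real.pi))⁻¹ * (2 * ((√(t : ℝ))⁻¹ * r)) := by ring
        have h6 : r / √(t : ℝ) = (√(t : ℝ))⁻¹ * r := by rw [div_eq_mul_inv, mul_comm]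
        rw [h5, h6]
        nlinarith

variable {Ω : Type*} [MeasurableSpace Ω] {P : Measure Ω} {n : ℕ}
  {B : ℝ≥0 → Ω → EuclideanSpace ℝ (Fin n)}

lemma smallball (hn : 3 ≤ n) (hB : IsBrownian n P B) (s t : ℝ≥0) (ht : t ≠ 0) {r : ℝ}
    (hr : 0 ≤ r) {a : ℝ} (ha : 0 < a) (ha3 : a ≤ 3) :
    P {ω | dist (B (s + t) ω) (B s ω) ≤ r} ≤ ENNReal.ofReal (r / √t) ^ a := by
  have hmeas : Measurable (fun ω (i : Fin n) => (B (s + t) ω - B s ω) i) := by
    have h1 := hB.measurable (s + t)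
    have h2 := hB.measurable s
    rw [measurable_pi_iff]
    intro i
    have h3 := h1.sub h2
    fun_prop
  set g : ℝ≥0∞ := gaussianReal 0 t (Icc (-r) r) with hg
  have hg1 : g ≤ 1 := prob_le_one
  have h1 : P {ω | dist (B (s + t) ω) (B s ω) ≤ r} ≤ g ^ n := by
    calc P {ω | dist (B (s + t) ω) (B s ω) ≤ r}
        ≤ P ((fun ω (i : Fin n) => (B (s + t) ω - B s ω) i) ⁻¹'
          (univ.pi fun _ => Icc (-r) r)) := by
          apply measure_mono
          intro ω hω i _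
          simp only [mem_ofPred_eq] at hω
          rw [dist_eq_norm] at hω
          have h2 : ‖(B (s + t) ω - B s ω) i‖ ≤ ‖B (s + t) ω - B s ω‖ := PiLp.norm_apply_le _ i
          rw [Real.norm_eq_abs] at h2
          exact abs_le.1 (h2.trans hω)
      _ = P.map (fun ω (i : Fin n) => (B (s + t) ω - B s ω) i)
          (univ.pi fun _ => Icc (-r) r) := by
          rw [Measure.map_apply hmeas]
          exact MeasurableSet.univ_pi fun _ => measurableSet_Icc
      _ = g ^ n := by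
          rw [hB.law, Measure.pi_pi]
          simp [hg]
  have h2 : g ^ n ≤ g ^ 3 := pow_le_pow_of_le_one bot_le hg1 hn
  have h3 : g ^ 3 ≤ g ^ a := by
    rw [← ENNReal.rpow_natCast]
    exact ENNReal.rpow_le_rpow_of_exponent_ge hg1 (by push_cast; exact ha3)
  exact h1.trans (h2.trans (h3.trans (ENNReal.rpow_le_rpow (gauss_le t ht hr) ha.le)))


lemma pow_half (k : ℕ) : ENNReal.ofReal ((1 / 2 : ℝ) ^ k) = (1 / 2 : ℝ≥0∞) ^ k := by
  rw [ENNReal.ofReal_pow (by norm_num), ENNReal.ofReal_div_of_pos (by norm_num)]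
  simp

lemma pair_lt (hn : 3 ≤ n) (hB : IsBrownian n P B) {u v : ℝ} (hu : 0 ≤ u) (huv : u < v) {r : ℝ}
    (hr : 0 < r) {a : ℝ} (ha : 0 < a) (ha3 : a ≤ 3) :
    P {ω | dist (B v.toNNReal ω) (B u.toNNReal ω) ≤ r} ≤
      ENNReal.ofReal r ^ a * ker (a / 2) (u - v) := by
  have hv : v.toNNReal = u.toNNReal + (v - u).toNNReal := by
    rw [← Real.toNNReal_add hu (by linarith)]
    congr 1; ring
  have hpos : 0 < v - u := by linarith
  have ht : (v - u).toNNReal ≠ 0 := by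
    rw [ne_eq, Real.toNNReal_eq_zero]; linarith
  rw [hv]
  refine (smallball hn hB _ _ ht hr.le ha ha3).trans (le_of_eq ?_)
  rw [Real.coe_toNNReal _ hpos.le]
  unfold ker
  have h1 : |u - v| = v - u := by rw [abs_sub_comm, abs_of_pos hpos]
  rw [h1, ENNReal.ofReal_rpow_of_pos hpos, ENNReal.ofReal_rpow_of_pos hr,
    ENNReal.ofReal_rpow_of_pos (by positivity), ← ENNReal.ofReal_mul (by positivity)]
  congr 1
  rw [Real.div_rpow hr.le (by positivity), Real.sqrt_eq_rpow, ← Real.rpow_mul hpos.le,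
    Real.rpow_neg hpos.le, div_eq_mul_inv]
  congr 3
  ring

lemma pair_bound (hn : 3 ≤ n) (hB : IsBrownian n P B) {u v : ℝ} (hu : 0 ≤ u) (hv : 0 ≤ v)
    {r : ℝ} (hr : 0 < r) {a : ℝ} (ha : 0 < a) (ha3 : a ≤ 3) :
    P {ω | dist (B v.toNNReal ω) (B u.toNNReal ω) ≤ r} ≤
      ENNReal.ofReal r ^ a * ker (a / 2) (u - v) := by
  rcases lt_trichotomy u v with h | h | h
  · exact pair_lt hn hB hu h hr ha ha3
  · have h1 : ker (a / 2) (u - v) = ∞ := by
      unfold ker
      rw [h, sub_self, abs_zero, ENNReal.ofReal_zero]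
      exact ENNReal.zero_rpow_of_neg (by linarith)
    have h2 : ENNReal.ofReal r ^ a ≠ 0 := by
      rw [ENNReal.ofReal_rpow_of_pos hr]
      simp only [ne_eq, ENNReal.ofReal_eq_zero, not_le]
      positivity
    rw [h1, ENNReal.mul_top h2]
    exact le_top
  · have h1 := pair_lt hn hB hv h hr ha ha3
    have h2 : {ω | dist (B v.toNNReal ω) (B u.toNNReal ω) ≤ r} =
        {ω | dist (B u.toNNReal ω) (B v.toNNReal ω) ≤ r} := by
      ext ω; simp only [mem_ofPred_eq]; rw [dist_comm]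
    rw [h2]
    refine h1.trans (le_of_eq ?_)
    rw [← ker_neg (a / 2) (v - u)]
    congr 2
    ring


/-- Occupation time of the ball of radius `2^(-k)` around the position at time `u`. -/
noncomputable def occ {E : Type*} [MetricSpace E] (X : ℝ → Ω → E) (k : ℕ) (ω : Ω) (u : ℝ) :
    ℝ≥0∞ :=
  (volume.restrict (Icc (0 : ℝ) 1)) {v | dist (X v ω) (X u ω) ≤ (1 / 2) ^ k}

section Occ

variable {E : Type*} [MetricSpace E] [MeasurableSpace E] [BorelSpace E]
  [SecondCountableTopology E] {X : ℝ → Ω → E}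

lemma measurable_occ (hXm : Measurable (Function.uncurry X)) (k : ℕ) :
    Measurable (Function.uncurry (occ X k)) := by
  have hs : MeasurableSet {p : (Ω × ℝ) × ℝ | dist (X p.2 p.1.1) (X p.1.2 p.1.1) ≤ (1 / 2) ^ k} := by
    apply measurableSet_le _ measurable_const
    apply Measurable.dist
    · exact hXm.comp (measurable_snd.prodMk (measurable_fst.comp measurable_fst))
    · exact hXm.comp ((measurable_snd.comp measurable_fst).prodMk
        (measurable_fst.comp measurable_fst))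
  exact measurable_measure_prodMk_left (ν := volume.restrict (Icc (0 : ℝ) 1)) hs

lemma lintegral_occ_fst [SFinite P] (hXm : Measurable (Function.uncurry X)) (k : ℕ) (u : ℝ) :
    ∫⁻ ω, occ X k ω u ∂P =
      ∫⁻ v in Icc (0 : ℝ) 1, P {ω | dist (X v ω) (X u ω) ≤ (1 / 2) ^ k} := by
  have hs : MeasurableSet {p : Ω × ℝ | dist (X p.2 p.1) (X u p.1) ≤ (1 / 2) ^ k} := by
    apply measurableSet_le _ measurable_const
    apply Measurable.dist
    · exact hXm.comp (measurable_snd.prodMk measurable_fst)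
    · exact hXm.comp (measurable_const.prodMk measurable_fst)
  have e1 := Measure.prod_apply (μ := P) (ν := volume.restrict (Icc (0 : ℝ) 1)) hs
  have e2 := Measure.prod_apply_symm (μ := P) (ν := volume.restrict (Icc (0 : ℝ) 1)) hs
  exact e1.symm.trans e2

lemma lintegral_occ_le [IsProbabilityMeasure P] (hXm : Measurable (Function.uncurry X)) {a : ℝ}
    (hpair : ∀ u ∈ Icc (0 : ℝ) 1, ∀ v ∈ Icc (0 : ℝ) 1, ∀ r : ℝ, 0 < r →
      P {ω | dist (X v ω) (X u ω) ≤ r} ≤ ENNReal.ofReal r ^ a * ker (a / 2) (u - v)) (k : ℕ) :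
    ∫⁻ ω, (∫⁻ u in Icc (0 : ℝ) 1, occ X k ω u) ∂P ≤
      ((1 / 2 : ℝ≥0∞) ^ k) ^ a * ∫⁻ h in Icc (-1 : ℝ) 1, ker (a / 2) h := by
  rw [lintegral_lintegral_swap (measurable_occ hXm k).aemeasurable]
  have h1 : ∀ u ∈ Icc (0 : ℝ) 1, ∫⁻ ω, occ X k ω u ∂P ≤
      ((1 / 2 : ℝ≥0∞) ^ k) ^ a * ∫⁻ h in Icc (-1 : ℝ) 1, ker (a / 2) h := by
    intro u hu
    rw [lintegral_occ_fst hXm]
    calc ∫⁻ v in Icc (0 : ℝ) 1, P {ω | dist (X v ω) (X u ω) ≤ (1 / 2) ^ k}
        ≤ ∫⁻ v in Icc (0 : ℝ) 1, ENNReal.ofReal ((1 / 2) ^ k) ^ a * ker (a / 2) (u - v) := by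
          apply setLIntegral_mono' measurableSet_Icc
          intro v hv
          exact hpair u hu v hv _ (by positivity)
      _ = ENNReal.ofReal ((1 / 2) ^ k) ^ a * ∫⁻ v in Icc (0 : ℝ) 1, ker (a / 2) (u - v) := by
          apply lintegral_const_mul
          unfold ker
          fun_prop
      _ ≤ _ := by
          rw [pow_half]
          exact mul_le_mul_right (inner_ker hu) _
  calc ∫⁻ u in Icc (0 : ℝ) 1, ∫⁻ ω, occ X k ω u ∂P
      ≤ ∫⁻ _u in Icc (0 : ℝ) 1,
          ((1 / 2 : ℝ≥0∞) ^ k) ^ a * ∫⁻ h in Icc (-1 : ℝ) 1, ker (a / 2) h :=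
        setLIntegral_mono' measurableSet_Icc h1
    _ = _ := by
        rw [setLIntegral_const]; simp

end Occ

/-- weights -/
noncomputable def wgt (d : ℝ) (k : ℕ) : ℝ≥0∞ := (((1 / 2 : ℝ≥0∞) ^ k) ^ d)⁻¹

lemma half_ne_zero (k : ℕ) : (1 / 2 : ℝ≥0∞) ^ k ≠ 0 := by
  apply pow_ne_zero; simp

lemma half_ne_top (k : ℕ) : (1 / 2 : ℝ≥0∞) ^ k ≠ ∞ := by
  apply ENNReal.pow_ne_top; simp

lemma halfd_ne_zero {d : ℝ} (k : ℕ) : ((1 / 2 : ℝ≥0∞) ^ k) ^ d ≠ 0 := by
  rw [ne_eq, ENNReal.rpow_eq_zero_iff]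
  push Not
  exact ⟨fun h => absurd h (half_ne_zero k), fun h => absurd h (half_ne_top k)⟩

lemma halfd_ne_top {d : ℝ} (hd : 0 ≤ d) (k : ℕ) : ((1 / 2 : ℝ≥0∞) ^ k) ^ d ≠ ∞ :=
  ENNReal.rpow_ne_top_of_nonneg hd (half_ne_top k)

lemma wgt_sum {d a : ℝ} (had : d < a) {J : ℝ≥0∞} (hJ : J < ∞) :
    ∑' k, wgt d k * (((1 / 2 : ℝ≥0∞) ^ k) ^ a * J) < ∞ := by
  have e1 : ∀ k, wgt d k * (((1 / 2 : ℝ≥0∞) ^ k) ^ a * J) =
      ((1 / 2 : ℝ≥0∞) ^ (a - d)) ^ k * J := by
    intro k
    unfold wgt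
    rw [← mul_assoc, ← ENNReal.rpow_neg, ← ENNReal.rpow_add _ _ (half_ne_zero k) (half_ne_top k)]
    congr 1
    rw [← ENNReal.rpow_natCast, ← ENNReal.rpow_mul, ← ENNReal.rpow_natCast, ← ENNReal.rpow_mul]
    congr 1
    ring
  simp only [e1]
  rw [ENNReal.tsum_mul_right, ENNReal.tsum_geometric]
  apply ENNReal.mul_lt_top _ hJ
  rw [ENNReal.inv_lt_top, tsub_pos_iff_lt]
  apply ENNReal.rpow_lt_one _ (by linarith)
  rw [one_div]; exact ENNReal.inv_lt_one.2 (by norm_num)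

section Occ2

variable {E : Type*} [MetricSpace E] [MeasurableSpace E] [BorelSpace E]
  [SecondCountableTopology E] {X : ℝ → Ω → E}

lemma ae_energy [IsProbabilityMeasure P] (hXm : Measurable (Function.uncurry X)) {a d : ℝ}
    (had : d < a) (ha2 : a / 2 < 1)
    (hpair : ∀ u ∈ Icc (0 : ℝ) 1, ∀ v ∈ Icc (0 : ℝ) 1, ∀ r : ℝ, 0 < r →
      P {ω | dist (X v ω) (X u ω) ≤ r} ≤ ENNReal.ofReal r ^ a * ker (a / 2) (u - v)) :
    ∀ᵐ ω ∂P, ∀ᵐ u ∂(volume.restrict (Icc (0 : ℝ) 1)), ∑' k, wgt d k * occ X k ω u < ∞ := by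
  set ν : Measure ℝ := volume.restrict (Icc (0 : ℝ) 1) with hν
  have hΦm := fun k => measurable_occ hXm k
  have hΦm1 : ∀ k ω, Measurable (occ X k ω) := fun k ω =>
    (hΦm k).comp (measurable_const.prodMk measurable_id)
  have hΦm2 : ∀ k, Measurable fun ω => ∫⁻ u, occ X k ω u ∂ν := fun k =>
    (hΦm k).lintegral_prod_right'
  have hE : ∫⁻ ω, ∫⁻ u, ∑' k, wgt d k * occ X k ω u ∂ν ∂P ≠ ∞ := by
    have e1 : ∀ ω, ∫⁻ u, ∑' k, wgt d k * occ X k ω u ∂ν =
        ∑' k, wgt d k * ∫⁻ u, occ X k ω u ∂ν := by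
      intro ω
      rw [lintegral_tsum fun k => ((hΦm1 k ω).const_mul _).aemeasurable]
      congr 1
      funext k
      exact lintegral_const_mul _ (hΦm1 k ω)
    simp only [e1]
    rw [lintegral_tsum fun k => ((hΦm2 k).const_mul _).aemeasurable]
    refine ne_of_lt (lt_of_le_of_lt (ENNReal.tsum_le_tsum fun k => ?_)
      (wgt_sum had (lintegral_ker_lt_top ha2)))
    rw [lintegral_const_mul _ (hΦm2 k)]
    exact mul_le_mul_right (lintegral_occ_le hXm hpair k) _
  have hmeasT : Measurable (Function.uncurry fun ω u => ∑' k, wgt d k * occ X k ω u) := by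
    have : (Function.uncurry fun ω u => ∑' k, wgt d k * occ X k ω u) =
        fun p : Ω × ℝ => ∑' k, wgt d k * Function.uncurry (occ X k) p := by
      funext p; rfl
    rw [this]
    exact Measurable.tsum fun k => (hΦm k).const_mul _
  have hae := ae_lt_top' (hmeasT.lintegral_prod_right').aemeasurable hE
  filter_upwards [hae] with ω hω
  have hmeasω : Measurable fun u => ∑' k, wgt d k * occ X k ω u :=
    hmeasT.comp (measurable_const.prodMk measurable_id)
  exact ae_lt_top' hmeasω.aemeasurable hω.ne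

end Occ2

omit [MeasurableSpace Ω] in
lemma curve_final {E : Type*} [MetricSpace E] [MeasurableSpace E] [BorelSpace E]
    {X : ℝ → Ω → E} {ω : Ω} (hXω : Measurable fun u => X u ω) {d : ℝ≥0} (hd : 0 < d)
    (hu : ∀ᵐ u ∂(volume.restrict (Icc (0 : ℝ) 1)), ∑' k, wgt d k * occ X k ω u < ∞) :
    (d : ℝ≥0∞) ≤ dimH ((fun u => X u ω) '' Icc (0 : ℝ) 1) := by
  apply dimH_curve (fun u => X u ω) hXω hd
  filter_upwards [hu] with u hu
  refine ⟨∑' k, wgt d k * occ X k ω u, hu.ne, fun k => ?_⟩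
  have h1 : wgt d k * occ X k ω u ≤ ∑' k, wgt d k * occ X k ω u := ENNReal.le_tsum k
  have h2 : (Measure.map (fun u => X u ω) (volume.restrict (Icc (0 : ℝ) 1)))
      (Metric.closedBall (X u ω) ((1 / 2) ^ k)) = occ X k ω u := by
    rw [Measure.map_apply hXω Metric.isClosed_closedBall.measurableSet]
    rfl
  rw [h2]
  have h3 : occ X k ω u = (wgt d k * occ X k ω u) * ((1 / 2 : ℝ≥0∞) ^ k) ^ (d : ℝ) := by
    unfold wgt
    rw [mul_comm (_ * _), ← mul_assoc, ENNReal.mul_inv_cancel (halfd_ne_zero k)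
      (halfd_ne_top (NNReal.coe_nonneg d) k), one_mul]
  calc occ X k ω u = (wgt d k * occ X k ω u) * ((1 / 2 : ℝ≥0∞) ^ k) ^ (d : ℝ) := h3
    _ ≤ (∑' k, wgt d k * occ X k ω u) * ((1 / 2 : ℝ≥0∞) ^ k) ^ (d : ℝ) := mul_le_mul_left h1 _

/-- Dimension bound for one exponent. -/
theorem dimH_trace_ge_of_lt [IsProbabilityMeasure P] (hn : 3 ≤ n) (hB : IsBrownian n P B)
    {d : ℝ≥0} (hd : 0 < d) (hd2 : d < 2) : ∀ᵐ ω ∂P, (d : ℝ≥0∞) ≤ dimH (trace B ω) := by
  -- the exponent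
  obtain ⟨a, ha, ha3, had, ha2⟩ : ∃ a : ℝ, 0 < a ∧ a ≤ 3 ∧ (d : ℝ) < a ∧ a / 2 < 1 := by
    have hdpos : (0 : ℝ) < d := by exact_mod_cast hd
    have hd2' : (d : ℝ) < 2 := by exact_mod_cast hd2
    exact ⟨1 + (d : ℝ) / 2, by positivity, by linarith, by linarith, by linarith⟩
  -- the good set
  obtain ⟨G, hGm, hGae, hGc⟩ : ∃ G : Set Ω, MeasurableSet G ∧ (∀ᵐ ω ∂P, ω ∈ G) ∧
      ∀ ω ∈ G, Continuous fun t => B t ω := by
    refine ⟨(toMeasurable P {ω | ¬ Continuous fun t => B t ω})ᶜ,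
      (measurableSet_toMeasurable _ _).compl, ?_, ?_⟩
    · have h1 : P ((toMeasurable P {ω | ¬ Continuous fun t => B t ω})ᶜ)ᶜ = 0 := by
        rw [compl_compl, measure_toMeasurable]
        exact hB.cont
      exact h1
    · intro ω hω
      by_contra hcon
      exact hω (subset_toMeasurable _ _ hcon)
  classical
  obtain ⟨X, hXG, hXc, hXmm⟩ : ∃ X : ℝ → Ω → EuclideanSpace ℝ (Fin n),
      (∀ u, ∀ ω ∈ G, X u ω = B u.toNNReal ω) ∧ (∀ ω, Continuous fun u => X u ω) ∧
      ∀ u, Measurable (X u) := by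
    refine ⟨fun u => G.indicator (B u.toNNReal), ?_, ?_, ?_⟩
    · intro u ω hω
      exact indicator_of_mem hω _
    · intro ω
      by_cases hω : ω ∈ G
      · have h1 : (fun u : ℝ => G.indicator (B u.toNNReal) ω) = fun u : ℝ => B u.toNNReal ω := by
          funext u; exact indicator_of_mem hω _
        rw [h1]
        exact (hGc ω hω).comp continuous_real_toNNReal
      · have h1 : (fun u : ℝ => G.indicator (B u.toNNReal) ω) = fun _ : ℝ => 0 := by
          funext u; exact indicator_of_notMem hω _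
        rw [h1]; exact continuous_const
    · intro u
      exact (hB.measurable _).indicator hGm
  have hXm : Measurable (Function.uncurry X) :=
    measurable_uncurry_of_continuous_of_measurable hXc hXmm
  -- the pair bound for X
  have hpair : ∀ u ∈ Icc (0 : ℝ) 1, ∀ v ∈ Icc (0 : ℝ) 1, ∀ r : ℝ, 0 < r →
      P {ω | dist (X v ω) (X u ω) ≤ r} ≤ ENNReal.ofReal r ^ a * ker (a / 2) (u - v) := by
    intro u hu v hv r hr
    refine le_trans (le_of_eq ?_) (pair_bound hn hB hu.1 hv.1 hr ha ha3)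
    apply measure_congr
    filter_upwards [hGae] with ω hω
    apply propext
    show dist (X v ω) (X u ω) ≤ r ↔ dist (B v.toNNReal ω) (B u.toNNReal ω) ≤ r
    rw [hXG v ω hω, hXG u ω hω]
  filter_upwards [ae_energy hXm had ha2 hpair, hGae] with ω hω hωG
  refine (curve_final (hXc ω).measurable hd hω).trans (dimH_mono ?_)
  rintro _ ⟨u, hu, rfl⟩
  refine ⟨u.toNNReal, ⟨bot_le, ?_⟩, ?_⟩
  · rw [Real.toNNReal_le_one]; exact hu.2
  · exact (hXG u ω hωG).symm

/-- **Lower bound for the Hausdorff dimension of the Brownian trace.** -/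
theorem dimH_trace_ge {Ω : Type*} [MeasurableSpace Ω] {P : Measure Ω} [IsProbabilityMeasure P]
    {n : ℕ} (hn : 3 ≤ n) {B : ℝ≥0 → Ω → EuclideanSpace ℝ (Fin n)} (hB : IsBrownian n P B) :
    ∀ᵐ ω ∂P, 2 ≤ dimH (trace B ω) := by
  have h1 : ∀ᵐ ω ∂P, ∀ m : ℕ, ENNReal.ofReal (2 - 1 / ((m : ℝ) + 1)) ≤ dimH (trace B ω) := by
    rw [ae_all_iff]
    intro m
    have hm : 0 < 1 / ((m : ℝ) + 1) := by positivity
    have hm1 : 1 / ((m : ℝ) + 1) ≤ 1 := by
      rw [div_le_one (by positivity)]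
      have : (0 : ℝ) ≤ m := by positivity
      linarith
    have hpos : 0 < (2 - 1 / ((m : ℝ) + 1)).toNNReal := by
      rw [Real.toNNReal_pos]; linarith
    have hlt : (2 - 1 / ((m : ℝ) + 1)).toNNReal < 2 := by
      rw [← NNReal.coe_lt_coe, Real.coe_toNNReal _ (by linarith)]
      push_cast
      linarith
    exact dimH_trace_ge_of_lt hn hB hpos hlt
  filter_upwards [h1] with ω hω
  have h2 : Tendsto (fun m : ℕ => ENNReal.ofReal (2 - 1 / ((m : ℝ) + 1))) atTop
      (𝓝 (ENNReal.ofReal (2 - 0))) := by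
    apply (ENNReal.continuous_ofReal.tendsto _).comp
    exact tendsto_const_nhds.sub tendsto_one_div_add_atTop_nhds_zero_nat
  have h3 := le_of_tendsto' h2 hω
  simpa using h3

end Pool.Agent.Helper14.BMDim
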