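import Pool.Agent.Helper85.BP.Stubs

/-!
# Module K3 of the all-p extension of MP_3dd6d4_an: expansion of the 2k-th power
-/

set_option autoImplicit false

open MeasureTheory Complex FourierTransform Filter Topology
open scoped ENNReal NNReal ComplexConjugate

noncomputable section

namespace Helper85.BP.P

open Helper72.BA Helper85.BP

/-- `Φ(ξ,ξ') = ∫ U(ξ,y) conj U(ξ',y) dν(y)` -/
def K3_Phi {Y : Type*} [MeasurableSpace Y] (ν : Measure Y) (U : ℂ → Y → ℂ) (q : ℂ × ℂ) : ℂ :=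
  ∫ y, U q.1 y * conj (U q.2 y) ∂ν

/-- phase factor -/
def K3_e (Ψ : ℂ → ℝ) (β τ : ℝ) (q : ℂ × ℂ) : ℂ :=
  Complex.exp (((-(β * τ * (Real.log (Ψ q.1) - Real.log (Ψ q.2))) : ℝ) : ℂ) * I)

/-- the factor of one pair -/
def K3_G {Y : Type*} [MeasurableSpace Y] (ν : Measure Y) (U : ℂ → Y → ℂ) (Ψ : ℂ → ℝ) (β τ : ℝ)
    (x : ℂ) (q : ℂ × ℂ) : ℂ :=
  ch x (q.1 - q.2) * K3_e Ψ β τ q * K3_Phi ν U q

theorem K3_ch_norm (x ξ : ℂ) : ‖ch x ξ‖ = 1 := by
  unfold ch
  rw [show 2 * (Real.pi : ℂ) * I * ((x.re * ξ.re + x.im * ξ.im : ℝ) : ℂ) =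
    ((2 * Real.pi * (x.re * ξ.re + x.im * ξ.im) : ℝ) : ℂ) * I by push_cast; ring]
  exact Complex.norm_exp_ofReal_mul_I _

theorem K3_e_norm (Ψ : ℂ → ℝ) (β τ : ℝ) (q : ℂ × ℂ) : ‖K3_e Ψ β τ q‖ = 1 :=
  Complex.norm_exp_ofReal_mul_I _

theorem K3_ch_conj (x ξ : ℂ) : conj (ch x ξ) = ch x (-ξ) := by
  unfold ch
  rw [← Complex.exp_conj]
  congr 1
  simp only [map_mul, Complex.conj_ofReal, Complex.conj_I, map_ofNat, Complex.neg_re,
    Complex.neg_im]
  push_cast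
  ring

theorem K3_ch_add (x ξ η : ℂ) : ch x (ξ + η) = ch x ξ * ch x η := by
  unfold ch
  rw [← Complex.exp_add]
  congr 1
  simp only [Complex.add_re, Complex.add_im]
  push_cast
  ring

theorem K3_ch_sum (x : ℂ) {ι : Type*} (s : Finset ι) (f : ι → ℂ) :
    ∏ i ∈ s, ch x (f i) = ch x (∑ i ∈ s, f i) := by
  classical
  induction s using Finset.induction_on with
  | empty => simp [ch]
  | insert a s ha ih => rw [Finset.prod_insert ha, Finset.sum_insert ha, K3_ch_add, ih]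

theorem K3_ch_meas : Measurable (Function.uncurry ch) := by
  unfold ch
  have : Measurable (fun q : ℂ × ℂ => Complex.exp (2 * Real.pi * I *
      ((q.1.re * q.2.re + q.1.im * q.2.im : ℝ) : ℂ))) := by fun_prop
  exact this

theorem K3_Phi_meas {Y : Type*} [MeasurableSpace Y] (ν : Measure Y) [IsFiniteMeasure ν]
    (U : ℂ → Y → ℂ) (hU : Measurable (Function.uncurry U)) : Measurable (K3_Phi ν U) := by
  have h : Measurable (Function.uncurry (fun (q : ℂ × ℂ) (y : Y) => U q.1 y * conj (U q.2 y))) := by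
    have h1 : Measurable (fun r : (ℂ × ℂ) × Y => U r.1.1 r.2) :=
      hU.comp (measurable_fst.fst.prodMk measurable_snd)
    have h2 : Measurable (fun r : (ℂ × ℂ) × Y => U r.1.2 r.2) :=
      hU.comp (measurable_fst.snd.prodMk measurable_snd)
    exact h1.mul (Complex.continuous_conj.measurable.comp h2)
  exact (h.stronglyMeasurable.integral_prod_right).measurable

theorem K3_vK_meas (c1 c2 : ℝ) (Ψ : ℂ → ℝ) (hΨ : Measurable Ψ) : Measurable (vK c1 c2 Ψ) := by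
  have : MeasurableSet (Ann c1 c2) := by
    unfold Ann
    apply MeasurableSet.inter
    · exact measurableSet_le measurable_const measurable_norm
    · exact measurableSet_le measurable_norm measurable_const
  unfold vK
  exact Measurable.indicator (by fun_prop) this

theorem K3_Phi_bound {Y : Type*} [MeasurableSpace Y] (ν : Measure Y)
    (c1 c2 : ℝ) (U : ℂ → Y → ℂ) (Ψ : ℂ → ℝ) (hU : UD ν c1 c2 U Ψ) (q : ℂ × ℂ) :
    ‖K3_Phi ν U q‖ₑ ≤ vK c1 c2 Ψ q.1 * vK c1 c2 Ψ q.2 := by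
  have hdom : ∀ ξ, (∫⁻ y, ‖U ξ y‖ₑ ^ (2:ℝ) ∂ν) ^ (1 / 2 : ℝ) ≤ vK c1 c2 Ψ ξ := by
    intro ξ
    by_cases hξ : ξ ∈ Ann c1 c2
    · have h1 : vK c1 c2 Ψ ξ = ENNReal.ofReal ((‖ξ‖ ^ 2)⁻¹ * Ψ ξ) := by
        simp [vK, Set.indicator_of_mem hξ]
      obtain ⟨c, hc, hc'⟩ := hU.Ψlow
      have hΨ0 : 0 ≤ (‖ξ‖ ^ 2)⁻¹ * Ψ ξ :=
        mul_nonneg (by positivity) (hc.le.trans (hc' ξ))
      have h2 : ∫⁻ y, ‖U ξ y‖ₑ ^ (2:ℝ) ∂ν ≤ (ENNReal.ofReal ((‖ξ‖ ^ 2)⁻¹ * Ψ ξ)) ^ (2:ℝ) := by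
        have := hU.dom ξ
        rw [ENNReal.ofReal_pow hΨ0] at this
        simpa [ENNReal.rpow_two] using this
      rw [h1]
      calc (∫⁻ y, ‖U ξ y‖ₑ ^ (2:ℝ) ∂ν) ^ (1 / 2 : ℝ)
          ≤ ((ENNReal.ofReal ((‖ξ‖ ^ 2)⁻¹ * Ψ ξ)) ^ (2:ℝ)) ^ (1 / 2 : ℝ) :=
            ENNReal.rpow_le_rpow h2 (by norm_num)
        _ = _ := by rw [← ENNReal.rpow_mul]; norm_num
    · have h0 : ∀ y, U ξ y = 0 := by
        intro y
        apply hU.supp
        simp only [Ann, Set.mem_ofPred_eq, not_and_or, not_le] at hξ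
        exact hξ
      simp [h0]
  calc ‖K3_Phi ν U q‖ₑ ≤ ∫⁻ y, ‖U q.1 y * conj (U q.2 y)‖ₑ ∂ν := enorm_integral_le_lintegral_enorm _
    _ = ∫⁻ y, ((fun y => ‖U q.1 y‖ₑ) * (fun y => ‖U q.2 y‖ₑ)) y ∂ν := by
        congr 1
        funext y
        simp only [Pi.mul_apply, enorm_mul]
        congr 1
        exact RCLike.enorm_conj _
    _ ≤ (∫⁻ y, ‖U q.1 y‖ₑ ^ (2:ℝ) ∂ν) ^ (1 / 2 : ℝ) * (∫⁻ y, ‖U q.2 y‖ₑ ^ (2:ℝ) ∂ν) ^ (1 / 2 : ℝ) := by
        have hm : ∀ ξ : ℂ, Measurable (fun y => ‖U ξ y‖ₑ) := fun ξ =>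
          (hU.meas.comp measurable_prodMk_left).enorm
        exact ENNReal.lintegral_mul_le_Lp_mul_Lq ν (Real.HolderConjugate.two_two)
          (hm q.1).aemeasurable (hm q.2).aemeasurable
    _ ≤ _ := mul_le_mul' (hdom _) (hdom _)

theorem K3_vK_fin {Y : Type*} [MeasurableSpace Y] (ν : Measure Y)
    (c1 c2 : ℝ) (U : ℂ → Y → ℂ) (Ψ : ℂ → ℝ) (hU : UD ν c1 c2 U Ψ) :
    ∫⁻ ξ, vK c1 c2 Ψ ξ < ∞ := by
  obtain ⟨C, hC⟩ := hU.Ψup
  obtain ⟨c, hc, hc'⟩ := hU.Ψlow
  have hC0 : 0 ≤ C := hc.le.trans ((hc' 0).trans (hC 0))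
  have h1 : ∀ ξ, vK c1 c2 Ψ ξ ≤ (Metric.closedBall (0:ℂ) c2).indicator
      (fun _ => ENNReal.ofReal ((c1 ^ 2)⁻¹ * C)) ξ := by
    intro ξ
    by_cases hξ : ξ ∈ Ann c1 c2
    · have h2 : ξ ∈ Metric.closedBall (0:ℂ) c2 := by
        simp only [Metric.mem_closedBall, dist_zero_right]; exact hξ.2
      rw [vK, Set.indicator_of_mem hξ, Set.indicator_of_mem h2]
      apply ENNReal.ofReal_le_ofReal
      have h3 : c1 ≤ ‖ξ‖ := hξ.1
      have := hU.c1pos
      apply mul_le_mul _ (hC ξ) (hc.le.trans (hc' ξ)) (by positivity)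
      apply inv_anti₀ (by positivity)
      exact pow_le_pow_left₀ this.le h3 2
    · rw [vK, Set.indicator_of_notMem hξ]
      exact bot_le
  refine (lintegral_mono h1).trans_lt ?_
  rw [lintegral_indicator Metric.isClosed_closedBall.measurableSet, setLIntegral_const]
  exact ENNReal.mul_lt_top ENNReal.ofReal_lt_top measure_closedBall_lt_top

theorem K3_Phi_int {Y : Type*} [MeasurableSpace Y] (ν : Measure Y) [IsFiniteMeasure ν]
    (c1 c2 : ℝ) (U : ℂ → Y → ℂ) (Ψ : ℂ → ℝ) (hU : UD ν c1 c2 U Ψ) :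
    Integrable (K3_Phi ν U) := by
  refine ⟨(K3_Phi_meas ν U hU.meas).aestronglyMeasurable, ?_⟩
  have hm := K3_vK_meas c1 c2 Ψ hU.Ψmeas
  have hf := K3_vK_fin ν c1 c2 U Ψ hU
  calc ∫⁻ q, ‖K3_Phi ν U q‖ₑ ≤ ∫⁻ q : ℂ × ℂ, vK c1 c2 Ψ q.1 * vK c1 c2 Ψ q.2 :=
        lintegral_mono (K3_Phi_bound ν c1 c2 U Ψ hU)
    _ = (∫⁻ ξ, vK c1 c2 Ψ ξ) * ∫⁻ ξ, vK c1 c2 Ψ ξ := by
        rw [Measure.volume_eq_prod]
        exact lintegral_prod_mul hm.aemeasurable hm.aemeasurable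
    _ < ∞ := ENNReal.mul_lt_top hf hf

theorem K3_e_meas (Ψ : ℂ → ℝ) (hΨ : Measurable Ψ) (β : ℝ) :
    Measurable (fun r : ℝ × (ℂ × ℂ) => K3_e Ψ β r.1 r.2) := by
  unfold K3_e
  have h1 : Measurable (fun r : ℝ × (ℂ × ℂ) => Real.log (Ψ r.2.1)) :=
    Real.measurable_log.comp (hΨ.comp measurable_snd.fst)
  have h2 : Measurable (fun r : ℝ × (ℂ × ℂ) => Real.log (Ψ r.2.2)) :=
    Real.measurable_log.comp (hΨ.comp measurable_snd.snd)
  fun_prop

/-- the quadratic expression as a double integral -/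
theorem K3_pt {Y : Type*} [MeasurableSpace Y] (ν : Measure Y) [IsFiniteMeasure ν]
    (c1 c2 : ℝ) (U : ℂ → Y → ℂ) (Ψ : ℂ → ℝ) (hU : UD ν c1 c2 U Ψ) (β τ : ℝ) (x : ℂ) :
    ∃ M : ℝ, 0 ≤ M ∧
      ∫⁻ y, ‖uW U Ψ (-(I * ((β * τ : ℝ) : ℂ))) x y‖ₑ ^ 2 ∂ν = ENNReal.ofReal M ∧
      ∫ q, K3_G ν U Ψ β τ x q = (M : ℂ) := by
  set w : ℂ := -(I * ((β * τ : ℝ) : ℂ)) with hw
  set F0 : Y × (ℂ × ℂ) → ℂ := fun r => ch x (r.2.1 - r.2.2) * K3_e Ψ β τ r.2 *
    (U r.2.1 r.1 * conj (U r.2.2 r.1)) with hF0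
  obtain ⟨C, hC⟩ := hU.bdd
  have hmeasF0 : Measurable F0 := by
    have a1 : Measurable (fun r : Y × (ℂ × ℂ) => ch x (r.2.1 - r.2.2)) :=
      K3_ch_meas.comp ((measurable_const (a := x)).prodMk
        (measurable_snd.fst.sub measurable_snd.snd))
    have a2 : Measurable (fun r : Y × (ℂ × ℂ) => K3_e Ψ β τ r.2) :=
      (K3_e_meas Ψ hU.Ψmeas β).comp ((measurable_const (a := τ)).prodMk measurable_snd)
    have a3 : Measurable (fun r : Y × (ℂ × ℂ) => U r.2.1 r.1) :=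
      hU.meas.comp (measurable_snd.fst.prodMk measurable_fst)
    have a4 : Measurable (fun r : Y × (ℂ × ℂ) => U r.2.2 r.1) :=
      hU.meas.comp (measurable_snd.snd.prodMk measurable_fst)
    exact (a1.mul a2).mul (a3.mul (Complex.continuous_conj.measurable.comp a4))
  set B : ℂ → ℝ := (Metric.closedBall (0:ℂ) c2).indicator (fun _ => |C|) with hB
  have hBint : Integrable B := by
    rw [hB, integrable_indicator_iff Metric.isClosed_closedBall.measurableSet]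
    exact integrableOn_const (by exact measure_closedBall_lt_top.ne)
  have hUB : ∀ ξ y, ‖U ξ y‖ ≤ B ξ := by
    intro ξ y
    by_cases hξ : ξ ∈ Metric.closedBall (0:ℂ) c2
    · rw [hB, Set.indicator_of_mem hξ]
      exact (hC ξ y).trans (le_abs_self C)
    · rw [hB, Set.indicator_of_notMem hξ, hU.supp ξ y, norm_zero]
      right
      simpa using hξ
  have hF0int : Integrable F0 (ν.prod (volume : Measure (ℂ × ℂ))) := by
    have hd : Integrable (fun r : Y × (ℂ × ℂ) => (1:ℝ) * (B r.2.1 * B r.2.2))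
        (ν.prod (volume : Measure (ℂ × ℂ))) := by
      have h2 : Integrable (fun q : ℂ × ℂ => B q.1 * B q.2) (volume : Measure (ℂ × ℂ)) := by
        rw [Measure.volume_eq_prod]
        exact Integrable.mul_prod hBint hBint
      exact Integrable.mul_prod (f := fun _ : Y => (1:ℝ)) (integrable_const _) h2
    refine Integrable.mono' hd hmeasF0.aestronglyMeasurable (Eventually.of_forall fun r => ?_)
    rw [hF0]
    simp only [norm_mul, K3_ch_norm, K3_e_norm, one_mul, RCLike.norm_conj]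
    exact mul_le_mul (hUB _ _) (hUB _ _) (norm_nonneg _) ((norm_nonneg _).trans (hUB _ r.1))
  -- inner integral in q
  have hq : ∀ y, ∫ q, F0 (y, q) = ((‖uW U Ψ w x y‖ ^ 2 : ℝ) : ℂ) := by
    intro y
    set a : ℂ → ℂ := fun ξ => ch x ξ * (U ξ y * Complex.exp (w * (Real.log (Ψ ξ) : ℂ))) with ha
    have e1 : (fun q : ℂ × ℂ => F0 (y, q)) = fun q => a q.1 * conj (a q.2) := by
      funext q
      simp only [hF0, ha, map_mul]
      rw [sub_eq_add_neg, K3_ch_add, K3_ch_conj]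
      have e2 : K3_e Ψ β τ q = Complex.exp (w * (Real.log (Ψ q.1) : ℂ)) *
          conj (Complex.exp (w * (Real.log (Ψ q.2) : ℂ))) := by
        unfold K3_e
        rw [← Complex.exp_conj, ← Complex.exp_add]
        congr 1
        simp only [hw, map_mul, map_neg, Complex.conj_I, Complex.conj_ofReal]
        push_cast
        ring
      rw [e2]
      ring
    rw [e1, Measure.volume_eq_prod, integral_prod_mul (f := a) (g := fun ξ => conj (a ξ)),
      integral_conj]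
    have e3 : ∫ ξ, a ξ = uW U Ψ w x y := rfl
    rw [e3, Complex.mul_conj, Complex.normSq_eq_norm_sq]
  have hy : ∀ q, ∫ y, F0 (y, q) ∂ν = K3_G ν U Ψ β τ x q := by
    intro q
    simp only [hF0]
    rw [integral_const_mul]
    rfl
  have hint : Integrable (fun y => ((‖uW U Ψ w x y‖ ^ 2 : ℝ) : ℂ)) ν := by
    have := hF0int.integral_prod_left
    simpa [hq] using this
  have hint' : Integrable (fun y => ‖uW U Ψ w x y‖ ^ 2) ν := by
    refine hint.re.congr (Eventually.of_forall fun y => ?_)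
    exact Complex.ofReal_re _
  refine ⟨∫ y, ‖uW U Ψ w x y‖ ^ 2 ∂ν, integral_nonneg (fun y => by positivity), ?_, ?_⟩
  · rw [ofReal_integral_eq_lintegral_ofReal hint' (Eventually.of_forall fun y => by positivity)]
    congr 1
    funext y
    rw [← ofReal_norm, ENNReal.ofReal_pow (norm_nonneg _)]
  · have h1 : ∫ q, K3_G ν U Ψ β τ x q = ∫ q, ∫ y, F0 (y, q) ∂ν := by
      congr 1
      funext q
      exact (hy q).symm
    rw [h1, ← integral_integral_swap (f := fun y q => F0 (y, q)) hF0int]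
    simp_rw [hq]
    exact integral_ofReal

theorem K3_prod {Y : Type*} [MeasurableSpace Y] (ν : Measure Y) (U : ℂ → Y → ℂ) (Ψ : ℂ → ℝ)
    (β τ : ℝ) (x : ℂ) {k : ℕ} (v : Fin k → ℂ × ℂ) :
    ∏ i, K3_G ν U Ψ β τ x (v i) = ch x (∑ i, ((v i).1 - (v i).2)) *
      Complex.exp (((-(β * τ * ∑ i, (Real.log (Ψ (v i).1) - Real.log (Ψ (v i).2))) : ℝ) : ℂ) * I) *
      ∏ i, K3_Phi ν U (v i) := by
  unfold K3_G
  rw [Finset.prod_mul_distrib, Finset.prod_mul_distrib, K3_ch_sum]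
  congr 2
  unfold K3_e
  rw [← Complex.exp_sum]
  congr 1
  push_cast
  rw [Finset.mul_sum, ← Finset.sum_neg_distrib, Finset.sum_mul]

/-- the Gaussian -/
theorem K3_gauss (δ : ℝ) (hδ : 0 < δ) (S : ℂ) :
    ∫ x : ℂ, ((Real.exp (-(Real.pi * δ * ‖x‖ ^ 2)) : ℝ) : ℂ) * ch x S = ((gd δ S : ℝ) : ℂ) := by
  have hb : 0 < (((Real.pi * δ : ℝ)) : ℂ).re := by
    rw [Complex.ofReal_re]; positivity
  have h := GaussianFourier.integral_cexp_neg_mul_sq_norm_add hb (2 * Real.pi * I) (V := ℂ) S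
  have e1 : (fun x : ℂ => ((Real.exp (-(Real.pi * δ * ‖x‖ ^ 2)) : ℝ) : ℂ) * ch x S) =
      fun x : ℂ => Complex.exp (-((Real.pi * δ : ℝ) : ℂ) * (‖x‖ : ℂ) ^ 2 +
        2 * Real.pi * I * ((inner ℝ S x : ℝ) : ℂ)) := by
    funext x
    rw [Complex.ofReal_exp, ch, ← Complex.exp_add]
    congr 1
    rw [Complex.inner]
    simp only [Complex.mul_re, Complex.conj_re, Complex.conj_im]
    push_cast
    ring
  rw [e1, h]
  have e2 : ((Module.finrank ℝ ℂ : ℕ) : ℂ) / 2 = 1 := by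
    rw [Complex.finrank_real_complex]; norm_num
  rw [e2, Complex.cpow_one]
  unfold gd
  have hpi : (Real.pi : ℂ) ≠ 0 := by exact_mod_cast Real.pi_ne_zero
  have hd : (δ : ℂ) ≠ 0 := by exact_mod_cast hδ.ne'
  push_cast
  congr 1
  · field_simp
  · congr 1
    rw [mul_pow, mul_pow, Complex.I_sq]
    field_simp
    ring

theorem K3_W_int (β : ℝ) (W : ℝ → ℝ) (hW : Adm β W) : Integrable W := by
  refine Integrable.mono hW.int hW.cont.aestronglyMeasurable (Eventually.of_forall fun τ => ?_)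
  rw [norm_mul, Real.norm_of_nonneg (hW.nonneg τ), Real.norm_of_nonneg (by positivity)]
  have := hW.nonneg τ
  nlinarith [mul_nonneg (mul_nonneg (sq_nonneg β) (sq_nonneg τ)) this]

theorem K3_Wh (β : ℝ) (W : ℝ → ℝ) (hW : Adm β W) (L : ℝ) :
    ∫ τ : ℝ, (W τ : ℂ) * Complex.exp (((-(β * τ * L) : ℝ) : ℂ) * I) = ((Wh β W L : ℝ) : ℂ) := by
  have hi := K3_W_int β W hW
  have e1 : ∀ τ : ℝ, (W τ : ℂ) * Complex.exp (((-(β * τ * L) : ℝ) : ℂ) * I) =
      ((W τ * Real.cos (β * τ * L) : ℝ) : ℂ) - ((W τ * Real.sin (β * τ * L) : ℝ) : ℂ) * I := by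
    intro τ
    rw [Complex.exp_mul_I, ← Complex.ofReal_cos, ← Complex.ofReal_sin, Real.cos_neg, Real.sin_neg]
    push_cast
    ring
  have hc : Integrable (fun τ : ℝ => W τ * Real.cos (β * τ * L)) := by
    refine Integrable.mono hi (by
      apply Continuous.aestronglyMeasurable
      have := hW.cont
      fun_prop) (Eventually.of_forall fun τ => ?_)
    rw [norm_mul]
    exact mul_le_of_le_one_right (norm_nonneg _) (by
      rw [Real.norm_eq_abs]; exact Real.abs_cos_le_one _)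
  have hs : Integrable (fun τ : ℝ => W τ * Real.sin (β * τ * L)) := by
    refine Integrable.mono hi (by
      apply Continuous.aestronglyMeasurable
      have := hW.cont
      fun_prop) (Eventually.of_forall fun τ => ?_)
    rw [norm_mul]
    exact mul_le_of_le_one_right (norm_nonneg _) (by
      rw [Real.norm_eq_abs]; exact Real.abs_sin_le_one _)
  have hs0 : ∫ τ : ℝ, W τ * Real.sin (β * τ * L) = 0 := by
    have h1 := integral_neg_eq_self (fun τ : ℝ => W τ * Real.sin (β * τ * L)) volume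
    have h2 : (fun τ : ℝ => W (-τ) * Real.sin (β * (-τ) * L)) =
        fun τ => -(W τ * Real.sin (β * τ * L)) := by
      funext τ
      rw [hW.even, show β * (-τ) * L = -(β * τ * L) by ring, Real.sin_neg]
      ring
    rw [h2, integral_neg] at h1
    linarith
  have hc' : Integrable (fun τ : ℝ => ((W τ * Real.cos (β * τ * L) : ℝ) : ℂ)) := hc.ofReal
  have hs' : Integrable (fun τ : ℝ => ((W τ * Real.sin (β * τ * L) : ℝ) : ℂ) * I) :=
    hs.ofReal.mul_const I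
  calc ∫ τ : ℝ, (W τ : ℂ) * Complex.exp (((-(β * τ * L) : ℝ) : ℂ) * I)
      = ∫ τ : ℝ, (((W τ * Real.cos (β * τ * L) : ℝ) : ℂ) -
          ((W τ * Real.sin (β * τ * L) : ℝ) : ℂ) * I) :=
        integral_congr_ae (Eventually.of_forall e1)
    _ = _ := by
        rw [integral_sub hc' hs', integral_mul_const, integral_complex_ofReal,
          integral_complex_ofReal, hs0]
        simp [Wh]

theorem expand {Y : Type*} [MeasurableSpace Y] (ν : Measure Y) [IsFiniteMeasure ν] (k : ℕ)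
    (hk : 1 ≤ k) (β : ℝ) (hβ : 0 < β) (W : ℝ → ℝ) (hW : Adm β W) (c1 c2 : ℝ) (U : ℂ → Y → ℂ)
    (Ψ : ℂ → ℝ) (hU : UD ν c1 c2 U Ψ) (δ : ℝ) (hδ : 0 < δ) :
    ∫⁻ τ : ℝ, ENNReal.ofReal (W τ) * ∫⁻ x : ℂ, ENNReal.ofReal (Real.exp (-(Real.pi * δ * ‖x‖ ^ 2))) *
        (∫⁻ y, ‖uW U Ψ (-(I * ((β * τ : ℝ) : ℂ))) x y‖ₑ ^ 2 ∂ν) ^ k ≤
    ∫⁻ v : Fin k → ℂ × ℂ, (∏ i, (vK c1 c2 Ψ (v i).1 * vK c1 c2 Ψ (v i).2)) *
        ENNReal.ofReal (Wh β W (∑ i, (Real.log (Ψ (v i).1) - Real.log (Ψ (v i).2)))) *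
        ENNReal.ofReal (gd δ (∑ i, ((v i).1 - (v i).2))) := by
  choose M hM0 hM1 hM2 using fun τ x => K3_pt ν c1 c2 U Ψ hU β τ x
  have hWi := K3_W_int β W hW
  set S : (Fin k → ℂ × ℂ) → ℂ := fun v => ∑ i, ((v i).1 - (v i).2) with hS
  set L : (Fin k → ℂ × ℂ) → ℝ := fun v => ∑ i, (Real.log (Ψ (v i).1) - Real.log (Ψ (v i).2)) with hL
  set G : (Fin k → ℂ × ℂ) → ℂ := fun v => ∏ i, K3_Phi ν U (v i) with hG
  set A : ℝ × ℂ → ℂ := fun p => (W p.1 : ℂ) * ((Real.exp (-(Real.pi * δ * ‖p.2‖ ^ 2)) : ℝ) : ℂ) with hA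
  set F : (ℝ × ℂ) × (Fin k → ℂ × ℂ) → ℂ := fun r => A r.1 *
    (ch r.1.2 (S r.2) * Complex.exp (((-(β * r.1.1 * L r.2) : ℝ) : ℂ) * I) * G r.2) with hF
  have hPhi := K3_Phi_int ν c1 c2 U Ψ hU
  have hGint : Integrable G := by
    rw [hG, volume_pi]
    exact Integrable.fintype_prod (f := fun _ : Fin k => K3_Phi ν U) (fun _ => hPhi)
  have hgi : Integrable (fun x : ℂ => Real.exp (-(Real.pi * δ * ‖x‖ ^ 2))) := by
    have hb : 0 < (((Real.pi * δ : ℝ)) : ℂ).re := by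
      rw [Complex.ofReal_re]; positivity
    have := (GaussianFourier.integrable_cexp_neg_mul_sq_norm_add hb 0 (V := ℂ) 0).norm
    refine this.congr (Eventually.of_forall fun x => ?_)
    simp only [zero_mul, add_zero, Complex.norm_exp]
    congr 1
    rw [← Complex.ofReal_neg, ← Complex.ofReal_pow, ← Complex.ofReal_mul, Complex.ofReal_re]
    ring
  have hAint : Integrable A := by
    rw [hA, Measure.volume_eq_prod]
    exact Integrable.mul_prod hWi.ofReal hgi.ofReal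
  have hSm : Measurable S := by
    rw [hS]
    apply Finset.measurable_sum
    intro i _
    exact (measurable_pi_apply i).fst.sub (measurable_pi_apply i).snd
  have hLm : Measurable L := by
    rw [hL]
    apply Finset.measurable_sum
    intro i _
    exact (Real.measurable_log.comp (hU.Ψmeas.comp (measurable_pi_apply i).fst)).sub
      (Real.measurable_log.comp (hU.Ψmeas.comp (measurable_pi_apply i).snd))
  have hGm : Measurable G := by
    rw [hG]
    apply Finset.measurable_prod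
    intro i _
    exact (K3_Phi_meas ν U hU.meas).comp (measurable_pi_apply i)
  have hAm : Measurable A := by
    rw [hA]
    have := hW.cont.measurable
    fun_prop
  have hFm : Measurable F := by
    rw [hF]
    have a1 : Measurable (fun r : (ℝ × ℂ) × (Fin k → ℂ × ℂ) => ch r.1.2 (S r.2)) :=
      K3_ch_meas.comp (measurable_fst.snd.prodMk (hSm.comp measurable_snd))
    have a2 : Measurable (fun r : (ℝ × ℂ) × (Fin k → ℂ × ℂ) => L r.2) := hLm.comp measurable_snd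
    have a3 : Measurable (fun r : (ℝ × ℂ) × (Fin k → ℂ × ℂ) =>
        Complex.exp (((-(β * r.1.1 * L r.2) : ℝ) : ℂ) * I)) := by fun_prop
    exact (hAm.comp measurable_fst).mul ((a1.mul a3).mul (hGm.comp measurable_snd))
  have hFint : Integrable F ((volume : Measure (ℝ × ℂ)).prod
      (volume : Measure (Fin k → ℂ × ℂ))) := by
    refine Integrable.mono (Integrable.mul_prod hAint hGint) hFm.aestronglyMeasurable
      (Eventually.of_forall fun r => ?_)
    rw [hF]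
    simp only [norm_mul, K3_ch_norm, Complex.norm_exp_ofReal_mul_I, one_mul]
    exact le_rfl
  -- the v-integral
  have hv : ∀ p : ℝ × ℂ, ∫ v, F (p, v) =
      ((W p.1 * Real.exp (-(Real.pi * δ * ‖p.2‖ ^ 2)) * M p.1 p.2 ^ k : ℝ) : ℂ) := by
    intro p
    have e1 : (fun v : Fin k → ℂ × ℂ => F (p, v)) =
        fun v => A p * ∏ i, K3_G ν U Ψ β p.1 p.2 (v i) := by
      funext v
      rw [K3_prod]
    rw [e1, integral_const_mul, integral_fintype_prod_volume_eq_pow, hM2, Fintype.card_fin, hA]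
    push_cast
    ring
  -- the p-integral
  have hp : ∀ v, ∫ p, F (p, v) = ((Wh β W (L v) * gd δ (S v) : ℝ) : ℂ) * G v := by
    intro v
    have e1 : (fun p : ℝ × ℂ => F (p, v)) = fun p =>
        (((W p.1 : ℂ) * Complex.exp (((-(β * p.1 * L v) : ℝ) : ℂ) * I)) *
        (((Real.exp (-(Real.pi * δ * ‖p.2‖ ^ 2)) : ℝ) : ℂ) * ch p.2 (S v))) * G v := by
      funext p
      simp only [hF, hA]
      ring
    rw [e1, integral_mul_const, Measure.volume_eq_prod,
      integral_prod_mul (f := fun τ : ℝ => (W τ : ℂ) * Complex.exp (((-(β * τ * L v) : ℝ) : ℂ) * I))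
        (g := fun x : ℂ => ((Real.exp (-(Real.pi * δ * ‖x‖ ^ 2)) : ℝ) : ℂ) * ch x (S v)),
      K3_gauss δ hδ, K3_Wh β W hW]
    push_cast
    ring
  set h : ℝ × ℂ → ℝ := fun p =>
    W p.1 * Real.exp (-(Real.pi * δ * ‖p.2‖ ^ 2)) * M p.1 p.2 ^ k with hh
  have hh0 : ∀ p, 0 ≤ h p := fun p =>
    mul_nonneg (mul_nonneg (hW.nonneg _) (Real.exp_pos _).le) (pow_nonneg (hM0 _ _) _)
  have hhi : Integrable h ((volume : Measure ℝ).prod (volume : Measure ℂ)) := by
    have h1 := hFint.integral_prod_left.re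
    rw [Measure.volume_eq_prod] at h1
    refine h1.congr (Eventually.of_forall fun p => ?_)
    show RCLike.re (∫ v, F (p, v)) = h p
    rw [hv p]
    exact Complex.ofReal_re _
  have lhs : ∫⁻ τ : ℝ, ENNReal.ofReal (W τ) *
      ∫⁻ x : ℂ, ENNReal.ofReal (Real.exp (-(Real.pi * δ * ‖x‖ ^ 2))) *
        (∫⁻ y, ‖uW U Ψ (-(I * ((β * τ : ℝ) : ℂ))) x y‖ₑ ^ 2 ∂ν) ^ k =
      ENNReal.ofReal (∫ p, h p ∂((volume : Measure ℝ).prod (volume : Measure ℂ))) := by
    rw [ofReal_integral_eq_lintegral_ofReal hhi (Eventually.of_forall hh0),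
      lintegral_prod _ hhi.1.aemeasurable.ennreal_ofReal]
    apply lintegral_congr
    intro τ
    rw [← lintegral_const_mul' _ _ ENNReal.ofReal_ne_top]
    apply lintegral_congr
    intro x
    have e3 : h (τ, x) = W τ * Real.exp (-(Real.pi * δ * ‖x‖ ^ 2)) * M τ x ^ k := rfl
    rw [hM1, e3, ENNReal.ofReal_mul (mul_nonneg (hW.nonneg _) (Real.exp_pos _).le),
      ENNReal.ofReal_mul (hW.nonneg _), ENNReal.ofReal_pow (hM0 _ _)]
    exact (mul_assoc _ _ _).symm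
  have key : ((∫ p, h p ∂((volume : Measure ℝ).prod (volume : Measure ℂ)) : ℝ) : ℂ) =
      ∫ v, ((Wh β W (L v) * gd δ (S v) : ℝ) : ℂ) * G v := by
    rw [← integral_complex_ofReal]
    calc ∫ p, ((h p : ℝ) : ℂ) ∂((volume : Measure ℝ).prod (volume : Measure ℂ))
        = ∫ p, ∫ v, F (p, v) := by
          rw [← Measure.volume_eq_prod]
          exact integral_congr_ae (Eventually.of_forall fun p => (hv p).symm)
      _ = ∫ v, ∫ p, F (p, v) := integral_integral_swap (f := fun p v => F (p, v)) hFint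
      _ = _ := integral_congr_ae (Eventually.of_forall fun v => hp v)
  have hWh := (Wh_ptw β hβ W hW).1
  rw [lhs]
  calc ENNReal.ofReal (∫ p, h p ∂((volume : Measure ℝ).prod (volume : Measure ℂ)))
      ≤ ‖((∫ p, h p ∂((volume : Measure ℝ).prod (volume : Measure ℂ)) : ℝ) : ℂ)‖ₑ := by
        rw [← ofReal_norm, Complex.norm_real]
        exact ENNReal.ofReal_le_ofReal (le_abs_self _)
    _ = ‖∫ v, ((Wh β W (L v) * gd δ (S v) : ℝ) : ℂ) * G v‖ₑ := by rw [key]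
    _ ≤ ∫⁻ v, ‖((Wh β W (L v) * gd δ (S v) : ℝ) : ℂ) * G v‖ₑ := enorm_integral_le_lintegral_enorm _
    _ ≤ _ := by
        apply lintegral_mono
        intro v
        have hgd : 0 ≤ gd δ (S v) := by
          unfold gd
          positivity
        have e1 : ‖((Wh β W (L v) * gd δ (S v) : ℝ) : ℂ)‖ₑ =
            ENNReal.ofReal (Wh β W (L v)) * ENNReal.ofReal (gd δ (S v)) := by
          rw [← ofReal_norm, Complex.norm_real, Real.norm_of_nonneg (mul_nonneg (hWh _) hgd),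
            ENNReal.ofReal_mul (hWh _)]
        have e2 : ‖G v‖ₑ ≤ ∏ i, (vK c1 c2 Ψ (v i).1 * vK c1 c2 Ψ (v i).2) := by
          have : ‖G v‖ₑ = ∏ i, ‖K3_Phi ν U (v i)‖ₑ := by
            simp only [hG, ← ofReal_norm, norm_prod]
            exact ENNReal.ofReal_prod_of_nonneg (fun i _ => norm_nonneg _)
          rw [this]
          exact Finset.prod_le_prod' (fun i _ => K3_Phi_bound ν c1 c2 U Ψ hU (v i))
        show ‖((Wh β W (L v) * gd δ (S v) : ℝ) : ℂ) * G v‖ₑ ≤ _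
        rw [enorm_mul, e1]
        calc ENNReal.ofReal (Wh β W (L v)) * ENNReal.ofReal (gd δ (S v)) * ‖G v‖ₑ
            ≤ ENNReal.ofReal (Wh β W (L v)) * ENNReal.ofReal (gd δ (S v)) *
              ∏ i, (vK c1 c2 Ψ (v i).1 * vK c1 c2 Ψ (v i).2) := by gcongr
          _ = _ := by ring

end Helper85.BP.P
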