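import Pool.Agent.Helper85.BP.Stubs

/-!
# Module R7 of the all-p extension of MP_3dd6d4_an: far lags, real exponent
(the first part repeats lemmas of the modules SF and FL by helper34)
-/

set_option autoImplicit false

open MeasureTheory Complex FourierTransform Filter Topology
open scoped ENNReal NNReal ComplexConjugate

noncomputable section

namespace Helper85.BP.P

open Helper72.BA Helper85.BP

namespace R7

theorem measurable_cub (s : ℝ) (j : ℤ) : Measurable (cub s j) := by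
  unfold cub
  exact (Int.measurable_floor.comp (Complex.measurable_re.div_const _)).prodMk
    (Int.measurable_floor.comp (Complex.measurable_im.div_const _))

theorem measurableSet_cub (s : ℝ) (j : ℤ) (q : ℤ × ℤ) :
    MeasurableSet {z : ℂ | cub s j z = q} :=
  measurable_cub s j (measurableSet_singleton q)

theorem volume_cub {s : ℝ} (hs : 0 < s) (j : ℤ) (q : ℤ × ℤ) :
    volume {z : ℂ | cub s j z = q} = ENNReal.ofReal ((s * 2 ^ (-j)) ^ 2) := by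
  have hapos : 0 < s * (2:ℝ) ^ (-j) := by positivity
  unfold cub
  generalize s * (2:ℝ) ^ (-j) = a at hapos ⊢
  have h1 : {z : ℂ | (⌊z.re / a⌋, ⌊z.im / a⌋) = q} = Complex.measurableEquivRealProd ⁻¹'
      (Set.Ico (q.1 * a) ((q.1 + 1) * a) ×ˢ Set.Ico (q.2 * a) ((q.2 + 1) * a)) := by
    ext z
    simp only [Set.mem_ofPred_eq, Set.mem_preimage, Set.mem_prod, Set.mem_Ico, Prod.ext_iff,
      Int.floor_eq_iff, Complex.measurableEquivRealProd_apply, le_div_iff₀ hapos,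
      div_lt_iff₀ hapos]
  rw [h1, Complex.volume_preserving_equiv_real_prod.measure_preimage
    (measurableSet_Ico.prod measurableSet_Ico).nullMeasurableSet,
    Measure.volume_eq_prod, Measure.prod_prod, Real.volume_Ico, Real.volume_Ico,
    ← ENNReal.ofReal_mul (by nlinarith)]
  congr 1
  ring

/-- partition of the integral -/
theorem lintegral_cub (s : ℝ) (j : ℤ) (f : ℂ → ℝ≥0∞) :
    ∫⁻ z, f z = ∑' q : ℤ × ℤ, ∫⁻ z in {z : ℂ | cub s j z = q}, f z := by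
  rw [← lintegral_iUnion (fun q => measurableSet_cub s j q)]
  · have : (⋃ q : ℤ × ℤ, {z : ℂ | cub s j z = q}) = Set.univ := by
      ext z; simp
    rw [this, Measure.restrict_univ]
  · intro q r hqr
    rw [Function.onFun, Set.disjoint_left]
    intro z hz hz'
    exact hqr (hz.symm.trans hz')

theorem lintegral_mul_cub (s : ℝ) (j : ℤ) {f : ℂ → ℝ≥0∞} (hf : Measurable f)
    (w : ℤ × ℤ → ℝ≥0∞) :
    ∫⁻ z, f z * w (cub s j z) =
      ∑' q : ℤ × ℤ, (∫⁻ z in {z : ℂ | cub s j z = q}, f z) * w q := by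
  rw [lintegral_cub s j]
  congr 1
  ext q
  rw [← lintegral_mul_const _ hf]
  refine setLIntegral_congr_fun (measurableSet_cub s j q) ?_
  intro z hz
  have hz' : cub s j z = q := hz
  simp only [hz']

/-- `W` is a function of the cube of generation `j` -/
def CM (s : ℝ) (j : ℤ) (W : ℂ → ℝ≥0∞) : Prop := ∃ w : ℤ × ℤ → ℝ≥0∞, ∀ z, W z = w (cub s j z)

theorem CM.measurable {s : ℝ} {j : ℤ} {W : ℂ → ℝ≥0∞} (h : CM s j W) : Measurable W := by
  obtain ⟨w, hw⟩ := h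
  have : W = w ∘ cub s j := funext hw
  rw [this]
  exact (measurable_of_countable w).comp (measurable_cub s j)

theorem cm_avg (s : ℝ) (j : ℤ) (G : ℂ → ℝ≥0∞) : CM s j (avg s j G) :=
  ⟨fun q => ENNReal.ofReal ((s * 2 ^ (-j)) ^ 2)⁻¹ * ∫⁻ w in {w : ℂ | cub s j w = q}, G w,
    fun _ => rfl⟩

theorem CM.rpow {s : ℝ} {j : ℤ} {W : ℂ → ℝ≥0∞} (h : CM s j W) (q : ℝ) :
    CM s j (fun z => W z ^ q) := by
  obtain ⟨w, hw⟩ := h
  exact ⟨fun c => w c ^ q, fun z => by simp only [hw z]⟩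

/-- the average is the conditional expectation -/
theorem lintegral_avg_mul {s : ℝ} (hs : 0 < s) (j : ℤ) {G : ℂ → ℝ≥0∞} (hG : Measurable G)
    {W : ℂ → ℝ≥0∞} (hW : CM s j W) :
    ∫⁻ z, avg s j G z * W z = ∫⁻ z, G z * W z := by
  obtain ⟨w, hw⟩ := hW
  simp only [hw]
  rw [lintegral_mul_cub s j (cm_avg s j G).measurable, lintegral_mul_cub s j hG]
  congr 1
  ext q
  congr 1
  have hapos : 0 < s * (2:ℝ) ^ (-j) := by positivity
  have h1 : ∫⁻ z in {z : ℂ | cub s j z = q}, avg s j G z =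
      ∫⁻ z in {z : ℂ | cub s j z = q}, (ENNReal.ofReal ((s * 2 ^ (-j)) ^ 2)⁻¹ *
        ∫⁻ w in {w : ℂ | cub s j w = q}, G w) := by
    refine setLIntegral_congr_fun (measurableSet_cub s j q) ?_
    intro z hz
    have hz' : cub s j z = q := hz
    simp only [avg, hz']
  rw [h1, setLIntegral_const, volume_cub hs, mul_comm, ← mul_assoc,
    ← ENNReal.ofReal_mul (by positivity), mul_inv_cancel₀ (by positivity), ENNReal.ofReal_one,
    one_mul]

theorem nice_gj (n : ℕ) (j : ℤ) {f : ℂ → ℂ} (hf : Nice f) : Nice (gj n j f) :=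
  nice_cv (ker_KK n j) hf

theorem nice_zero : Nice (fun _ : ℂ => (0 : ℂ)) :=
  ⟨measurable_const, integrable_zero _ _ _, ⟨0, fun z => by simp⟩⟩

theorem nice_add {f g : ℂ → ℂ} (hf : Nice f) (hg : Nice g) : Nice (f + g) := by
  obtain ⟨C, hC⟩ := hf.bdd
  obtain ⟨D, hD⟩ := hg.bdd
  exact ⟨hf.meas.add hg.meas, hf.int.add hg.int,
    ⟨C + D, fun z => (norm_add_le _ _).trans (add_le_add (hC z) (hD z))⟩⟩

theorem gW_insert (n : ℕ) {a : ℤ} {W : Finset ℤ} (h : a ∉ W) (f : ℂ → ℂ) :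
    gW n (insert a W) f = gj n a f + gW n W f := by
  ext z
  simp [gW, Finset.sum_insert h]

theorem nice_gW (n : ℕ) (W : Finset ℤ) {f : ℂ → ℂ} (hf : Nice f) : Nice (gW n W f) := by
  classical
  induction W using Finset.induction_on with
  | empty =>
    have : gW n ∅ f = fun _ => 0 := by ext; simp [gW]
    rw [this]
    exact nice_zero
  | insert a W h ih =>
    rw [gW_insert n h]
    exact nice_add (nice_gj n a hf) ih

theorem cv_gW {K : ℂ → ℂ} (hK : Ker K) (n : ℕ) (W : Finset ℤ) {f : ℂ → ℂ} (hf : Nice f) (z : ℂ) :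
    cv K (gW n W f) z = ∑ j ∈ W, cv K (gj n j f) z := by
  classical
  induction W using Finset.induction_on with
  | empty => simp [gW, cv]
  | insert a W h ih =>
    rw [gW_insert n h, cv_add hK (nice_gj n a hf) (nice_gW n W hf), Pi.add_apply, ih,
      Finset.sum_insert h]

theorem cv_kap_eq (n : ℕ) {a i : ℤ} (h : i < a) {f : ℂ → ℂ} (hf : Nice f) :
    cv (kap a) (gj n i f) = gj n i f := by
  have hg := nice_gj n i hf
  have c1 : Continuous (cv (kap a) (gj n i f)) := continuous_cv (ker_kap a) hg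
  have c2 : Continuous (gj n i f) := continuous_cv (ker_KK n i) hf
  have i1 := integrable_fourier_cv (ker_kap a) hg
  have i2 : Integrable (𝓕 (gj n i f)) := integrable_fourier_cv (ker_KK n i) hf
  have e : 𝓕 (cv (kap a) (gj n i f)) = 𝓕 (gj n i f) := by
    ext ξ
    rw [fourier_cv (ker_kap a) hg, fourier_kap]
    unfold gj
    rw [fourier_cv (ker_KK n i) hf, fourier_KK]
    rcases le_or_gt ‖ξ‖ ((2:ℝ) ^ a) with h1 | h1
    · rw [Psi_eq_one h1]; simp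
    · have : chi i ξ = 0 := chi_eq_zero_right
        (le_trans (zpow_le_zpow_right₀ (by norm_num) (by omega)) h1.le)
      rw [this]; simp
  rw [← c1.fourierInv_fourier_eq (nice_cv (ker_kap a) hg).int i1, e,
    c2.fourierInv_fourier_eq hg.int i2]

theorem cv_kap_zero (n : ℕ) {a i : ℤ} (h : a + 2 ≤ i) {f : ℂ → ℂ} (hf : Nice f) :
    cv (kap a) (gj n i f) = 0 := by
  have hg := nice_gj n i hf
  have c1 : Continuous (cv (kap a) (gj n i f)) := continuous_cv (ker_kap a) hg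
  have i1 := integrable_fourier_cv (ker_kap a) hg
  have e : 𝓕 (cv (kap a) (gj n i f)) = 0 := by
    ext ξ
    rw [fourier_cv (ker_kap a) hg, fourier_kap]
    unfold gj
    rw [fourier_cv (ker_KK n i) hf, fourier_KK]
    rcases le_or_gt ((2:ℝ) ^ (a + 1)) ‖ξ‖ with h1 | h1
    · rw [Psi_eq_zero h1]; simp
    · have : chi i ξ = 0 := chi_eq_zero_left
        (h1.le.trans (zpow_le_zpow_right₀ (by norm_num) (by omega)))
      rw [this]; simp
  rw [← c1.fourierInv_fourier_eq (nice_cv (ker_kap a) hg).int i1, e]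
  ext z
  simp [Real.fourierInv_eq]

/-- the low part as a low pass convolution of `g_A` -/
theorem low_eq (n : ℕ) (A : Finset ℤ) (a : ℤ) {f : ℂ → ℂ} (hf : Nice f) (z : ℂ) :
    gW n (A.filter (fun i => i < a)) f z = cv (kap a) (gW n A f) z
      - (if a ∈ A then cv (kap a) (gj n a f) z else 0)
      - (if a + 1 ∈ A then cv (kap a) (gj n (a + 1) f) z else 0) := by
  classical
  rw [cv_gW (ker_kap a) n A hf]
  have h1 : ∑ j ∈ A, cv (kap a) (gj n j f) z = ∑ j ∈ A, ((if j < a then gj n j f z else 0) +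
      (if j = a then cv (kap a) (gj n a f) z else 0) +
      (if j = a + 1 then cv (kap a) (gj n (a + 1) f) z else 0)) := by
    refine Finset.sum_congr rfl fun j _ => ?_
    rcases lt_trichotomy j a with h | h | h
    · rw [cv_kap_eq n h hf]
      simp [h, h.ne, (h.trans (lt_add_one a)).ne]
    · subst h; simp
    · rcases eq_or_lt_of_le (Int.add_one_le_iff.mpr h) with h' | h'
      · subst h'; simp
      · rw [cv_kap_zero n (by omega) hf]
        simp [h.ne', h'.ne', not_lt.mpr h.le]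
  rw [h1, Finset.sum_add_distrib, Finset.sum_add_distrib, Finset.sum_ite_eq', Finset.sum_ite_eq']
  simp only [gW, Finset.sum_filter]
  ring

/-- the weight at two points of the same square -/
theorem gam_cub {s : ℝ} (hs : 0 < s) (j : ℤ) {z z' : ℂ} (h : cub s j z' = cub s j z) (w : ℂ) :
    gam (s * 2 ^ (-j)) (z - w) ≤ 25 * gam (s * 2 ^ (-j)) (z' - w) := by
  have hapos : 0 < s * (2:ℝ) ^ (-j) := by positivity
  unfold cub at h
  generalize s * (2:ℝ) ^ (-j) = ρ at hapos h ⊢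
  rw [Prod.ext_iff] at h
  have h1 := Int.abs_sub_lt_one_of_floor_eq_floor h.1
  have h2 := Int.abs_sub_lt_one_of_floor_eq_floor h.2
  rw [← sub_div, abs_div, abs_of_pos hapos, div_lt_one hapos] at h1 h2
  have h3 : ‖z' - z‖ ^ 2 ≤ 2 * ρ ^ 2 := by
    rw [← Complex.normSq_eq_norm_sq, Complex.normSq_apply, Complex.sub_re, Complex.sub_im]
    have := abs_lt.mp h1
    have := abs_lt.mp h2
    nlinarith
  have h4 : ‖z' - w‖ ^ 2 ≤ 2 * ‖z - w‖ ^ 2 + 2 * ‖z' - z‖ ^ 2 := by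
    have : ‖z' - w‖ ≤ ‖z' - z‖ + ‖z - w‖ := by
      have := norm_add_le (z' - z) (z - w)
      simpa using this
    have h0 : 0 ≤ ‖z' - w‖ := norm_nonneg _
    nlinarith [sq_nonneg (‖z' - z‖ - ‖z - w‖)]
  have h5 : 1 + ‖z' - w‖ ^ 2 / ρ ^ 2 ≤ 5 * (1 + ‖z - w‖ ^ 2 / ρ ^ 2) := by
    have hρ : 0 < ρ ^ 2 := by positivity
    have e1 : 5 * (1 + ‖z - w‖ ^ 2 / ρ ^ 2) - (1 + ‖z' - w‖ ^ 2 / ρ ^ 2) =
        (4 * ρ ^ 2 + 5 * ‖z - w‖ ^ 2 - ‖z' - w‖ ^ 2) / ρ ^ 2 := by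
      field_simp
      ring
    have : 0 ≤ (4 * ρ ^ 2 + 5 * ‖z - w‖ ^ 2 - ‖z' - w‖ ^ 2) / ρ ^ 2 := by
      apply div_nonneg _ hρ.le
      nlinarith [sq_nonneg ‖z - w‖]
    linarith
  unfold gam
  have hX : 0 < 1 + ‖z - w‖ ^ 2 / ρ ^ 2 := by positivity
  have hY : 0 < 1 + ‖z' - w‖ ^ 2 / ρ ^ 2 := by positivity
  have h6 : ((1 + ‖z - w‖ ^ 2 / ρ ^ 2) ^ 2)⁻¹ ≤ 25 * ((1 + ‖z' - w‖ ^ 2 / ρ ^ 2) ^ 2)⁻¹ := by
    rw [← div_eq_mul_inv, inv_eq_one_div, div_le_div_iff₀ (by positivity) (by positivity), one_mul]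
    calc (1 + ‖z' - w‖ ^ 2 / ρ ^ 2) ^ 2 ≤ (5 * (1 + ‖z - w‖ ^ 2 / ρ ^ 2)) ^ 2 := by
          gcongr
      _ = 25 * (1 + ‖z - w‖ ^ 2 / ρ ^ 2) ^ 2 := by ring
  calc (ρ ^ 2)⁻¹ * ((1 + ‖z - w‖ ^ 2 / ρ ^ 2) ^ 2)⁻¹
      ≤ (ρ ^ 2)⁻¹ * (25 * ((1 + ‖z' - w‖ ^ 2 / ρ ^ 2) ^ 2)⁻¹) := by gcongr
    _ = _ := by ring

theorem measurable_gam (ρ : ℝ) : Measurable (gam ρ) := by
  unfold gam
  fun_prop

theorem gam_nonneg (ρ : ℝ) (z : ℂ) : 0 ≤ gam ρ z := by
  unfold gam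
  positivity

/-- `gam ρ * h` -/
def gc (ρ : ℝ) (h : ℂ → ℝ≥0∞) (z : ℂ) : ℝ≥0∞ := ∫⁻ w, ENNReal.ofReal (gam ρ (z - w)) * h w

theorem measurable_gc (ρ : ℝ) {h : ℂ → ℝ≥0∞} (hh : Measurable h) : Measurable (gc ρ h) := by
  unfold gc
  refine Measurable.lintegral_prod_right' (f := fun p : ℂ × ℂ =>
    ENNReal.ofReal (gam ρ (p.1 - p.2)) * h p.2) ?_
  exact (((measurable_gam ρ).comp (measurable_fst.sub measurable_snd)).ennreal_ofReal).mul
    (hh.comp measurable_snd)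

theorem gc_cub {s : ℝ} (hs : 0 < s) (j : ℤ) {z z' : ℂ} (h : cub s j z' = cub s j z)
    (g : ℂ → ℝ≥0∞) :
    gc (s * 2 ^ (-j)) g z ≤ 25 * gc (s * 2 ^ (-j)) g z' := by
  unfold gc
  rw [← lintegral_const_mul' _ _ (by norm_num)]
  refine lintegral_mono fun w => ?_
  rw [← mul_assoc]
  gcongr
  have : (25 : ℝ≥0∞) = ENNReal.ofReal 25 := by norm_num
  rw [this, ← ENNReal.ofReal_mul (by norm_num)]
  exact ENNReal.ofReal_le_ofReal (gam_cub hs j h w)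

/-- convolution with the low pass kernel is dominated by the weight -/
theorem cv_kap_le {C : ℝ} (hC : 0 < C) (hb : ∀ i : ℤ, ∀ z : ℂ, ‖kap i z‖ ≤ C * gam ((2:ℝ) ^ (-i)) z)
    (a : ℤ) (g : ℂ → ℂ) (z : ℂ) :
    ‖cv (kap a) g z‖ₑ ≤ ENNReal.ofReal C * gc ((2:ℝ) ^ (-a)) (fun w => ‖g w‖ₑ) z := by
  unfold cv gc
  refine (enorm_integral_le_lintegral_enorm _).trans ?_
  rw [← lintegral_const_mul' _ _ ENNReal.ofReal_ne_top]
  refine lintegral_mono fun w => ?_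
  rw [enorm_mul, ← mul_assoc]
  gcongr
  rw [← ENNReal.ofReal_mul hC.le, ← ofReal_norm]
  exact ENNReal.ofReal_le_ofReal (hb a _)


theorem pow_three_rpow (a b c : ℝ≥0∞) (r : ℝ) (hr : 0 ≤ r) :
    (a + b + c) ^ r ≤ 3 ^ r * (a ^ r + b ^ r + c ^ r) := by
  have h1 : a + b + c ≤ 3 * max a (max b c) := by
    have ha : a ≤ max a (max b c) := le_max_left _ _
    have hb : b ≤ max a (max b c) := (le_max_left _ _).trans (le_max_right _ _)
    have hc : c ≤ max a (max b c) := (le_max_right _ _).trans (le_max_right _ _)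
    calc a + b + c ≤ max a (max b c) + max a (max b c) + max a (max b c) :=
          add_le_add (add_le_add ha hb) hc
      _ = 3 * max a (max b c) := by ring
  calc (a + b + c) ^ r ≤ (3 * max a (max b c)) ^ r := ENNReal.rpow_le_rpow h1 hr
    _ = 3 ^ r * (max a (max b c)) ^ r := ENNReal.mul_rpow_of_nonneg _ _ hr
    _ ≤ 3 ^ r * (a ^ r + b ^ r + c ^ r) := by
        gcongr
        rcases max_choice a (max b c) with h | h
        · rw [h, add_assoc]; exact le_self_add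
        · rw [h]
          rcases max_choice b c with h' | h'
          · rw [h', add_assoc, add_comm (a ^ r), add_assoc]; exact le_self_add
          · rw [h', add_comm]; exact le_self_add

/-- the main term -/
theorem main_term (p : ℝ) (hp : 2 < p) (CM' CS : ℝ≥0)
    (hM : ∀ (I : Finset ℤ) (ρ : ℤ → ℝ) (_ : ∀ i, 0 < ρ i) (h : ℂ → ℝ≥0∞) (_ : Measurable h),
      ∫⁻ z, (⨆ i ∈ I, ∫⁻ w, ENNReal.ofReal (gam (ρ i) (z - w)) * h w) ^ p ≤
        CM' * ∫⁻ z, (h z) ^ p)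
    (n m0 : ℕ) (A : Finset ℤ) (f : ℂ → ℂ) (hf : Nice f)
    (hS : ∫⁻ z, (∑ j ∈ A, avg (2 ^ m0) j (fun w => ‖gj n j f w‖ₑ ^ 2) z) ^ (p / 2) ≤
      CS * nrp p f) (g : ℂ → ℂ) (hg : Nice g) :
    ∑ j ∈ A, ∫⁻ z, ‖gj n j f z‖ₑ ^ 2 * (gc ((2:ℝ) ^ ((m0:ℤ) - j)) (fun w => ‖g w‖ₑ) z) ^ (p - 2) ≤
      25 ^ (p - 2) * ((CM' : ℝ≥0∞) ^ (1 - 2 / p) * (CS : ℝ≥0∞) ^ (2 / p)) *
        ((nrp p g) ^ (1 - 2 / p) * (nrp p f) ^ (2 / p)) := by
  classical
  set s : ℝ := 2 ^ m0 with hsdef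
  have hs : 0 < s := by positivity
  set h : ℂ → ℝ≥0∞ := fun w => ‖g w‖ₑ with hh
  have hhm : Measurable h := hg.meas.enorm
  set ρ : ℤ → ℝ := fun i => s * 2 ^ (-i) with hρ
  have hρj : ∀ j : ℤ, (2:ℝ) ^ ((m0:ℤ) - j) = ρ j := by
    intro j
    rw [hρ, hsdef]
    simp only
    rw [← zpow_natCast, ← zpow_add₀ (by norm_num)]
    congr 1
  set Mg : ℂ → ℝ≥0∞ := fun z => ⨆ i ∈ A, gc (ρ i) h z with hMg
  have hMgm : Measurable Mg := by
    refine Measurable.iSup fun i => Measurable.iSup fun _ => measurable_gc _ hhm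
  have hGm : ∀ j, Measurable fun w => ‖gj n j f w‖ₑ ^ 2 := fun j =>
    (nice_gj n j hf).meas.enorm.pow_const 2
  set r : ℝ := p - 2 with hr
  have hr0 : 0 < r := by linarith
  -- one term
  have h1 : ∀ j ∈ A, ∫⁻ z, ‖gj n j f z‖ₑ ^ 2 * (gc ((2:ℝ) ^ ((m0:ℤ) - j)) h z) ^ r ≤
      ∫⁻ z, avg s j (fun w => ‖gj n j f w‖ₑ ^ 2) z * (25 * Mg z) ^ r := by
    intro j hj
    set m : ℂ → ℝ≥0∞ := fun z => ⨅ (z' : ℂ) (_ : cub s j z' = cub s j z), 25 * Mg z' with hm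
    have hmCM : CM s j m := ⟨fun q => ⨅ (z' : ℂ) (_ : cub s j z' = q), 25 * Mg z', fun _ => rfl⟩
    have hm1 : ∀ z, m z ≤ 25 * Mg z := fun z =>
      iInf₂_le (f := fun z' (_ : cub s j z' = cub s j z) => 25 * Mg z') z rfl
    have hm2 : ∀ z, gc ((2:ℝ) ^ ((m0:ℤ) - j)) h z ≤ m z := by
      intro z
      refine le_iInf₂ fun z' hz' => ?_
      calc gc ((2:ℝ) ^ ((m0:ℤ) - j)) h z = gc (ρ j) h z := by rw [hρj]
        _ ≤ 25 * gc (ρ j) h z' := gc_cub hs j hz' h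
        _ ≤ 25 * Mg z' := by
            gcongr
            exact le_iSup₂_of_le j hj le_rfl
    calc ∫⁻ z, ‖gj n j f z‖ₑ ^ 2 * (gc ((2:ℝ) ^ ((m0:ℤ) - j)) h z) ^ r
        ≤ ∫⁻ z, ‖gj n j f z‖ₑ ^ 2 * m z ^ r := by
          refine lintegral_mono fun z => ?_
          gcongr
          exact hm2 z
      _ = ∫⁻ z, avg s j (fun w => ‖gj n j f w‖ₑ ^ 2) z * m z ^ r :=
          (lintegral_avg_mul hs j (hGm j) (hmCM.rpow r)).symm
      _ ≤ _ := by
          refine lintegral_mono fun z => ?_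
          gcongr
          exact hm1 z
  set S : ℂ → ℝ≥0∞ := fun z => ∑ j ∈ A, avg s j (fun w => ‖gj n j f w‖ₑ ^ 2) z with hSdef
  have hSm : Measurable S := Finset.measurable_sum _ fun j _ => (cm_avg s j _).measurable
  have hp0 : 0 < p := by linarith
  have h2p : 0 ≤ 1 - 2 / p := by
    rw [sub_nonneg, div_le_one hp0]; exact hp.le
  have h2p' : 0 ≤ 2 / p := by positivity
  calc ∑ j ∈ A, ∫⁻ z, ‖gj n j f z‖ₑ ^ 2 * (gc ((2:ℝ) ^ ((m0:ℤ) - j)) h z) ^ r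
      ≤ ∑ j ∈ A, ∫⁻ z, avg s j (fun w => ‖gj n j f w‖ₑ ^ 2) z * (25 * Mg z) ^ r :=
        Finset.sum_le_sum h1
    _ = ∫⁻ z, 25 ^ r * (S z * Mg z ^ r) := by
        rw [← lintegral_finsetSum]
        · refine lintegral_congr fun z => ?_
          rw [← Finset.sum_mul, ENNReal.mul_rpow_of_nonneg _ _ hr0.le]
          ring
        · intro j _
          exact (cm_avg s j _).measurable.mul ((hMgm.const_mul 25).pow_const r)
    _ = 25 ^ r * ∫⁻ z, S z * Mg z ^ r := lintegral_const_mul' _ _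
        (ENNReal.rpow_ne_top_of_nonneg hr0.le (by norm_num))
    _ ≤ 25 ^ r * ((∫⁻ z, S z ^ (p / 2)) ^ (2 / p) * (∫⁻ z, Mg z ^ p) ^ (1 - 2 / p)) := by
        gcongr
        have hconj : (p / 2).HolderConjugate (p / (p - 2)) := by
          rw [Real.holderConjugate_iff]
          refine ⟨by linarith, ?_⟩
          field_simp
          ring
        have := ENNReal.lintegral_mul_le_Lp_mul_Lq volume hconj hSm.aemeasurable
          (hMgm.pow_const r).aemeasurable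
        refine this.trans (le_of_eq ?_)
        congr 2
        · field_simp
        · refine lintegral_congr fun z => ?_
          rw [← ENNReal.rpow_mul]
          congr 1
          rw [hr]
          have : p - 2 ≠ 0 := by linarith
          field_simp
        · field_simp
    _ ≤ 25 ^ r * ((CS * nrp p f) ^ (2 / p) * (CM' * nrp p g) ^ (1 - 2 / p)) := by
        gcongr
        · exact hM A ρ (fun i => by positivity) h hhm
    _ = _ := by
        rw [ENNReal.mul_rpow_of_nonneg _ _ h2p', ENNReal.mul_rpow_of_nonneg _ _ h2p]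
        ring

/-- `gamN * h` -/
def gN (N : ℕ) (ρ : ℝ) (h : ℂ → ℝ≥0∞) (z : ℂ) : ℝ≥0∞ :=
  ∫⁻ w, ENNReal.ofReal (gamN N ρ (z - w)) * h w

theorem measurable_gamN (N : ℕ) (ρ : ℝ) : Measurable (gamN N ρ) := by
  unfold gamN
  fun_prop

theorem gamN_nonneg (N : ℕ) (ρ : ℝ) (z : ℂ) : 0 ≤ gamN N ρ z := by
  unfold gamN
  positivity

theorem gamN_neg (N : ℕ) (ρ : ℝ) (z : ℂ) : gamN N ρ (-z) = gamN N ρ z := by
  unfold gamN
  rw [norm_neg]

theorem measurable_gN (N : ℕ) (ρ : ℝ) {h : ℂ → ℝ≥0∞} (hh : Measurable h) :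
    Measurable (gN N ρ h) := by
  unfold gN
  refine Measurable.lintegral_prod_right' (f := fun p : ℂ × ℂ =>
    ENNReal.ofReal (gamN N ρ (p.1 - p.2)) * h p.2) ?_
  exact (((measurable_gamN N ρ).comp (measurable_fst.sub measurable_snd)).ennreal_ofReal).mul
    (hh.comp measurable_snd)

theorem gN_symm (N : ℕ) (ρ : ℝ) {h H : ℂ → ℝ≥0∞} (hh : Measurable h) (hH : Measurable H) :
    ∫⁻ z, H z * gN N ρ h z = ∫⁻ w, h w * gN N ρ H w := by
  have hk : ∀ z : ℂ, Measurable fun w => ENNReal.ofReal (gamN N ρ (z - w)) := fun z =>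
    ((measurable_gamN N ρ).comp (measurable_const.sub measurable_id)).ennreal_ofReal
  have hkh : ∀ z : ℂ, Measurable fun w => ENNReal.ofReal (gamN N ρ (z - w)) * h w := fun z =>
    (hk z).mul hh
  have hkH : ∀ z : ℂ, Measurable fun w => ENNReal.ofReal (gamN N ρ (z - w)) * H w := fun z =>
    (hk z).mul hH
  calc ∫⁻ z, H z * gN N ρ h z
      = ∫⁻ z, ∫⁻ w, H z * (ENNReal.ofReal (gamN N ρ (z - w)) * h w) := by
        refine lintegral_congr fun z => ?_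
        rw [gN, lintegral_const_mul _ (hkh z)]
    _ = ∫⁻ w, ∫⁻ z, H z * (ENNReal.ofReal (gamN N ρ (z - w)) * h w) := by
        apply lintegral_lintegral_swap
        apply Measurable.aemeasurable
        exact (hH.comp measurable_fst).mul
          ((((measurable_gamN N ρ).comp (measurable_fst.sub measurable_snd)).ennreal_ofReal).mul
            (hh.comp measurable_snd))
    _ = _ := by
        refine lintegral_congr fun w => ?_
        rw [gN, ← lintegral_const_mul _ (hkH w)]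
        refine lintegral_congr fun z => ?_
        rw [← gamN_neg, neg_sub]
        ring

theorem half_mul_half (x : ℝ≥0∞) : x ^ (1 / 2 : ℝ) * x ^ (1 / 2 : ℝ) = x := by
  rw [← ENNReal.rpow_add_of_nonneg _ _ (by norm_num) (by norm_num)]
  norm_num

theorem half_rpow_two (x : ℝ≥0∞) : (x ^ (1 / 2 : ℝ)) ^ (2:ℝ) = x := by
  rw [← ENNReal.rpow_mul]
  norm_num

theorem cs (k G : ℂ → ℝ≥0∞) (hk : Measurable k) (hG : Measurable G) :
    (∫⁻ w, k w * G w) ^ 2 ≤ (∫⁻ w, k w) * ∫⁻ w, k w * G w ^ 2 := by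
  have h1 : ∫⁻ w, k w * G w = ∫⁻ w, ((fun w => k w ^ (1 / 2 : ℝ)) *
      (fun w => k w ^ (1 / 2 : ℝ) * G w)) w := by
    refine lintegral_congr fun w => ?_
    simp only [Pi.mul_apply]
    rw [← mul_assoc, half_mul_half]
  have hkG : Measurable (fun w => k w ^ (1 / 2 : ℝ) * G w) := (hk.pow_const (1 / 2 : ℝ)).mul hG
  have h2 := ENNReal.lintegral_mul_le_Lp_mul_Lq (volume : Measure ℂ) Real.HolderConjugate.two_two
    (hk.pow_const (1 / 2 : ℝ)).aemeasurable hkG.aemeasurable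
  rw [← h1] at h2
  calc (∫⁻ w, k w * G w) ^ 2 ≤ ((∫⁻ w, (k w ^ (1 / 2 : ℝ)) ^ (2:ℝ)) ^ (1 / 2 : ℝ) *
        (∫⁻ w, (k w ^ (1 / 2 : ℝ) * G w) ^ (2:ℝ)) ^ (1 / 2 : ℝ)) ^ 2 := by
        gcongr
    _ = _ := by
        rw [mul_pow, ← ENNReal.rpow_two, ← ENNReal.rpow_two, half_rpow_two, half_rpow_two]
        congr 1
        · refine lintegral_congr fun w => ?_
          rw [half_rpow_two]
        · refine lintegral_congr fun w => ?_
          rw [ENNReal.mul_rpow_of_nonneg _ _ (by norm_num), half_rpow_two, ENNReal.rpow_two]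

theorem cv_kap_sq {N : ℕ} {C C1 : ℝ} (hC : 0 < C)
    (hb : ∀ i : ℤ, ∀ z : ℂ, ‖kap i z‖ ≤ C * gamN N ((2:ℝ) ^ (-i)) z)
    (hm : ∀ ρ : ℝ, 0 < ρ → ∀ z : ℂ,
      ∫⁻ w, ENNReal.ofReal (gamN N ρ (z - w)) ≤ ENNReal.ofReal C1)
    (a : ℤ) (g : ℂ → ℂ) (hg : Nice g) (z : ℂ) :
    ‖cv (kap a) g z‖ₑ ^ 2 ≤ ENNReal.ofReal C ^ 2 * ENNReal.ofReal C1 *
      gN N ((2:ℝ) ^ (-a)) (fun w => ‖g w‖ₑ ^ 2) z := by
  have hk : Measurable fun w => ENNReal.ofReal (gamN N ((2:ℝ) ^ (-a)) (z - w)) :=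
    ((measurable_gamN N _).comp (measurable_const.sub measurable_id)).ennreal_ofReal
  have h1 : ‖cv (kap a) g z‖ₑ ≤ ENNReal.ofReal C *
      ∫⁻ w, ENNReal.ofReal (gamN N ((2:ℝ) ^ (-a)) (z - w)) * ‖g w‖ₑ := by
    unfold cv
    refine (enorm_integral_le_lintegral_enorm _).trans ?_
    rw [← lintegral_const_mul' _ _ ENNReal.ofReal_ne_top]
    refine lintegral_mono fun w => ?_
    rw [enorm_mul, ← mul_assoc]
    gcongr
    rw [← ENNReal.ofReal_mul hC.le, ← ofReal_norm]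
    exact ENNReal.ofReal_le_ofReal (hb a _)
  calc ‖cv (kap a) g z‖ₑ ^ 2 ≤ (ENNReal.ofReal C *
        ∫⁻ w, ENNReal.ofReal (gamN N ((2:ℝ) ^ (-a)) (z - w)) * ‖g w‖ₑ) ^ 2 := by gcongr
    _ = ENNReal.ofReal C ^ 2 *
        (∫⁻ w, ENNReal.ofReal (gamN N ((2:ℝ) ^ (-a)) (z - w)) * ‖g w‖ₑ) ^ 2 := mul_pow _ _ _
    _ ≤ ENNReal.ofReal C ^ 2 * ((∫⁻ w, ENNReal.ofReal (gamN N ((2:ℝ) ^ (-a)) (z - w))) *
        ∫⁻ w, ENNReal.ofReal (gamN N ((2:ℝ) ^ (-a)) (z - w)) * ‖g w‖ₑ ^ 2) := by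
        gcongr
        exact cs _ _ hk hg.meas.enorm
    _ ≤ ENNReal.ofReal C ^ 2 * (ENNReal.ofReal C1 *
        ∫⁻ w, ENNReal.ofReal (gamN N ((2:ℝ) ^ (-a)) (z - w)) * ‖g w‖ₑ ^ 2) := by
        gcongr
        exact hm _ (by positivity) z
    _ = _ := by rw [gN, mul_assoc]

theorem gN_gN {N : ℕ} {C : ℝ} (hC : 0 < C)
    (hc : ∀ a b : ℝ, 0 < a → a ≤ b → ∀ z v : ℂ,
      ∫⁻ w, ENNReal.ofReal (gamN N a (z - w)) * ENNReal.ofReal (gamN N b (w - v)) ≤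
      ENNReal.ofReal (C * gamN N b (z - v)))
    (ρ : ℝ) (hρ : 0 < ρ) {h : ℂ → ℝ≥0∞} (hh : Measurable h) (z : ℂ) :
    gN N ρ (gN N ρ h) z ≤ ENNReal.ofReal C * gN N ρ h z := by
  have hk : ∀ z : ℂ, Measurable fun w => ENNReal.ofReal (gamN N ρ (z - w)) := fun z =>
    ((measurable_gamN N ρ).comp (measurable_const.sub measurable_id)).ennreal_ofReal
  have hk' : ∀ z : ℂ, Measurable fun w => ENNReal.ofReal (gamN N ρ (w - z)) := fun z =>
    ((measurable_gamN N ρ).comp (measurable_id.sub measurable_const)).ennreal_ofReal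
  have hkh : ∀ z : ℂ, Measurable fun w => ENNReal.ofReal (gamN N ρ (z - w)) * h w := fun z =>
    (hk z).mul hh
  have hkk : ∀ z v : ℂ, Measurable fun w => ENNReal.ofReal (gamN N ρ (z - w)) *
      ENNReal.ofReal (gamN N ρ (w - v)) := fun z v => (hk z).mul (hk' v)
  calc gN N ρ (gN N ρ h) z
      = ∫⁻ w, ∫⁻ v, ENNReal.ofReal (gamN N ρ (z - w)) *
          (ENNReal.ofReal (gamN N ρ (w - v)) * h v) := by
        unfold gN
        refine lintegral_congr fun w => ?_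
        rw [lintegral_const_mul _ (hkh w)]
    _ = ∫⁻ v, ∫⁻ w, ENNReal.ofReal (gamN N ρ (z - w)) *
          (ENNReal.ofReal (gamN N ρ (w - v)) * h v) := by
        apply lintegral_lintegral_swap
        apply Measurable.aemeasurable
        exact ((hk z).comp measurable_fst).mul
          ((((measurable_gamN N ρ).comp (measurable_fst.sub measurable_snd)).ennreal_ofReal).mul
            (hh.comp measurable_snd))
    _ = ∫⁻ v, (∫⁻ w, ENNReal.ofReal (gamN N ρ (z - w)) *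
          ENNReal.ofReal (gamN N ρ (w - v))) * h v := by
        refine lintegral_congr fun v => ?_
        rw [← lintegral_mul_const _ (hkk z v)]
        refine lintegral_congr fun w => ?_
        ring
    _ ≤ ∫⁻ v, ENNReal.ofReal (C * gamN N ρ (z - v)) * h v := by
        refine lintegral_mono fun v => ?_
        gcongr
        exact hc ρ ρ hρ le_rfl z v
    _ = ∫⁻ v, ENNReal.ofReal C * (ENNReal.ofReal (gamN N ρ (z - v)) * h v) := by
        refine lintegral_congr fun v => ?_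
        rw [ENNReal.ofReal_mul hC.le, mul_assoc]
    _ = _ := lintegral_const_mul' _ _ ENNReal.ofReal_ne_top

theorem gamN_half (N : ℕ) (ρ : ℝ) (hρ : 0 < ρ) (z : ℂ) :
    gamN N ρ z ≤ 4 ^ N * gamN N (ρ / 2) z := by
  unfold gamN
  have e1 : ‖z‖ ^ 2 / (ρ / 2) ^ 2 = 4 * (‖z‖ ^ 2 / ρ ^ 2) := by
    field_simp
    ring
  have e2 : ((ρ / 2) ^ 2)⁻¹ = 4 * (ρ ^ 2)⁻¹ := by
    field_simp
    ring
  rw [e1, e2]
  set x : ℝ := ‖z‖ ^ 2 / ρ ^ 2 with hx
  have hx0 : 0 ≤ x := by positivity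
  have h1 : (1 + 4 * x) ^ N ≤ 4 ^ N * (1 + x) ^ N := by
    rw [← mul_pow]
    exact pow_le_pow_left₀ (by positivity) (by linarith) N
  have h2 : ((1 + x) ^ N)⁻¹ ≤ 4 ^ N * ((1 + 4 * x) ^ N)⁻¹ := by
    rw [← div_eq_mul_inv, inv_eq_one_div, div_le_div_iff₀ (by positivity) (by positivity), one_mul]
    exact h1
  have h3 : 0 ≤ (ρ ^ 2)⁻¹ := by positivity
  have h4 : 0 ≤ 4 ^ N * ((1 + 4 * x) ^ N)⁻¹ := by positivity
  calc (ρ ^ 2)⁻¹ * ((1 + x) ^ N)⁻¹ ≤ (ρ ^ 2)⁻¹ * (4 ^ N * ((1 + 4 * x) ^ N)⁻¹) := by gcongr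
    _ ≤ 4 * ((ρ ^ 2)⁻¹ * (4 ^ N * ((1 + 4 * x) ^ N)⁻¹)) := by nlinarith [mul_nonneg h3 h4]
    _ = _ := by ring

theorem gN_half (N : ℕ) (ρ : ℝ) (hρ : 0 < ρ) (h : ℂ → ℝ≥0∞) (z : ℂ) :
    gN N ρ h z ≤ ENNReal.ofReal (4 ^ N) * gN N (ρ / 2) h z := by
  unfold gN
  rw [← lintegral_const_mul' _ _ ENNReal.ofReal_ne_top]
  refine lintegral_mono fun w => ?_
  rw [← mul_assoc]
  gcongr
  rw [← ENNReal.ofReal_mul (by positivity)]
  exact ENNReal.ofReal_le_ofReal (gamN_half N ρ hρ _)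

theorem gN_const_mul (N : ℕ) (ρ : ℝ) (c : ℝ≥0∞) (hc : c ≠ ∞) (h : ℂ → ℝ≥0∞) (z : ℂ) :
    gN N ρ (fun w => c * h w) z = c * gN N ρ h z := by
  unfold gN
  rw [← lintegral_const_mul' _ _ hc]
  refine lintegral_congr fun w => ?_
  ring

theorem gN_mono (N : ℕ) (ρ : ℝ) {h h' : ℂ → ℝ≥0∞} (hle : ∀ w, h w ≤ h' w) (z : ℂ) :
    gN N ρ h z ≤ gN N ρ h' z := by
  unfold gN
  refine lintegral_mono fun w => ?_
  gcongr
  exact hle w

theorem gN_add (N : ℕ) (ρ : ℝ) {h h' : ℂ → ℝ≥0∞} (hh : Measurable h) (z : ℂ) :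
    gN N ρ (fun w => h w + h' w) z = gN N ρ h z + gN N ρ h' z := by
  unfold gN
  rw [← lintegral_add_left]
  · refine lintegral_congr fun w => ?_
    rw [mul_add]
  · exact (((measurable_gamN N ρ).comp (measurable_const.sub measurable_id)).ennreal_ofReal).mul hh

theorem L_sq_le (N : ℕ) (hN : 5 < N) : ∃ C2 : ℝ≥0∞, C2 ≠ ∞ ∧ ∀ (n m0 : ℕ) (A : Finset ℤ)
    (f : ℂ → ℂ), Nice f → ∀ (j : ℤ) (z : ℂ),
    gN N ((2:ℝ) ^ ((m0:ℤ) - j)) (fun w => ‖gW n (A.filter (fun i => i < j - m0)) f w‖ₑ ^ 2) z ≤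
      C2 * ((gc ((2:ℝ) ^ ((m0:ℤ) - j)) (fun w => ‖gW n A f w‖ₑ) z) ^ 2 + bj N n (j - m0) f z +
        bj N n (j - m0 + 1) f z) := by
  obtain ⟨C0, hC0, hb0⟩ := kap_bound
  obtain ⟨C, hC, hb⟩ := kap_decay N
  obtain ⟨C1, hC1, hm⟩ := gamN_mass N (by omega)
  obtain ⟨C3, hC3, hc⟩ := gamN_conv N (by omega)
  obtain ⟨C4, hC4, ha⟩ := gamN_avg_pow N 2 (by norm_num) (by
    have : (5:ℝ) < N := by exact_mod_cast hN
    linarith)
  set K : ℝ≥0∞ := ENNReal.ofReal C ^ 2 * ENNReal.ofReal C1 with hK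
  have hKtop : K ≠ ∞ := by finiteness
  set K0 : ℝ≥0∞ := ENNReal.ofReal C0 ^ 2 * ENNReal.ofReal C4 with hK0
  have hK0top : K0 ≠ ∞ := by finiteness
  set K1 : ℝ≥0∞ := K * ENNReal.ofReal C3 with hK1
  have hK1top : K1 ≠ ∞ := by finiteness
  set K2 : ℝ≥0∞ := K1 * ENNReal.ofReal (4 ^ N) with hK2
  have hK2top : K2 ≠ ∞ := by finiteness
  refine ⟨9 * (K0 + K1 + K2), by finiteness, ?_⟩
  intro n m0 A f hf j z
  set a : ℤ := j - m0 with haj
  have hρ : (2:ℝ) ^ ((m0:ℤ) - j) = (2:ℝ) ^ (-a) := by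
    rw [haj, neg_sub]
  rw [hρ]
  set ρ : ℝ := (2:ℝ) ^ (-a) with hρdef
  have hρ0 : 0 < ρ := by positivity
  have hgA := nice_gW n A hf
  have hga := nice_gj n a hf
  have hga1 := nice_gj n (a + 1) hf
  set H : ℂ → ℝ≥0∞ := fun w => ‖gW n A f w‖ₑ with hH
  have hHm : Measurable H := hgA.meas.enorm
  set Ga : ℂ → ℝ≥0∞ := fun w => ‖gj n a f w‖ₑ ^ 2 with hGa
  have hGam : Measurable Ga := hga.meas.enorm.pow_const 2
  set Gb : ℂ → ℝ≥0∞ := fun w => ‖gj n (a + 1) f w‖ₑ ^ 2 with hGb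
  have hGbm : Measurable Gb := hga1.meas.enorm.pow_const 2
  have hpt : ∀ w, ‖gW n (A.filter (fun i => i < a)) f w‖ₑ ^ 2 ≤
      9 * ((ENNReal.ofReal C0 ^ 2 * (gc ρ H w) ^ 2 + K * gN N ρ Ga w) + K * gN N ρ Gb w) := by
    intro w
    have h1 : ‖gW n (A.filter (fun i => i < a)) f w‖ₑ ≤ ‖cv (kap a) (gW n A f) w‖ₑ +
        ‖cv (kap a) (gj n a f) w‖ₑ + ‖cv (kap a) (gj n (a + 1) f) w‖ₑ := by
      rw [low_eq n A a hf w]
      refine (enorm_sub_le).trans ?_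
      gcongr
      · refine (enorm_sub_le).trans ?_
        gcongr
        split_ifs
        · exact le_rfl
        · simp
      · split_ifs
        · exact le_rfl
        · simp
    have h2 := pow_three_rpow ‖cv (kap a) (gW n A f) w‖ₑ ‖cv (kap a) (gj n a f) w‖ₑ
      ‖cv (kap a) (gj n (a + 1) f) w‖ₑ 2 (by norm_num)
    simp only [ENNReal.rpow_two] at h2
    have h3 : ‖cv (kap a) (gW n A f) w‖ₑ ^ 2 ≤ ENNReal.ofReal C0 ^ 2 * (gc ρ H w) ^ 2 := by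
      rw [← mul_pow]
      gcongr
      exact cv_kap_le hC0 hb0 a _ w
    have h4 : ‖cv (kap a) (gj n a f) w‖ₑ ^ 2 ≤ K * gN N ρ Ga w :=
      cv_kap_sq hC (fun i z => (hb i z 0).1) hm a _ hga w
    have h5 : ‖cv (kap a) (gj n (a + 1) f) w‖ₑ ^ 2 ≤ K * gN N ρ Gb w :=
      cv_kap_sq hC (fun i z => (hb i z 0).1) hm a _ hga1 w
    calc ‖gW n (A.filter (fun i => i < a)) f w‖ₑ ^ 2
        ≤ (‖cv (kap a) (gW n A f) w‖ₑ + ‖cv (kap a) (gj n a f) w‖ₑ +
          ‖cv (kap a) (gj n (a + 1) f) w‖ₑ) ^ 2 := by gcongr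
      _ ≤ 3 ^ 2 * (‖cv (kap a) (gW n A f) w‖ₑ ^ 2 + ‖cv (kap a) (gj n a f) w‖ₑ ^ 2 +
          ‖cv (kap a) (gj n (a + 1) f) w‖ₑ ^ 2) := h2
      _ ≤ 3 ^ 2 * ((ENNReal.ofReal C0 ^ 2 * (gc ρ H w) ^ 2 + K * gN N ρ Ga w) +
          K * gN N ρ Gb w) := by gcongr
      _ = _ := by norm_num
  have hb1 : bj N n a f z = gN N ρ Ga z := rfl
  have hb2 : gN N ρ Gb z ≤ ENNReal.ofReal (4 ^ N) * bj N n (a + 1) f z := by
    have e : (2:ℝ) ^ (-(a + 1)) = ρ / 2 := by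
      rw [hρdef, neg_add, zpow_add₀ (by norm_num), div_eq_mul_inv]
      norm_num
    have h1 : bj N n (a + 1) f z = gN N (ρ / 2) Gb z := by
      rw [← e]; rfl
    rw [h1]
    exact gN_half N ρ hρ0 Gb z
  have t1 : gN N ρ (fun w => (gc ρ H w) ^ 2) z ≤ ENNReal.ofReal C4 * (gc ρ H z) ^ 2 := by
    have := ha ρ ρ hρ0 le_rfl H hHm z
    simp only [ENNReal.rpow_two] at this
    exact this
  have m1 : Measurable fun w => ENNReal.ofReal C0 ^ 2 * (gc ρ H w) ^ 2 :=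
    ((measurable_gc ρ hHm).pow_const 2).const_mul _
  have m2 : Measurable fun w => K * gN N ρ Ga w := (measurable_gN N ρ hGam).const_mul _
  have m12 : Measurable fun w => ENNReal.ofReal C0 ^ 2 * (gc ρ H w) ^ 2 + K * gN N ρ Ga w :=
    m1.add m2
  calc gN N ρ (fun w => ‖gW n (A.filter (fun i => i < a)) f w‖ₑ ^ 2) z
      ≤ gN N ρ (fun w => 9 * ((ENNReal.ofReal C0 ^ 2 * (gc ρ H w) ^ 2 + K * gN N ρ Ga w) +
          K * gN N ρ Gb w)) z := gN_mono N ρ hpt z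
    _ = 9 * ((ENNReal.ofReal C0 ^ 2 * gN N ρ (fun w => (gc ρ H w) ^ 2) z +
          K * gN N ρ (gN N ρ Ga) z) + K * gN N ρ (gN N ρ Gb) z) := by
        rw [gN_const_mul N ρ 9 (by norm_num), gN_add N ρ m12, gN_add N ρ m1,
          gN_const_mul N ρ _ (by finiteness), gN_const_mul N ρ K hKtop, gN_const_mul N ρ K hKtop]
    _ ≤ 9 * ((ENNReal.ofReal C0 ^ 2 * (ENNReal.ofReal C4 * (gc ρ H z) ^ 2) +
          K * (ENNReal.ofReal C3 * gN N ρ Ga z)) + K * (ENNReal.ofReal C3 *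
          (ENNReal.ofReal (4 ^ N) * bj N n (a + 1) f z))) := by
        gcongr
        · exact gN_gN hC3 hc ρ hρ0 hGam z
        · refine (gN_gN hC3 hc ρ hρ0 hGbm z).trans ?_
          gcongr
    _ = 9 * (K0 * (gc ρ H z) ^ 2 + K1 * bj N n a f z + K2 * bj N n (a + 1) f z) := by
        rw [hK0, hK2, hK1, hb1]
        ring
    _ ≤ 9 * ((K0 + K1 + K2) * (gc ρ H z) ^ 2 + (K0 + K1 + K2) * bj N n a f z +
          (K0 + K1 + K2) * bj N n (a + 1) f z) := by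
        gcongr
        · rw [add_assoc]; exact le_self_add
        · rw [add_comm K0 K1, add_assoc]; exact le_self_add
        · exact le_add_self
    _ = _ := by ring

end R7

open R7 in
theorem far_real (p : ℝ) (hp : 2 < p) (N : ℕ) (hN : 2 * p + 1 < N) : ∃ C : ℝ, 0 < C ∧ ∀ n : ℕ, 1 ≤ n →
    ∀ m0 : ℕ, n ≤ 2 ^ m0 → (2:ℝ) ^ m0 ≤ 2 * n → ∀ A : Finset ℤ, ∀ f : ℂ → ℂ, Nice f →
    ∑ j ∈ A, ∫⁻ z, (Lj N n m0 A j f z) ^ (p - 2) * bj N n j f z
      ≤ ENNReal.ofReal C * (nrp p (gW n A f)) ^ (1 - 2 / p) * (nrp p f) ^ (2 / p)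
        + ENNReal.ofReal (C * (n:ℝ) ^ (p - 2) * (2:ℝ) ^ (-(2 * m0 * (1 - 2 / p)))) * nrp p f := by
  have hN5 : 5 < N := by
    have : (5:ℝ) < N := by linarith
    exact_mod_cast this
  obtain ⟨C2, hC2, hL⟩ := L_sq_le N hN5
  obtain ⟨CM', hM⟩ := maximal_real p hp.le
  obtain ⟨CS, hS⟩ := square_fun_real p hp.le
  obtain ⟨C4, hC4, ha⟩ := gamN_avg_pow N (p - 2) (by linarith) (by linarith)
  obtain ⟨CN, hCN, hnear⟩ := near_real N (by omega) p hp
  obtain ⟨CR, hCR, hrev⟩ := near_rev N (by omega) p hp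
  set r : ℝ := p - 2 with hr
  have hr0 : 0 < r := by linarith
  have hp0 : 0 < p := by linarith
  have h2p : 0 ≤ 1 - 2 / p := by
    rw [sub_nonneg, div_le_one hp0]; exact hp.le
  have h2p' : 0 ≤ 2 / p := by positivity
  set K : ℝ≥0∞ := C2 ^ (r / 2) * 3 ^ (r / 2) with hK
  have hKtop : K ≠ ∞ := ENNReal.mul_ne_top (ENNReal.rpow_ne_top_of_nonneg (by positivity) hC2)
    (ENNReal.rpow_ne_top_of_nonneg (by positivity) (by norm_num))
  set E : ℝ≥0∞ := ENNReal.ofReal C4 * (25 ^ r * ((CM' : ℝ≥0∞) ^ (1 - 2 / p) *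
    (CS : ℝ≥0∞) ^ (2 / p))) with hE
  have hEtop : E ≠ ∞ := by
    refine ENNReal.mul_ne_top ENNReal.ofReal_ne_top (ENNReal.mul_ne_top
      (ENNReal.rpow_ne_top_of_nonneg hr0.le (by norm_num)) (ENNReal.mul_ne_top ?_ ?_))
    · exact ENNReal.rpow_ne_top_of_nonneg h2p ENNReal.coe_ne_top
    · exact ENNReal.rpow_ne_top_of_nonneg h2p' ENNReal.coe_ne_top
  set D : ℝ := (K * E).toReal + K.toReal * (CN + (CR + 4 * CN)) with hD
  refine ⟨D + 1, by positivity, ?_⟩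
  intro n hn m0 hnm hmn A f hf
  have hn0 : (0:ℝ) < n := by exact_mod_cast hn
  have hg := nice_gW n A hf
  set B : ℝ := (n:ℝ) ^ r * (2:ℝ) ^ (-(2 * m0 * (1 - 2 / p))) with hB
  have hB0 : 0 ≤ B := by positivity
  -- measurability of bj
  have hbm : ∀ i : ℤ, Measurable (bj N n i f) := fun i =>
    measurable_gN N _ ((nice_gj n i hf).meas.enorm.pow_const 2)
  -- pointwise
  have hpt : ∀ (j : ℤ) (z : ℂ), (Lj N n m0 A j f z) ^ r ≤
      K * ((gc ((2:ℝ) ^ ((m0:ℤ) - j)) (fun w => ‖gW n A f w‖ₑ) z) ^ r +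
        (bj N n (j - m0) f z) ^ (p / 2 - 1) + (bj N n (j - m0 + 1) f z) ^ (p / 2 - 1)) := by
    intro j z
    have e1 : (Lj N n m0 A j f z) ^ r = (gN N ((2:ℝ) ^ ((m0:ℤ) - j))
        (fun w => ‖gW n (A.filter (fun i => i < j - m0)) f w‖ₑ ^ 2) z) ^ (r / 2) := by
      unfold Lj gN
      rw [← ENNReal.rpow_mul]
      congr 1
      ring
    rw [e1]
    calc (gN N ((2:ℝ) ^ ((m0:ℤ) - j))
          (fun w => ‖gW n (A.filter (fun i => i < j - m0)) f w‖ₑ ^ 2) z) ^ (r / 2)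
        ≤ (C2 * ((gc ((2:ℝ) ^ ((m0:ℤ) - j)) (fun w => ‖gW n A f w‖ₑ) z) ^ 2 +
            bj N n (j - m0) f z + bj N n (j - m0 + 1) f z)) ^ (r / 2) :=
          ENNReal.rpow_le_rpow (hL n m0 A f hf j z) (by positivity)
      _ = C2 ^ (r / 2) * ((gc ((2:ℝ) ^ ((m0:ℤ) - j)) (fun w => ‖gW n A f w‖ₑ) z) ^ 2 +
            bj N n (j - m0) f z + bj N n (j - m0 + 1) f z) ^ (r / 2) :=
          ENNReal.mul_rpow_of_nonneg _ _ (by positivity)
      _ ≤ C2 ^ (r / 2) * (3 ^ (r / 2) *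
            (((gc ((2:ℝ) ^ ((m0:ℤ) - j)) (fun w => ‖gW n A f w‖ₑ) z) ^ 2) ^ (r / 2) +
            (bj N n (j - m0) f z) ^ (r / 2) + (bj N n (j - m0 + 1) f z) ^ (r / 2))) := by
          gcongr
          exact pow_three_rpow _ _ _ _ (by positivity)
      _ = _ := by
          rw [hK, mul_assoc, ← ENNReal.rpow_two, ← ENNReal.rpow_mul]
          have e2 : (2:ℝ) * (r / 2) = r := by ring
          have e3 : r / 2 = p / 2 - 1 := by rw [hr]; ring
          rw [e2, e3]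
  -- the three sums
  have s1 : ∑ j ∈ A, ∫⁻ z, (gc ((2:ℝ) ^ ((m0:ℤ) - j)) (fun w => ‖gW n A f w‖ₑ) z) ^ r *
      bj N n j f z ≤ E * ((nrp p (gW n A f)) ^ (1 - 2 / p) * (nrp p f) ^ (2 / p)) := by
    have h1 : ∀ j ∈ A, ∫⁻ z, (gc ((2:ℝ) ^ ((m0:ℤ) - j)) (fun w => ‖gW n A f w‖ₑ) z) ^ r *
        bj N n j f z ≤ ENNReal.ofReal C4 * ∫⁻ z, ‖gj n j f z‖ₑ ^ 2 *
          (gc ((2:ℝ) ^ ((m0:ℤ) - j)) (fun w => ‖gW n A f w‖ₑ) z) ^ r := by
      intro j _
      have hGm : Measurable fun w => ‖gj n j f w‖ₑ ^ 2 := (nice_gj n j hf).meas.enorm.pow_const 2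
      have hgcm := (measurable_gc ((2:ℝ) ^ ((m0:ℤ) - j)) hg.meas.enorm).pow_const r
      have e1 := gN_symm N ((2:ℝ) ^ (-j)) hGm hgcm
      have e2 : ∫⁻ z, (gc ((2:ℝ) ^ ((m0:ℤ) - j)) (fun w => ‖gW n A f w‖ₑ) z) ^ r *
          bj N n j f z = ∫⁻ z, ‖gj n j f z‖ₑ ^ 2 * gN N ((2:ℝ) ^ (-j))
            (fun z => (gc ((2:ℝ) ^ ((m0:ℤ) - j)) (fun w => ‖gW n A f w‖ₑ) z) ^ r) z := e1
      rw [e2, ← lintegral_const_mul' _ _ ENNReal.ofReal_ne_top]
      refine lintegral_mono fun z => ?_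
      have h2 := ha ((2:ℝ) ^ (-j)) ((2:ℝ) ^ ((m0:ℤ) - j)) (by positivity)
        (zpow_le_zpow_right₀ (by norm_num) (by omega)) (fun w => ‖gW n A f w‖ₑ)
        hg.meas.enorm z
      calc ‖gj n j f z‖ₑ ^ 2 * gN N ((2:ℝ) ^ (-j))
            (fun z => (gc ((2:ℝ) ^ ((m0:ℤ) - j)) (fun w => ‖gW n A f w‖ₑ) z) ^ r) z
          ≤ ‖gj n j f z‖ₑ ^ 2 * (ENNReal.ofReal C4 *
              (gc ((2:ℝ) ^ ((m0:ℤ) - j)) (fun w => ‖gW n A f w‖ₑ) z) ^ r) := by
            gcongr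
            exact h2
        _ = _ := by ring
    calc _ ≤ ∑ j ∈ A, ENNReal.ofReal C4 * ∫⁻ z, ‖gj n j f z‖ₑ ^ 2 *
          (gc ((2:ℝ) ^ ((m0:ℤ) - j)) (fun w => ‖gW n A f w‖ₑ) z) ^ r := Finset.sum_le_sum h1
      _ = ENNReal.ofReal C4 * ∑ j ∈ A, ∫⁻ z, ‖gj n j f z‖ₑ ^ 2 *
          (gc ((2:ℝ) ^ ((m0:ℤ) - j)) (fun w => ‖gW n A f w‖ₑ) z) ^ r := by
          rw [Finset.mul_sum]
      _ ≤ ENNReal.ofReal C4 * (25 ^ r * ((CM' : ℝ≥0∞) ^ (1 - 2 / p) * (CS : ℝ≥0∞) ^ (2 / p)) *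
          ((nrp p (gW n A f)) ^ (1 - 2 / p) * (nrp p f) ^ (2 / p))) := by
          gcongr
          exact main_term p hp CM' CS hM n m0 A f hf (hS n hn m0 hnm A f hf) _ hg
      _ = _ := by rw [hE]; ring
  have s2 : ∑ j ∈ A, ∫⁻ z, (bj N n (j - m0) f z) ^ (p / 2 - 1) * bj N n j f z ≤
      ENNReal.ofReal (CN * B) * nrp p f := by
    refine (hnear n hn m0 hmn A f hf).trans (le_of_eq ?_)
    rw [hB, mul_assoc]
  have s3 : ∑ j ∈ A, ∫⁻ z, (bj N n (j - m0 + 1) f z) ^ (p / 2 - 1) * bj N n j f z ≤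
      ENNReal.ofReal ((CR + 4 * CN) * B) * nrp p f := by
    rcases Nat.eq_zero_or_pos m0 with h0 | h0
    · subst h0
      have h1 := hrev n hn 1 A f hf
      have e1 : ∀ j : ℤ, j - ((0:ℕ):ℤ) + 1 = j + 1 := fun j => by simp
      simp_rw [e1]
      refine h1.trans (mul_le_mul' (ENNReal.ofReal_le_ofReal ?_) le_rfl)
      have e2 : B = (n:ℝ) ^ r := by
        rw [hB]
        simp
      rw [e2]
      have : 0 ≤ (n:ℝ) ^ r := by positivity
      nlinarith [mul_nonneg hCN.le this]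
    · obtain ⟨m, rfl⟩ : ∃ m, m0 = m + 1 := ⟨m0 - 1, by omega⟩
      have h1 := hnear n hn m (by
        refine le_trans ?_ hmn
        exact pow_le_pow_right₀ (by norm_num) (by omega)) A f hf
      have e1 : ∀ j : ℤ, j - ((m + 1 : ℕ):ℤ) + 1 = j - m := fun j => by push_cast; ring
      simp_rw [e1]
      refine h1.trans (mul_le_mul' (ENNReal.ofReal_le_ofReal ?_) le_rfl)
      have e2 : (2:ℝ) ^ (-(2 * (m:ℝ) * (1 - 2 / p))) ≤
          4 * (2:ℝ) ^ (-(2 * ((m + 1 : ℕ):ℝ) * (1 - 2 / p))) := by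
        have e3 : -(2 * (m:ℝ) * (1 - 2 / p)) =
            -(2 * ((m + 1 : ℕ):ℝ) * (1 - 2 / p)) + 2 * (1 - 2 / p) := by
          push_cast
          ring
        rw [e3, Real.rpow_add (by norm_num), mul_comm]
        gcongr
        calc (2:ℝ) ^ (2 * (1 - 2 / p)) ≤ (2:ℝ) ^ (2:ℝ) := by
              apply Real.rpow_le_rpow_of_exponent_le (by norm_num)
              linarith
          _ = 4 := by norm_num
      have e4 : 0 ≤ CN * (n:ℝ) ^ r := by positivity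
      calc CN * (n:ℝ) ^ r * (2:ℝ) ^ (-(2 * (m:ℝ) * (1 - 2 / p)))
          ≤ CN * (n:ℝ) ^ r * (4 * (2:ℝ) ^ (-(2 * ((m + 1 : ℕ):ℝ) * (1 - 2 / p)))) := by gcongr
        _ = 4 * CN * B := by rw [hB]; ring
        _ ≤ _ := by nlinarith [mul_nonneg hCR.le hB0]
  have hsum : ∑ j ∈ A, ∫⁻ z, (Lj N n m0 A j f z) ^ r * bj N n j f z ≤
      K * ((∑ j ∈ A, ∫⁻ z, (gc ((2:ℝ) ^ ((m0:ℤ) - j)) (fun w => ‖gW n A f w‖ₑ) z) ^ r *
        bj N n j f z) + (∑ j ∈ A, ∫⁻ z, (bj N n (j - m0) f z) ^ (p / 2 - 1) * bj N n j f z) +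
        (∑ j ∈ A, ∫⁻ z, (bj N n (j - m0 + 1) f z) ^ (p / 2 - 1) * bj N n j f z)) := by
    rw [← Finset.sum_add_distrib, ← Finset.sum_add_distrib, Finset.mul_sum]
    refine Finset.sum_le_sum fun j _ => ?_
    have m1 : Measurable fun z => (gc ((2:ℝ) ^ ((m0:ℤ) - j)) (fun w => ‖gW n A f w‖ₑ) z) ^ r *
        bj N n j f z := ((measurable_gc _ hg.meas.enorm).pow_const r).mul (hbm j)
    have m2 : Measurable fun z => (bj N n (j - m0) f z) ^ (p / 2 - 1) * bj N n j f z :=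
      ((hbm _).pow_const _).mul (hbm j)
    have m12 : Measurable fun z => (gc ((2:ℝ) ^ ((m0:ℤ) - j)) (fun w => ‖gW n A f w‖ₑ) z) ^ r *
        bj N n j f z + (bj N n (j - m0) f z) ^ (p / 2 - 1) * bj N n j f z := m1.add m2
    rw [← lintegral_add_left m1, ← lintegral_add_left m12, ← lintegral_const_mul' _ _ hKtop]
    refine lintegral_mono fun z => ?_
    rw [← add_mul, ← add_mul, ← mul_assoc]
    gcongr
    exact hpt j z
  have hD1 : K * E ≤ ENNReal.ofReal (D + 1) := by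
    rw [← ENNReal.ofReal_toReal (ENNReal.mul_ne_top hKtop hEtop)]
    apply ENNReal.ofReal_le_ofReal
    rw [hD]
    have : 0 ≤ K.toReal * (CN + (CR + 4 * CN)) := by positivity
    linarith
  have hD2 : K * (ENNReal.ofReal (CN * B) + ENNReal.ofReal ((CR + 4 * CN) * B)) ≤
      ENNReal.ofReal ((D + 1) * (n:ℝ) ^ r * (2:ℝ) ^ (-(2 * m0 * (1 - 2 / p)))) := by
    have e1 : (D + 1) * (n:ℝ) ^ r * (2:ℝ) ^ (-(2 * m0 * (1 - 2 / p))) = (D + 1) * B := by
      rw [hB, mul_assoc]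
    rw [e1, ← ENNReal.ofReal_add (by positivity) (by positivity)]
    nth_rewrite 1 [← ENNReal.ofReal_toReal hKtop]
    rw [← ENNReal.ofReal_mul ENNReal.toReal_nonneg]
    apply ENNReal.ofReal_le_ofReal
    have h1 : 0 ≤ (K * E).toReal * B := by positivity
    rw [hD]
    nlinarith
  calc ∑ j ∈ A, ∫⁻ z, (Lj N n m0 A j f z) ^ r * bj N n j f z
      ≤ K * (E * ((nrp p (gW n A f)) ^ (1 - 2 / p) * (nrp p f) ^ (2 / p)) +
          ENNReal.ofReal (CN * B) * nrp p f + ENNReal.ofReal ((CR + 4 * CN) * B) * nrp p f) := by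
        refine hsum.trans ?_
        gcongr
    _ = K * E * ((nrp p (gW n A f)) ^ (1 - 2 / p) * (nrp p f) ^ (2 / p)) +
        K * (ENNReal.ofReal (CN * B) + ENNReal.ofReal ((CR + 4 * CN) * B)) * nrp p f := by ring
    _ ≤ ENNReal.ofReal (D + 1) * ((nrp p (gW n A f)) ^ (1 - 2 / p) * (nrp p f) ^ (2 / p)) +
        ENNReal.ofReal ((D + 1) * (n:ℝ) ^ r * (2:ℝ) ^ (-(2 * m0 * (1 - 2 / p)))) * nrp p f := by
        gcongr
    _ = _ := by rw [← mul_assoc]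

end Helper85.BP.P
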