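import Pool.Agent.Helper55.TM.Links

/-!
# MP_fc8395_an, module SC : slopes along the orbit (helper14)
-/

set_option autoImplicit false

open scoped ContDiff Topology
open Filter Set

namespace TM

namespace SC

lemma tele {a : ℕ → ℝ} {A r : ℝ} (hA : 0 ≤ A) (h0 : 0 ≤ r) (h1 : r < 1) {J : ℕ}
    (h : ∀ j < J, |a (j + 1) - a j| ≤ A * r ^ j) : ∀ j ≤ J, |a j - a 0| ≤ A / (1 - r) := by
  have hr : 0 < 1 - r := sub_pos.2 h1
  have key : ∀ j ≤ J, |a j - a 0| ≤ A / (1 - r) * (1 - r ^ j) := by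
    intro j
    induction j with
    | zero => intro _; simp
    | succ j ih =>
      intro hj
      have h2 := ih (by omega)
      have h3 := h j (by omega)
      have e1 : a (j + 1) - a 0 = (a (j + 1) - a j) + (a j - a 0) := by ring
      have h4 : A * r ^ j + A / (1 - r) * (1 - r ^ j) = A / (1 - r) * (1 - r ^ (j + 1)) := by
        field_simp
        ring
      rw [e1]
      refine (abs_add_le _ _).trans ?_
      linarith
  intro j hj
  refine (key j hj).trans ?_
  have h5 : 0 ≤ A / (1 - r) := div_nonneg hA hr.le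
  have h6 : 0 ≤ r ^ j := pow_nonneg h0 j
  nlinarith

/-- telescoping of the link estimates along a chain of functions with geometrically growing
derivatives -/
lemma chain_sum {C c R g0 : ℝ} (hC : 0 ≤ C) (hc : 0 < c) (hR : 1 < R) (hg0 : 0 < g0) :
    ∃ C1 : ℝ, 0 ≤ C1 ∧ ∀ (f : ℕ → ℝ × ℝ → ℝ) (q : ℝ × ℝ) (J : ℕ),
      (∀ j < J, LinkB C (f j) (f (j + 1)) q) →
      (∀ j ≤ J, c * R ^ j * |dt (f 0) q| ≤ |dt (f j) q|) → g0 ≤ |dt (f 0) q| →
      ∀ j ≤ J, |slope (f j) q - slope (f 0) q| ≤ C1 / |dt (f 0) q| ^ 2 ∧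
        |dt (slope (f j)) q - dt (slope (f 0)) q| ≤ C1 / |dt (f 0) q| ∧
        |dz (slope (f j)) q - dz (slope (f 0)) q| ≤
          C1 * (1 + |slope (f 0) q| + |dt (slope (f 0)) q|) / |dt (f 0) q| := by
  set r : ℝ := 1 / R with hr
  have hR0 : 0 < R := by linarith
  have hr0 : 0 < r := by positivity
  have hr1 : r < 1 := by rw [hr, div_lt_one hR0]; exact hR
  have hr2 : 0 < 1 - r := by linarith
  set X : ℝ := C / c ^ 2 / (1 - r) with hX
  set Y : ℝ := 2 * C / c / (1 - r) with hY
  have hX0 : 0 ≤ X := by positivity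
  have hY0 : 0 ≤ Y := by positivity
  set Z : ℝ := 2 + 2 * (X / g0 ^ 2 + Y / g0) with hZ
  have hZ0 : 0 ≤ Z := by positivity
  set W : ℝ := 2 * C * Z / c / (1 - r) with hW
  have hW0 : 0 ≤ W := by positivity
  refine ⟨X + Y + W, by positivity, ?_⟩
  intro f q J hL hG hg
  set G : ℝ := |dt (f 0) q| with hGdef
  have hG0 : 0 < G := lt_of_lt_of_le hg0 hg
  have hrR : ∀ j : ℕ, r ^ j * R ^ j = 1 := by
    intro j
    rw [← mul_pow, hr, one_div, inv_mul_cancel₀ hR0.ne', one_pow]
  have hRj : ∀ j : ℕ, 1 ≤ R ^ j := fun j => one_le_pow₀ hR.le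
  -- lower bounds
  have hGj : ∀ j ≤ J, c * R ^ j * G ≤ |dt (f j) q| := hG
  have hGpos : ∀ j ≤ J, 0 < |dt (f j) q| := fun j hj =>
    lt_of_lt_of_le (by positivity) (hGj j hj)
  have hinv : ∀ j ≤ J, 1 / |dt (f j) q| ≤ r ^ j / (c * G) := by
    intro j hj
    rw [div_le_div_iff₀ (hGpos j hj) (by positivity), one_mul]
    calc c * G = r ^ j * (c * R ^ j * G) := by
          have := hrR j
          calc c * G = (r ^ j * R ^ j) * (c * G) := by rw [this, one_mul]
            _ = _ := by ring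
      _ ≤ r ^ j * |dt (f j) q| := by gcongr; exact hGj j hj
  have hinv' : ∀ j < J, 1 / |dt (f j) q| + 1 / |dt (f (j + 1)) q| ≤ 2 / (c * G) * r ^ j := by
    intro j hj
    have h1 := hinv j hj.le
    have h2 := hinv (j + 1) hj
    have h3 : r ^ (j + 1) / (c * G) ≤ r ^ j / (c * G) := by
      refine div_le_div_of_nonneg_right ?_ (by positivity)
      rw [pow_succ]
      exact mul_le_of_le_one_right (pow_nonneg hr0.le j) hr1.le
    have h4 : 2 / (c * G) * r ^ j = r ^ j / (c * G) + r ^ j / (c * G) := by ring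
    linarith
  -- slopes
  have ha : ∀ j ≤ J, |slope (f j) q - slope (f 0) q| ≤ X / G ^ 2 := by
    have h1 : ∀ j < J, |slope (f (j + 1)) q - slope (f j) q| ≤ C / (c ^ 2 * G ^ 2) * r ^ j := by
      intro j hj
      have h2 := (hL j hj).1
      have h3 := hGj j hj.le
      have h4 := hGj (j + 1) hj
      have h5 : c * G ≤ |dt (f (j + 1)) q| := by
        refine le_trans ?_ h4
        have := hRj (j + 1)
        nlinarith [mul_pos hc hG0]
      have h6 : c ^ 2 * G ^ 2 * R ^ j ≤ |dt (f j) q| * |dt (f (j + 1)) q| := by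
        calc c ^ 2 * G ^ 2 * R ^ j = (c * R ^ j * G) * (c * G) := by ring
          _ ≤ _ := by gcongr
      rw [abs_sub_comm]
      have h7 : |slope (f j) q - slope (f (j + 1)) q| * (c ^ 2 * G ^ 2 * R ^ j) ≤ C :=
        (mul_le_mul_of_nonneg_left h6 (abs_nonneg _)).trans h2
      have h8 : C / (c ^ 2 * G ^ 2) * r ^ j = C / (c ^ 2 * G ^ 2 * R ^ j) := by
        rw [hr, one_div, inv_pow]
        field_simp
      rw [h8, le_div_iff₀ (by positivity)]
      exact h7
    intro j hj
    refine (tele (a := fun j => slope (f j) q) (by positivity) hr0.le hr1 h1 j hj).trans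
      (le_of_eq ?_)
    rw [hX]
    field_simp
  have hb : ∀ j ≤ J, |dt (slope (f j)) q - dt (slope (f 0)) q| ≤ Y / G := by
    have h1 : ∀ j < J, |dt (slope (f (j + 1))) q - dt (slope (f j)) q| ≤
        2 * C / (c * G) * r ^ j := by
      intro j hj
      have h2 := (hL j hj).2.1
      rw [abs_sub_comm]
      refine h2.trans ?_
      calc C * (1 / |dt (f j) q| + 1 / |dt (f (j + 1)) q|) ≤ C * (2 / (c * G) * r ^ j) := by
            gcongr; exact hinv' j hj
        _ = _ := by ring
    intro j hj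
    refine (tele (a := fun j => dt (slope (f j)) q) (by positivity) hr0.le hr1 h1 j hj).trans
      (le_of_eq ?_)
    rw [hY]
    field_simp
  -- bounds for the intermediate values
  set S : ℝ := 1 + |slope (f 0) q| + |dt (slope (f 0)) q| with hS
  have hS1 : 1 ≤ S := by
    have := abs_nonneg (slope (f 0) q)
    have := abs_nonneg (dt (slope (f 0)) q)
    linarith
  have hsu : ∀ j ≤ J, |slope (f j) q| + |dt (slope (f j)) q| ≤
      |slope (f 0) q| + |dt (slope (f 0)) q| + (X / g0 ^ 2 + Y / g0) := by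
    intro j hj
    have h1 := ha j hj
    have h2 := hb j hj
    have h3 : X / G ^ 2 ≤ X / g0 ^ 2 := by gcongr
    have h4 : Y / G ≤ Y / g0 := by gcongr
    have h5 : |slope (f j) q| ≤ |slope (f j) q - slope (f 0) q| + |slope (f 0) q| := by
      have := abs_add_le (slope (f j) q - slope (f 0) q) (slope (f 0) q)
      rwa [sub_add_cancel] at this
    have h6 : |dt (slope (f j)) q| ≤ |dt (slope (f j)) q - dt (slope (f 0)) q| +
        |dt (slope (f 0)) q| := by
      have := abs_add_le (dt (slope (f j)) q - dt (slope (f 0)) q) (dt (slope (f 0)) q)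
      rwa [sub_add_cancel] at this
    linarith
  have hcc : ∀ j ≤ J, |dz (slope (f j)) q - dz (slope (f 0)) q| ≤ W * S / G := by
    have h1 : ∀ j < J, |dz (slope (f (j + 1))) q - dz (slope (f j)) q| ≤
        2 * C * Z * S / (c * G) * r ^ j := by
      intro j hj
      have h2 := (hL j hj).2.2
      rw [abs_sub_comm]
      refine h2.trans ?_
      have h3 := hsu j hj.le
      have h4 := hsu (j + 1) hj
      have h5 : 1 + |slope (f j) q| + |slope (f (j + 1)) q| + |dt (slope (f j)) q| +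
          |dt (slope (f (j + 1))) q| ≤ Z * S := by
        have h6 : 1 + |slope (f j) q| + |slope (f (j + 1)) q| + |dt (slope (f j)) q| +
            |dt (slope (f (j + 1))) q| ≤ 2 * S + 2 * (X / g0 ^ 2 + Y / g0) := by
          rw [hS]
          linarith
        have h7 : 0 ≤ X / g0 ^ 2 + Y / g0 := by positivity
        rw [hZ]
        nlinarith
      calc C * (1 + |slope (f j) q| + |slope (f (j + 1)) q| + |dt (slope (f j)) q| +
            |dt (slope (f (j + 1))) q|) * (1 / |dt (f j) q| + 1 / |dt (f (j + 1)) q|)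
          ≤ C * (Z * S) * (2 / (c * G) * r ^ j) := by
            gcongr
            exact hinv' j hj
        _ = _ := by ring
    intro j hj
    refine (tele (a := fun j => dz (slope (f j)) q) (by positivity) hr0.le hr1 h1 j hj).trans
      (le_of_eq ?_)
    rw [hW]
    field_simp
  intro j hj
  have hS0 : 0 ≤ S := by linarith
  refine ⟨(ha j hj).trans ?_, (hb j hj).trans ?_, (hcc j hj).trans ?_⟩
  · gcongr; linarith
  · gcongr; linarith
  · gcongr; linarith

/-- one step of the chain -/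
lemma step {e : ℝ} (he : 0 < e) : ∃ C1 : ℝ, 0 ≤ C1 ∧ ∀ (k : ℕ → ℕ), (∀ i, 1 ≤ k i) →
    ∀ q ∈ Dom, ∀ i n : ℕ, |F e k i q| ≤ B e → |F e k n q| ≤ B e →
      (n = i + 1 ∨ (n = i + 2 ∧ |F e k i q| < 1 ∧ B e < |F e k (i + 1) q|)) →
      |slope (F e k n) q - slope (F e k i) q| ≤ C1 / |dt (F e k i) q| ^ 2 ∧
      |dt (slope (F e k n)) q - dt (slope (F e k i)) q| ≤ C1 / |dt (F e k i) q| ∧
      |dz (slope (F e k n)) q - dz (slope (F e k i)) q| ≤
        C1 * (1 + |slope (F e k i) q| + |dt (slope (F e k i)) q|) / |dt (F e k i) q| := by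
  obtain ⟨Cg, hCg, hgrow⟩ := growth_coord he
  obtain ⟨c, hc, hrim⟩ := rim_coord he
  obtain ⟨Cl, hCl, hlink⟩ := link he
  set R : ℝ := Real.sqrt (1 + e ^ 2) with hR
  have hR1 : 1 < R := one_lt_V he
  have hR0 : 0 < R := by linarith
  have hCg0 : 0 < Cg := by linarith
  set c' : ℝ := min c (1 / (Cg * R)) with hc'
  have hc'0 : 0 < c' := lt_min hc (by positivity)
  have hc'1 : c' ≤ 1 := by
    refine (min_le_right _ _).trans ?_
    rw [div_le_one (by positivity)]
    nlinarith
  obtain ⟨C1, hC1, hchain⟩ := chain_sum hCl hc'0 hR1 (half_pos he)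
  refine ⟨C1, hC1, ?_⟩
  intro k hk q hq i n hi hn hin
  have hge : e / 2 ≤ |dt (F e k i) q| := by
    obtain ⟨h1, h2⟩ := F_tame he hk hq hi
    have h3 : (1 : ℝ) ≤ (dg k i).1 := by exact_mod_cast dg_pos hk i
    have h4 : (e / 2) ^ 2 ≤ |dt (F e k i) q| ^ 2 := by
      rw [sq_abs]; nlinarith [sq_nonneg e]
    exact (pow_le_pow_iff_left₀ (by positivity) (abs_nonneg _) (by norm_num)).1 h4
  rcases hin with rfl | ⟨rfl, hi1, hi2⟩
  · -- a short step
    set f : ℕ → ℝ × ℝ → ℝ := fun j => if j = 0 then F e k i else F e k (i + 1) with hf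
    have f0 : f 0 = F e k i := by simp [hf]
    have f1 : f 1 = F e k (i + 1) := by simp [hf]
    have h1 := hchain f q 1 (by
        intro j hj
        have : j = 0 := by omega
        subst this
        rw [f0, Nat.zero_add, f1]
        have h2 := (hlink k hk q hq (i + 1) 0 (Or.inl (by omega)) (by rw [Ft_zero]; exact hi)).1 hn
        rw [Ft_zero] at h2
        exact h2) (by
        intro j hj
        rw [f0]
        rcases Nat.eq_zero_or_pos j with h0 | h0
        · subst h0
          rw [f0, pow_zero, mul_one]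
          exact mul_le_of_le_one_left (abs_nonneg _) hc'1
        · have : j = 1 := by omega
          subst this
          rw [f1, pow_one]
          have h2 := hgrow k hk q hq i (i + 1) (by omega) hi hn
          have h3 : c' * R ≤ 1 / Cg := by
            calc c' * R ≤ 1 / (Cg * R) * R := by gcongr; exact min_le_right _ _
              _ = 1 / Cg := by field_simp
          calc c' * R * |dt (F e k i) q| ≤ 1 / Cg * (Cg * |dt (F e k (i + 1)) q|) := by gcongr
            _ = _ := by field_simp) (by rw [f0]; exact hge) 1 le_rfl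
    rw [f0, f1] at h1
    exact h1
  · -- across a rim
    have hB1 := one_lt_B he
    have hi1' : 1 ≤ |F e k (i + 1) q| := (hB1.trans hi2).le
    have hKJ : Ft e k (i + 1) (k (i + 1)) = F e k (i + 2) := Ft_k e k (i + 1)
    have hbd : ∀ j ≤ k (i + 1), |Ft e k (i + 1) j q| ≤ B e := by
      intro j hj
      rcases Nat.eq_zero_or_pos j with h0 | h0
      · subst h0; rw [Ft_zero]; exact hi
      · rcases Nat.lt_or_ge j (k (i + 1)) with h1 | h1
        · have h2 : |tv k (i + 1) j (Psi e q.1 q.2)| < 1 :=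
            rim_lt he (Psi_mem hq) (i + 1) hi1' (by
              rw [orb_succ_z]
              exact hi1) (J := k (i + 1)) (by
              have : |Ft e k (i + 1) (k (i + 1)) q| < V e := by
                rw [hKJ]; exact B_lt_V' he hn
              exact this) h0 h1
          exact (h2.trans hB1).le
        · have : j = k (i + 1) := by omega
          subst this
          rw [hKJ]; exact hn
    have h1 := hchain (fun j => Ft e k (i + 1) j) q (k (i + 1)) (by
        intro j hj
        exact (hlink k hk q hq (i + 1) j (Or.inl (by omega)) (hbd j hj.le)).2 (hbd (j + 1) hj)) (by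
        intro j hj
        have h2 := hrim k hk q hq i (k (i + 1)) hi1 hi1' (hbd _ le_rfl) j hj
        show c' * R ^ j * |dt (Ft e k (i + 1) 0) q| ≤ |dt (Ft e k (i + 1) j) q|
        rw [Ft_zero]
        refine le_trans ?_ h2
        gcongr
        exact min_le_left _ _) (by
        show e / 2 ≤ |dt (Ft e k (i + 1) 0) q|
        rw [Ft_zero]; exact hge) (k (i + 1)) le_rfl
    simp only [Ft_zero, hKJ] at h1
    exact h1

/-- the potential -/
lemma potential {k : ℕ → ℕ} (hk : ∀ i, 1 ≤ k i) (n : ℕ) :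
    0 < 1 / Real.sqrt (dg k n).1 ∧ 1 / Real.sqrt (dg k (n + 1)).1 ≤ 1 / Real.sqrt (dg k n).1 ∧
    1 / Real.sqrt (dg k (n + 2)).1 ≤ 3 / 4 * (1 / Real.sqrt (dg k n).1) := by
  have h1 : (1 : ℝ) ≤ (dg k n).1 := by exact_mod_cast dg_pos hk n
  have h2 : ((dg k n).1 : ℝ) ≤ (dg k (n + 1)).1 := by exact_mod_cast dg_mono hk n
  have h3 : 2 * ((dg k n).1 : ℝ) ≤ (dg k (n + 2)).1 := by exact_mod_cast dg_two hk n
  have h4 : 0 < Real.sqrt (dg k n).1 := Real.sqrt_pos.2 (by linarith)
  refine ⟨by positivity, ?_, ?_⟩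
  · exact one_div_le_one_div_of_le h4 (Real.sqrt_le_sqrt h2)
  · have h5 : 4 / 3 * Real.sqrt (dg k n).1 ≤ Real.sqrt (dg k (n + 2)).1 := by
      apply Real.le_sqrt_of_sq_le
      rw [mul_pow, Real.sq_sqrt (by linarith)]
      nlinarith
    have h6 : 0 < 4 / 3 * Real.sqrt (dg k n).1 := by positivity
    calc 1 / Real.sqrt (dg k (n + 2)).1 ≤ 1 / (4 / 3 * Real.sqrt (dg k n).1) :=
          one_div_le_one_div_of_le h6 h5
      _ = _ := by field_simp

/-- summation along the good indices -/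
lemma good_sum {ρ : ℕ → ℝ} (h0 : ∀ n, 0 < ρ n) (h1 : ∀ n, ρ (n + 1) ≤ ρ n)
    (h2 : ∀ n, ρ (n + 2) ≤ 3 / 4 * ρ n) {good : ℕ → Prop} {N0 : ℕ} {a : ℕ → ℝ} {A : ℝ}
    (hA : 0 ≤ A) (hstep : ∀ n, N0 < n → good n → ∃ i, N0 ≤ i ∧ good i ∧ (n = i + 1 ∨ n = i + 2) ∧
      |a n - a i| ≤ A * ρ i) (n : ℕ) (hn : N0 ≤ n) (hg : good n) :
    |a n - a N0| ≤ 4 * A * ((ρ N0 + ρ (N0 + 1)) - (ρ n + ρ (n + 1))) := by
  induction n using Nat.strong_induction_on with
  | _ n ih =>
    rcases Nat.eq_or_lt_of_le hn with rfl | hlt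
    · simp
    · obtain ⟨i, hi, hgi, hni, hai⟩ := hstep n hlt hg
      have h3 := ih i (by omega) hi hgi
      have h4 : ρ i ≤ 4 * ((ρ i + ρ (i + 1)) - (ρ n + ρ (n + 1))) := by
        have p0 := h0 i
        have p2 := h2 i
        rcases hni with rfl | rfl
        · have e1 : ρ (i + 1 + 1) = ρ (i + 2) := rfl
          rw [e1]
          linarith
        · have p3 := h1 (i + 2)
          have p4 := h1 (i + 1)
          have e1 : ρ (i + 1 + 1) = ρ (i + 2) := rfl
          have e2 : ρ (i + 2 + 1) = ρ (i + 3) := rfl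
          rw [e1] at p4
          rw [e2] at p3 ⊢
          linarith
      have e3 : a n - a N0 = (a n - a i) + (a i - a N0) := by ring
      rw [e3]
      refine (abs_add_le _ _).trans ?_
      have h5 : A * ρ i ≤ A * (4 * ((ρ i + ρ (i + 1)) - (ρ n + ρ (n + 1)))) := by gcongr
      linarith

end SC

open SC in
theorem slope_close {e : ℝ} (he : 0 < e) : ∃ C : ℝ, 0 ≤ C ∧ ∀ (k : ℕ → ℕ), (∀ i, 1 ≤ k i) →
    ∀ N0 n : ℕ, N0 ≤ n → ∀ q ∈ Dom, |F e k N0 q| ≤ B e → |F e k n q| ≤ B e →
      |slope (F e k n) q - slope (F e k N0) q|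
        ≤ C / (|dt (F e k N0) q| * Real.sqrt (dg k N0).1) ∧
      |dt (slope (F e k n)) q - dt (slope (F e k N0)) q| ≤ C / Real.sqrt (dg k N0).1 ∧
      |dz (slope (F e k n)) q - dz (slope (F e k N0)) q|
        ≤ C * (1 + |slope (F e k N0) q| + |dt (slope (F e k N0)) q|) / Real.sqrt (dg k N0).1 := by
  obtain ⟨Cg, hCg, hgrow⟩ := growth_coord he
  obtain ⟨C1, hC1, hst⟩ := step he
  have hCg0 : 0 < Cg := by linarith
  set C2 : ℝ := C1 * Cg * (2 / e) with hC2
  have hC20 : 0 ≤ C2 := by positivity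
  set C2' : ℝ := C1 * (2 / e) with hC2'
  have hC20' : 0 ≤ C2' := by positivity
  set K : ℝ := 1 + 8 * C2 * (2 / e) + 8 * C2' with hK
  have hK1 : 1 ≤ K := by
    have : 0 ≤ 8 * C2 * (2 / e) := by positivity
    have : 0 ≤ 8 * C2' := by positivity
    linarith
  refine ⟨8 * C2 + 8 * C2' + 8 * C2' * K, by positivity, ?_⟩
  intro k hk N0 n hN0n q hq hN0 hn
  set ρ : ℕ → ℝ := fun n => 1 / Real.sqrt (dg k n).1 with hρ
  have hp := fun n => potential hk n
  have hlow : ∀ i, |F e k i q| ≤ B e → e / 2 ≤ |dt (F e k i) q| ∧ 1 / |dt (F e k i) q| ≤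
      2 / e * ρ i := by
    intro i hi
    obtain ⟨h1, h2⟩ := F_tame he hk hq hi
    have h3 : (1 : ℝ) ≤ (dg k i).1 := by exact_mod_cast dg_pos hk i
    have h4 : (e / 2 * Real.sqrt (dg k i).1) ^ 2 ≤ |dt (F e k i) q| ^ 2 := by
      rw [sq_abs, mul_pow, Real.sq_sqrt (by linarith)]
      refine le_trans (le_of_eq (by ring)) h2
    have h5 : e / 2 * Real.sqrt (dg k i).1 ≤ |dt (F e k i) q| :=
      (pow_le_pow_iff_left₀ (by positivity) (abs_nonneg _) (by norm_num)).1 h4
    have h6 : 1 ≤ Real.sqrt (dg k i).1 := by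
      rw [Real.one_le_sqrt]; exact h3
    have h7 : 0 < Real.sqrt (dg k i).1 := by linarith
    refine ⟨?_, ?_⟩
    · refine le_trans ?_ h5
      nlinarith
    · calc 1 / |dt (F e k i) q| ≤ 1 / (e / 2 * Real.sqrt (dg k i).1) :=
            one_div_le_one_div_of_le (by positivity) h5
        _ = 2 / e * ρ i := by rw [hρ]; field_simp
  set G : ℝ := |dt (F e k N0) q| with hG
  have hG0 : 0 < G := lt_of_lt_of_le (half_pos he) (hlow N0 hN0).1
  -- existence of the previous good index
  have hex : ∀ n, N0 < n → |F e k n q| ≤ B e → ∃ i, N0 ≤ i ∧ |F e k i q| ≤ B e ∧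
      (n = i + 1 ∨ (n = i + 2 ∧ |F e k i q| < 1 ∧ B e < |F e k (i + 1) q|)) := by
    intro n hn hgn
    obtain ⟨m, rfl⟩ : ∃ m, n = m + 1 := ⟨n - 1, by omega⟩
    rcases le_or_gt |F e k m q| (B e) with h1 | h1
    · exact ⟨m, by omega, h1, Or.inl rfl⟩
    · have hm : N0 < m := by
        rcases Nat.eq_or_lt_of_le (Nat.lt_succ_iff.1 hn) with h2 | h2
        · subst h2; exact absurd hN0 (not_le.2 h1)
        · exact h2
      obtain ⟨i, rfl⟩ : ∃ i, m = i + 1 := ⟨m - 1, by omega⟩
      have h3 : |F e k i q| < 1 := by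
        refine pair_lt he hk (Psi_mem hq) ?_ (n := i) (N := i + 1 + 1) (by omega)
          (B_lt_V' he hgn) ((one_lt_B he).trans h1).le
        obtain ⟨v, t1, t2, _⟩ := tangent_data (e := e) hq
        exact t2
      exact ⟨i, by omega, (h3.trans (one_lt_B he)).le, Or.inr ⟨rfl, h3, h1⟩⟩
  have hsum : ∀ n, (ρ N0 + ρ (N0 + 1)) - (ρ n + ρ (n + 1)) ≤ 2 * ρ N0 := by
    intro n
    have h1 := (hp N0).2.1
    have h2 := (hp n).1
    have h3 := (hp (n + 1)).1
    simp only [hρ]
    linarith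
  -- slopes
  have hs : ∀ n, N0 ≤ n → |F e k n q| ≤ B e →
      |slope (F e k n) q - slope (F e k N0) q| ≤ 8 * C2 / G * ρ N0 := by
    intro n hn hgn
    have h1 := good_sum (ρ := ρ) (fun n => (hp n).1) (fun n => (hp n).2.1) (fun n => (hp n).2.2)
      (good := fun n => |F e k n q| ≤ B e) (N0 := N0) (a := fun n => slope (F e k n) q)
      (A := C2 / G) (by positivity) (by
        intro n hn hgn
        obtain ⟨i, hi, hgi, hni⟩ := hex n hn hgn
        refine ⟨i, hi, hgi, hni.imp_right (fun h => h.1), ?_⟩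
        have h2 := (hst k hk q hq i n hgi hgn hni).1
        refine h2.trans ?_
        have h3 := hgrow k hk q hq N0 i hi hN0 hgi
        obtain ⟨h4, h5⟩ := hlow i hgi
        have h6 : 0 < |dt (F e k i) q| := lt_of_lt_of_le (half_pos he) h4
        have h7 : 1 / |dt (F e k i) q| ≤ Cg / G := by
          rw [div_le_div_iff₀ h6 hG0, one_mul]; exact h3
        calc C1 / |dt (F e k i) q| ^ 2
            = C1 * (1 / |dt (F e k i) q|) * (1 / |dt (F e k i) q|) := by
              field_simp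
          _ ≤ C1 * (Cg / G) * (2 / e * ρ i) := by gcongr
          _ = C2 / G * ρ i := by rw [hC2]; ring) n hn hgn
    refine h1.trans ?_
    calc 4 * (C2 / G) * ((ρ N0 + ρ (N0 + 1)) - (ρ n + ρ (n + 1)))
        ≤ 4 * (C2 / G) * (2 * ρ N0) := by
          gcongr
          exact hsum n
      _ = _ := by ring
  have hu : ∀ n, N0 ≤ n → |F e k n q| ≤ B e →
      |dt (slope (F e k n)) q - dt (slope (F e k N0)) q| ≤ 8 * C2' * ρ N0 := by
    intro n hn hgn
    have h1 := good_sum (ρ := ρ) (fun n => (hp n).1) (fun n => (hp n).2.1) (fun n => (hp n).2.2)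
      (good := fun n => |F e k n q| ≤ B e) (N0 := N0) (a := fun n => dt (slope (F e k n)) q)
      (A := C2') hC20' (by
        intro n hn hgn
        obtain ⟨i, hi, hgi, hni⟩ := hex n hn hgn
        refine ⟨i, hi, hgi, hni.imp_right (fun h => h.1), ?_⟩
        have h2 := (hst k hk q hq i n hgi hgn hni).2.1
        refine h2.trans ?_
        obtain ⟨h4, h5⟩ := hlow i hgi
        calc C1 / |dt (F e k i) q| = C1 * (1 / |dt (F e k i) q|) := by ring
          _ ≤ C1 * (2 / e * ρ i) := by gcongr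
          _ = C2' * ρ i := by rw [hC2']; ring) n hn hgn
    refine h1.trans ?_
    calc 4 * C2' * ((ρ N0 + ρ (N0 + 1)) - (ρ n + ρ (n + 1)))
        ≤ 4 * C2' * (2 * ρ N0) := by
          gcongr
          exact hsum n
      _ = _ := by ring
  have hρ1 : ρ N0 ≤ 1 := by
    have h3 : (1 : ℝ) ≤ (dg k N0).1 := by exact_mod_cast dg_pos hk N0
    have h6 : 1 ≤ Real.sqrt (dg k N0).1 := by
      rw [Real.one_le_sqrt]; exact h3
    simp only [hρ]
    rw [div_le_one (by linarith)]
    exact h6
  have hρ0 : 0 < ρ N0 := (hp N0).1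
  set S : ℝ := 1 + |slope (F e k N0) q| + |dt (slope (F e k N0)) q| with hS
  have hS1 : 1 ≤ S := by
    have := abs_nonneg (slope (F e k N0) q)
    have := abs_nonneg (dt (slope (F e k N0)) q)
    linarith
  have hbd : ∀ i, N0 ≤ i → |F e k i q| ≤ B e →
      1 + |slope (F e k i) q| + |dt (slope (F e k i)) q| ≤ K * S := by
    intro i hi hgi
    have h1 := hs i hi hgi
    have h2 := hu i hi hgi
    have h3 : 8 * C2 / G * ρ N0 ≤ 8 * C2 * (2 / e) := by
      have h4 := (hlow N0 hN0).1
      have h5 : 1 / G ≤ 2 / e := by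
        rw [div_le_div_iff₀ hG0 he]; linarith
      calc 8 * C2 / G * ρ N0 = 8 * C2 * (1 / G) * ρ N0 := by ring
        _ ≤ 8 * C2 * (2 / e) * 1 := by gcongr
        _ = _ := by ring
    have h4 : 8 * C2' * ρ N0 ≤ 8 * C2' := mul_le_of_le_one_right (by positivity) hρ1
    have h5 : |slope (F e k i) q| ≤ |slope (F e k i) q - slope (F e k N0) q| +
        |slope (F e k N0) q| := by
      have := abs_add_le (slope (F e k i) q - slope (F e k N0) q) (slope (F e k N0) q)
      rwa [sub_add_cancel] at this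
    have h6 : |dt (slope (F e k i)) q| ≤ |dt (slope (F e k i)) q - dt (slope (F e k N0)) q| +
        |dt (slope (F e k N0)) q| := by
      have := abs_add_le (dt (slope (F e k i)) q - dt (slope (F e k N0)) q)
        (dt (slope (F e k N0)) q)
      rwa [sub_add_cancel] at this
    have h7 : 0 ≤ 8 * C2 * (2 / e) + 8 * C2' := by positivity
    have h8 : 1 + |slope (F e k i) q| + |dt (slope (F e k i)) q| ≤
        S + (8 * C2 * (2 / e) + 8 * C2') := by
      rw [hS]; linarith
    refine h8.trans ?_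
    rw [hK]
    nlinarith
  have hv : |dz (slope (F e k n)) q - dz (slope (F e k N0)) q| ≤ 8 * (C2' * (K * S)) * ρ N0 := by
    have h1 := good_sum (ρ := ρ) (fun n => (hp n).1) (fun n => (hp n).2.1) (fun n => (hp n).2.2)
      (good := fun n => |F e k n q| ≤ B e) (N0 := N0) (a := fun n => dz (slope (F e k n)) q)
      (A := C2' * (K * S)) (by positivity) (by
        intro n hn hgn
        obtain ⟨i, hi, hgi, hni⟩ := hex n hn hgn
        refine ⟨i, hi, hgi, hni.imp_right (fun h => h.1), ?_⟩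
        have h2 := (hst k hk q hq i n hgi hgn hni).2.2
        refine h2.trans ?_
        obtain ⟨h4, h5⟩ := hlow i hgi
        have h6 := hbd i hi hgi
        calc C1 * (1 + |slope (F e k i) q| + |dt (slope (F e k i)) q|) / |dt (F e k i) q|
            = C1 * (1 + |slope (F e k i) q| + |dt (slope (F e k i)) q|) *
              (1 / |dt (F e k i) q|) := by ring
          _ ≤ C1 * (K * S) * (2 / e * ρ i) := by gcongr
          _ = C2' * (K * S) * ρ i := by rw [hC2']; ring) n hN0n hn
    refine h1.trans ?_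
    calc 4 * (C2' * (K * S)) * ((ρ N0 + ρ (N0 + 1)) - (ρ n + ρ (n + 1)))
        ≤ 4 * (C2' * (K * S)) * (2 * ρ N0) := by
          gcongr
          exact hsum n
      _ = _ := by ring
  have hsq : 0 < Real.sqrt (dg k N0).1 := by
    have h3 : (1 : ℝ) ≤ (dg k N0).1 := by exact_mod_cast dg_pos hk N0
    exact Real.sqrt_pos.2 (by linarith)
  have q1 : 0 ≤ 8 * C2' * K := by positivity
  have q2 : 0 ≤ 8 * C2' := by positivity
  have q3 : 0 ≤ 8 * C2 := by positivity
  refine ⟨(hs n hN0n hn).trans ?_, (hu n hN0n hn).trans ?_, hv.trans ?_⟩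
  · have e1 : 8 * C2 / G * ρ N0 = 8 * C2 / (G * Real.sqrt (dg k N0).1) := by
      simp only [hρ]; field_simp
    rw [e1]
    gcongr
    linarith
  · have e1 : 8 * C2' * ρ N0 = 8 * C2' / Real.sqrt (dg k N0).1 := by
      simp only [hρ]; field_simp
    rw [e1]
    gcongr
    linarith
  · have e1 : 8 * (C2' * (K * S)) * ρ N0 = 8 * C2' * K * S / Real.sqrt (dg k N0).1 := by
      simp only [hρ]; field_simp
    rw [e1]
    gcongr
    linarith

end TM
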