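import Mathlib

/-!
For every degree d there is an irreducible integer polynomial f of degree d without fixed divisor
all of whose values at integers m with |m| < exp(c L^(2/3) / log L) are composite,
where L = L(f) is the length (total number of binary digits of the coefficients, zeros counting one).

Idea: choose about 2 sqrt(d/2) exponents whose differences contain all numbers (p-1)/2 for the odd
primes p <= d.  By the Chinese remainder theorem make f congruent modulo each such p to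
x^(b+(p-1)/2) - s_p x^b with a sign s_p = 1 or -1.  The signs are chosen one after another so that
each prime removes at least half of the remaining integers m.
-/

open Finset Polynomial

namespace Pool.Agent.Helper14.TwoThirdsAux

/-- CRT with integer residues for a finite set of primes. -/
lemma crt_int (Q : Finset ℕ) (hQ : ∀ p ∈ Q, p.Prime) (r : ℕ → ℤ) :
    ∃ c : ℤ, 0 ≤ c ∧ c < ((∏ p ∈ Q, p : ℕ) : ℤ) ∧ ∀ p ∈ Q, (p : ℤ) ∣ c - r p := by
  have pp : Set.Pairwise (↑Q : Set ℕ) (Function.onFun Nat.Coprime (fun p : ℕ => p)) := by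
    intro a ha b hb hab
    exact (Nat.coprime_primes (hQ a ha) (hQ b hb)).2 hab
  have hs : ∀ i ∈ Q, (fun p : ℕ => p) i ≠ 0 := fun i hi => (hQ i hi).ne_zero
  let K := Nat.chineseRemainderOfFinset (fun p : ℕ => (r p % (p : ℤ)).toNat) (fun p : ℕ => p) Q hs pp
  have hlt : (K : ℕ) < ∏ i ∈ Q, i :=
    Nat.chineseRemainderOfFinset_lt_prod (a := fun p : ℕ => (r p % (p : ℤ)).toNat) (s := fun p : ℕ => p) hs pp
  refine ⟨((K : ℕ) : ℤ), by positivity, by exact_mod_cast hlt, ?_⟩
  intro p hp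
  have h := K.2 p hp
  have hp0 : (p : ℤ) ≠ 0 := by exact_mod_cast (hQ p hp).ne_zero
  have h1 : ((K : ℕ) : ℤ) ≡ (((r p % (p : ℤ)).toNat : ℕ) : ℤ) [ZMOD (p : ℤ)] :=
    (Int.natCast_modEq_iff).2 h
  rw [Int.toNat_of_nonneg (Int.emod_nonneg _ hp0)] at h1
  have h2 : ((K : ℕ) : ℤ) ≡ r p [ZMOD (p : ℤ)] := h1.trans (Int.mod_modEq _ _)
  exact (Int.modEq_iff_dvd.1 h2.symm)

/-- Greedy choice of signs. -/
lemma exists_signs (P : Finset ℕ) (hP : ∀ p ∈ P, p.Prime ∧ p ≠ 2) :
    ∀ S : Finset ℤ, S.card < 2 ^ P.card →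
    ∃ s : ℕ → ℤ, (∀ p, s p = 1 ∨ s p = -1) ∧
      ∀ m ∈ S, ∃ p ∈ P, (p : ℤ) ∣ m * (m ^ ((p - 1) / 2) - s p) := by
  classical
  induction P using Finset.induction_on with
  | empty =>
    intro S hS
    have : S = ∅ := by
      simpa using hS
    subst this
    exact ⟨fun _ => 1, fun _ => Or.inl rfl, by simp⟩
  | insert p P hpP ih =>
    intro S hS
    have ihP : ∀ q ∈ P, q.Prime ∧ q ≠ 2 := fun q hq => hP q (mem_insert_of_mem hq)
    obtain ⟨hp, hp2⟩ := hP p (mem_insert_self p P)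
    rw [card_insert_of_notMem hpP, pow_succ] at hS
    set T1 := S.filter (fun m => ¬ (p : ℤ) ∣ m * (m ^ ((p - 1) / 2) - 1)) with hT1
    set T2 := S.filter (fun m => ¬ (p : ℤ) ∣ m * (m ^ ((p - 1) / 2) - (-1))) with hT2
    have hdisj : Disjoint T1 T2 := by
      rw [Finset.disjoint_left]
      intro m hm1 hm2
      rw [hT1, mem_filter] at hm1
      rw [hT2, mem_filter] at hm2
      have hpI : Prime (p : ℤ) := Nat.prime_iff_prime_int.1 hp
      have hnd : ¬ (p : ℤ) ∣ m := fun h => hm1.2 (Dvd.dvd.mul_right h _)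
      have : Fact p.Prime := ⟨hp⟩
      have hz : (m : ZMod p) ≠ 0 := by
        intro h0
        exact hnd ((ZMod.intCast_zmod_eq_zero_iff_dvd m p).1 h0)
      have hodd : p % 2 = 1 := by
        rcases hp.eq_two_or_odd with h | h
        · exact absurd h hp2
        · exact h
      have hhalf : (p - 1) / 2 = p / 2 := by omega
      rcases ZMod.pow_div_two_eq_neg_one_or_one p hz with h | h
      · apply hm1.2
        apply Dvd.dvd.mul_left
        rw [← ZMod.intCast_zmod_eq_zero_iff_dvd]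
        push_cast
        rw [hhalf, h, sub_self]
      · apply hm2.2
        apply Dvd.dvd.mul_left
        rw [← ZMod.intCast_zmod_eq_zero_iff_dvd]
        push_cast
        rw [hhalf, h, sub_self]
    have hcard : T1.card + T2.card ≤ S.card := by
      rw [← card_union_of_disjoint hdisj]
      apply card_le_card
      exact union_subset (filter_subset _ _) (filter_subset _ _)
    have key : ∀ (e : ℤ), (e = 1 ∨ e = -1) →
        (S.filter (fun m => ¬ (p : ℤ) ∣ m * (m ^ ((p - 1) / 2) - e))).card < 2 ^ P.card →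
        ∃ s : ℕ → ℤ, (∀ p, s p = 1 ∨ s p = -1) ∧
          ∀ m ∈ S, ∃ q ∈ insert p P, (q : ℤ) ∣ m * (m ^ ((q - 1) / 2) - s q) := by
      intro e he hlt
      obtain ⟨s, hs1, hs2⟩ := ih ihP _ hlt
      refine ⟨Function.update s p e, ?_, ?_⟩
      · intro q
        by_cases hq : q = p
        · subst hq; simpa using he
        · rw [Function.update_of_ne hq]; exact hs1 q
      · intro m hm
        by_cases hd : (p : ℤ) ∣ m * (m ^ ((p - 1) / 2) - e)
        · exact ⟨p, mem_insert_self _ _, by simpa using hd⟩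
        · obtain ⟨q, hq, hqd⟩ := hs2 m (mem_filter.2 ⟨hm, hd⟩)
          refine ⟨q, mem_insert_of_mem hq, ?_⟩
          have hne : q ≠ p := fun h => hpP (h ▸ hq)
          rw [Function.update_of_ne hne]
          exact hqd
    by_cases hc : T1.card < 2 ^ P.card
    · exact key 1 (Or.inl rfl) hc
    · exact key (-1) (Or.inr rfl) (by
        have : T2.card < 2 ^ P.card := by omega
        exact this)

/-- The sparse polynomial. -/
noncomputable def fpoly (A B : ℤ) (d : ℕ) (E : Finset ℕ) (c : ℕ → ℤ) : ℤ[X] :=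
  C A * X ^ d + ∑ k ∈ E, C (c k) * X ^ k + C B

lemma fpoly_eval (A B : ℤ) (d : ℕ) (E : Finset ℕ) (c : ℕ → ℤ) (m : ℤ) :
    (fpoly A B d E c).eval m = A * m ^ d + ∑ k ∈ E, c k * m ^ k + B := by
  simp [fpoly, eval_finsetSum]

lemma fpoly_coeff (A B : ℤ) (d : ℕ) (E : Finset ℕ) (c : ℕ → ℤ) (n : ℕ) :
    (fpoly A B d E c).coeff n =
      (if n = d then A else 0) + (if n ∈ E then c n else 0) + (if n = 0 then B else 0) := by
  simp only [fpoly, coeff_add, coeff_C_mul, coeff_X_pow, finsetSum_coeff, coeff_C, mul_ite, mul_one,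
    mul_zero]
  congr 2
  rw [Finset.sum_ite_eq]

section
variable {A B : ℤ} {d : ℕ} {E : Finset ℕ} {c : ℕ → ℤ}

lemma fpoly_coeff_d (hd : 1 ≤ d) (hE : ∀ k ∈ E, 1 ≤ k ∧ k < d) :
    (fpoly A B d E c).coeff d = A := by
  rw [fpoly_coeff]
  have h1 : d ∉ E := fun h => lt_irrefl _ (hE d h).2
  have h2 : d ≠ 0 := by omega
  simp [h1, h2]

lemma fpoly_coeff_zero (hd : 1 ≤ d) (hE : ∀ k ∈ E, 1 ≤ k ∧ k < d) :
    (fpoly A B d E c).coeff 0 = B := by
  rw [fpoly_coeff]
  have h1 : 0 ∉ E := fun h => by have := (hE 0 h).1; omega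
  have h2 : (0 : ℕ) ≠ d := by omega
  simp [h1, h2]

lemma fpoly_natDegree (hA : A ≠ 0) (hd : 1 ≤ d) (hE : ∀ k ∈ E, 1 ≤ k ∧ k < d) :
    (fpoly A B d E c).natDegree = d := by
  apply le_antisymm
  · rw [natDegree_le_iff_coeff_eq_zero]
    intro n hn
    rw [fpoly_coeff]
    have h1 : n ∉ E := fun h => by have := (hE n h).2; omega
    have h2 : n ≠ 0 := by omega
    have h3 : n ≠ d := by omega
    simp [h1, h2, h3]
  · apply le_natDegree_of_ne_zero
    rw [fpoly_coeff_d hd hE]
    exact hA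

lemma fpoly_leadingCoeff (hA : A ≠ 0) (hd : 1 ≤ d) (hE : ∀ k ∈ E, 1 ≤ k ∧ k < d) :
    (fpoly A B d E c).leadingCoeff = A := by
  rw [leadingCoeff, fpoly_natDegree hA hd hE, fpoly_coeff_d hd hE]

/-- no fixed divisor implies primitive -/
lemma isPrimitive_of_noFixed {f : ℤ[X]} (hf : ∀ n : ℕ, 1 < n → ¬ ∀ x : ℤ, (n : ℤ) ∣ f.eval x) :
    f.IsPrimitive := by
  intro r hr
  by_contra hu
  obtain ⟨g, rfl⟩ := hr
  by_cases h0 : r = 0
  · subst h0
    apply hf 2 (by norm_num)
    intro x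
    simp
  · have h1 : r.natAbs ≠ 1 := fun h => hu (Int.isUnit_iff_natAbs_eq.2 h)
    have h2 : r.natAbs ≠ 0 := by simpa using h0
    apply hf r.natAbs (by omega)
    intro x
    rw [eval_mul, eval_C]
    exact Dvd.dvd.mul_right (Int.natAbs_dvd.2 dvd_rfl) _

lemma fpoly_irreducible {q : ℕ} (hq : q.Prime) (hA : A ≠ 0) (hd : 1 ≤ d)
    (hE : ∀ k ∈ E, 1 ≤ k ∧ k < d) (hqA : ¬ (q : ℤ) ∣ A) (hqB : (q : ℤ) ∣ B)
    (hqB2 : ¬ (q : ℤ) ^ 2 ∣ B) (hqc : ∀ k ∈ E, (q : ℤ) ∣ c k)
    (hf : ∀ n : ℕ, 1 < n → ¬ ∀ x : ℤ, (n : ℤ) ∣ (fpoly A B d E c).eval x) :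
    Irreducible (fpoly A B d E c) := by
  have hqp : Prime (q : ℤ) := Nat.prime_iff_prime_int.1 hq
  have hI : (Ideal.span {(q : ℤ)}).IsPrime := (Ideal.span_singleton_prime hqp.ne_zero).2 hqp
  have hne : fpoly A B d E c ≠ 0 := by
    intro h
    have := fpoly_leadingCoeff (B := B) (c := c) hA hd hE
    rw [h] at this
    simp at this
    exact hA this.symm
  have hdeg : (fpoly A B d E c).degree = d := by
    rw [degree_eq_natDegree hne, fpoly_natDegree hA hd hE]
  apply irreducible_of_eisenstein_criterion hI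
  · rw [fpoly_leadingCoeff hA hd hE, Ideal.mem_span_singleton]
    exact hqA
  · intro n hn
    rw [hdeg] at hn
    have hn' : n < d := by exact_mod_cast hn
    rw [Ideal.mem_span_singleton, fpoly_coeff]
    have h1 : n ≠ d := by omega
    simp only [h1, if_false, zero_add]
    apply dvd_add
    · split_ifs with h
      · exact hqc n h
      · exact dvd_zero _
    · split_ifs with h
      · exact hqB
      · exact dvd_zero _
  · rw [hdeg]; exact_mod_cast hd
  · rw [fpoly_coeff_zero hd hE, Ideal.span_singleton_pow, Ideal.mem_span_singleton]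
    exact hqB2
  · exact isPrimitive_of_noFixed hf

/-- length bound -/
lemma fpoly_length {b : ℕ} (hA : A ≠ 0) (hd : 1 ≤ d) (hE : ∀ k ∈ E, 1 ≤ k ∧ k < d)
    (hAb : A.natAbs < 2 ^ b) (hBb : B.natAbs < 2 ^ b) (hcb : ∀ k ∈ E, (c k).natAbs < 2 ^ b) :
    ∑ k ∈ Finset.range ((fpoly A B d E c).natDegree + 1),
      max 1 (Nat.size ((fpoly A B d E c).coeff k).natAbs) ≤ (d + 1) + b * (E.card + 2) := by
  rw [fpoly_natDegree hA hd hE]
  have hpt : ∀ k ∈ Finset.range (d + 1), max 1 (Nat.size ((fpoly A B d E c).coeff k).natAbs) ≤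
      1 + ((if k = d then b else 0) + (if k ∈ E then b else 0) + (if k = 0 then b else 0)) := by
    intro k hk
    rw [mem_range] at hk
    apply max_le (by omega)
    have hsz : ∀ {z : ℤ}, z.natAbs < 2 ^ b → Nat.size z.natAbs ≤ b := fun h => Nat.size_le.2 h
    by_cases h1 : k = d
    · subst h1
      rw [fpoly_coeff_d hd hE]
      have := hsz hAb
      simp only [if_true]
      omega
    · by_cases h2 : k = 0
      · subst h2
        rw [fpoly_coeff_zero hd hE]
        have := hsz hBb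
        simp only [if_true]
        omega
      · by_cases h3 : k ∈ E
        · rw [fpoly_coeff]
          have := hsz (hcb k h3)
          simp only [h1, h2, h3, if_true, if_false, zero_add, add_zero]
          omega
        · rw [fpoly_coeff]
          simp [h1, h2, h3]
  refine (Finset.sum_le_sum hpt).trans ?_
  rw [Finset.sum_add_distrib, Finset.sum_add_distrib, Finset.sum_add_distrib]
  have e1 : ∑ k ∈ Finset.range (d + 1), (if k = d then b else 0) = b := by
    rw [Finset.sum_ite_eq' (Finset.range (d+1)) d (fun _ => b)]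
    simp
  have e2 : ∑ k ∈ Finset.range (d + 1), (if k = 0 then b else 0) = b := by
    rw [Finset.sum_ite_eq' (Finset.range (d+1)) 0 (fun _ => b)]
    simp
  have e3 : ∑ k ∈ Finset.range (d + 1), (if k ∈ E then b else 0) ≤ b * E.card := by
    rw [← Finset.sum_filter, Finset.sum_const, smul_eq_mul, mul_comm]
    apply Nat.mul_le_mul_left
    apply card_le_card
    intro x hx
    exact (mem_filter.1 hx).2
  rw [e1, e2, Finset.sum_const, card_range, smul_eq_mul, mul_one]
  nlinarith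

end

/-- covering of differences -/
lemma diff_cover (s δ : ℕ) (h1 : 1 ≤ δ) (h2 : δ ≤ s ^ 2) :
    ∃ i j : ℕ, i < s ∧ j < s ∧ (j + 1) * s + 1 = (i + 1) + δ := by
  have hs : 0 < s := by
    rcases Nat.eq_zero_or_pos s with h | h
    · subst h; simp at h2; omega
    · exact h
  -- j + 1 = ceil (δ / s)
  refine ⟨(s - (δ - 1) % s - 1), (δ - 1) / s, by omega, ?_, ?_⟩
  · rw [Nat.div_lt_iff_lt_mul hs]
    have : s ^ 2 = s * s := sq s
    omega
  · have h3 := Nat.div_add_mod (δ - 1) s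
    have h4 := Nat.mod_lt (δ - 1) hs
    have h5 : ((δ - 1) / s + 1) * s = s * ((δ - 1) / s) + s := by ring
    rw [h5]
    omega

/-- a number with prescribed quadratic character -/
lemma exists_char (p : ℕ) (hp : p.Prime) (hp2 : p ≠ 2) (e : ℤ) (he : e = 1 ∨ e = -1) :
    ∃ m : ℤ, ¬ (p : ℤ) ∣ m ∧ (p : ℤ) ∣ m ^ ((p - 1) / 2) - e := by
  have : Fact p.Prime := ⟨hp⟩
  have hodd : p % 2 = 1 := by
    rcases hp.eq_two_or_odd with h | h
    · exact absurd h hp2
    · exact h
  have hhalf : (p - 1) / 2 = p / 2 := by omega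
  rcases he with rfl | rfl
  · refine ⟨1, ?_, by simp⟩
    intro h
    have := Int.le_of_dvd (by norm_num) h
    have := hp.two_le
    omega
  · have hc : ringChar (ZMod p) ≠ 2 := by rwa [ZMod.ringChar_zmod_n]
    obtain ⟨a, ha⟩ := FiniteField.exists_nonsquare hc
    have ha0 : a ≠ 0 := by
      rintro rfl
      exact ha ⟨0, by simp⟩
    refine ⟨(a.val : ℤ), ?_, ?_⟩
    · rw [← ZMod.intCast_zmod_eq_zero_iff_dvd]
      simpa using ha0
    · rw [← ZMod.intCast_zmod_eq_zero_iff_dvd]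
      push_cast
      rw [hhalf]
      simp only [ZMod.natCast_val, ZMod.cast_id', id_eq]
      rcases ZMod.pow_div_two_eq_neg_one_or_one p ha0 with h | h
      · exact absurd ((ZMod.euler_criterion p ha0).2 h) ha
      · rw [h]; ring

/-- the values are large -/
theorem fpoly_big {N q : ℤ} {s d : ℕ} {E : Finset ℕ} {c : ℕ → ℤ} (hN : 2 ≤ N) (hq : 2 ≤ q)
    (hsq : 2 * (s : ℤ) + 1 ≤ q) (hd1 : 1 ≤ d) (hE : ∀ k ∈ E, 1 ≤ k ∧ k < d)
    (hEcard : (E.card : ℤ) ≤ 2 * s) (hc : ∀ k ∈ E, 0 ≤ c k ∧ c k ≤ N * q) (m : ℤ) :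
    q < |N * (2 * q ^ 2 + 1) * m ^ d + ∑ k ∈ E, c k * m ^ k + N * q| := by
  have hNq : 0 < N * q := by positivity
  by_cases hm0 : m = 0
  · subst hm0
    have hE0 : ∀ k ∈ E, c k * (0 : ℤ) ^ k = 0 := by
      intro k hk
      have : k ≠ 0 := by have := (hE k hk).1; omega
      simp [this]
    rw [Finset.sum_eq_zero hE0, zero_pow (by omega : d ≠ 0), mul_zero, zero_add,
      zero_add, abs_of_pos hNq]
    nlinarith
  · have hm1 : (1 : ℤ) ≤ |m| := Int.one_le_abs hm0
    have hX1 : (1 : ℤ) ≤ |m| ^ (d - 1) := one_le_pow₀ hm1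
    have hsumle : |∑ k ∈ E, c k * m ^ k| ≤ (E.card : ℤ) * (N * q * |m| ^ (d - 1)) := by
      refine (Finset.abs_sum_le_sum_abs _ _).trans ?_
      refine (Finset.sum_le_card_nsmul E _ (N * q * |m| ^ (d - 1)) ?_).trans ?_
      · intro k hk
        rw [abs_mul, abs_pow, abs_of_nonneg (hc k hk).1]
        have h2 : |m| ^ k ≤ |m| ^ (d - 1) := pow_le_pow_right₀ hm1 (by have := (hE k hk).2; omega)
        have h3 : (0 : ℤ) ≤ |m| ^ k := by positivity
        calc c k * |m| ^ k ≤ (N * q) * |m| ^ k := mul_le_mul_of_nonneg_right (hc k hk).2 h3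
          _ ≤ (N * q) * |m| ^ (d - 1) := mul_le_mul_of_nonneg_left h2 hNq.le
      · rw [nsmul_eq_mul]
    set X : ℤ := |m| ^ (d - 1) with hX
    set A : ℤ := N * (2 * q ^ 2 + 1) with hA
    have hApos : 0 < A := by positivity
    have hAm : |A * m ^ d| = A * |m| * X := by
      rw [abs_mul, abs_of_pos hApos, abs_pow, hX]
      have : |m| ^ d = |m| * |m| ^ (d - 1) := by
        rw [← pow_succ']; congr 1; omega
      rw [this]; ring
    have htri : |A * m ^ d| - |∑ k ∈ E, c k * m ^ k| - |N * q| ≤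
        |A * m ^ d + ∑ k ∈ E, c k * m ^ k + N * q| := by
      have h1 := abs_add_le (A * m ^ d + ∑ k ∈ E, c k * m ^ k + N * q) (-(N * q))
      have h2 := abs_add_le (A * m ^ d + ∑ k ∈ E, c k * m ^ k) (-(∑ k ∈ E, c k * m ^ k))
      rw [abs_neg] at h1 h2
      have e1 : A * m ^ d + ∑ k ∈ E, c k * m ^ k + N * q + -(N * q) =
        A * m ^ d + ∑ k ∈ E, c k * m ^ k := by ring
      have e2 : A * m ^ d + ∑ k ∈ E, c k * m ^ k + -(∑ k ∈ E, c k * m ^ k) = A * m ^ d := by ring
      rw [e1] at h1; rw [e2] at h2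
      linarith
    refine lt_of_lt_of_le ?_ htri
    rw [hAm, abs_of_pos hNq]
    have hNqX : 0 ≤ N * q * X := by positivity
    have hsum2 : |∑ k ∈ E, c k * m ^ k| ≤ 2 * (s : ℤ) * (N * q * X) :=
      hsumle.trans (mul_le_mul_of_nonneg_right hEcard hNqX)
    have h5 : A * 1 * X ≤ A * |m| * X := by
      apply mul_le_mul_of_nonneg_right _ (by linarith)
      exact mul_le_mul_of_nonneg_left hm1 hApos.le
    have h6 : N * q ≤ N * q * X := le_mul_of_one_le_right hNq.le hX1
    have h7 : (2 * (s : ℤ) + 1) * (N * q * X) ≤ q * (N * q * X) :=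
      mul_le_mul_of_nonneg_right hsq hNqX
    have h8 : A * 1 * X - q * (N * q * X) = N * X * (q ^ 2 + 1) := by
      rw [hA]; ring
    have h9 : (1 : ℤ) ≤ N * X := by nlinarith
    have h10 : q ^ 2 + 1 ≤ N * X * (q ^ 2 + 1) := le_mul_of_one_le_left (by positivity) h9
    have h11 : q < q ^ 2 + 1 := by nlinarith
    have h12 : (2 * (s : ℤ) + 1) * (N * q * X) = 2 * (s : ℤ) * (N * q * X) + N * q * X := by ring
    linarith

/-- Main construction. -/
theorem construction (d s q M : ℕ) (P : Finset ℕ)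
    (hP : ∀ p ∈ P, p.Prime ∧ p ≠ 2 ∧ p ≤ d) (hPs : ∀ p ∈ P, (p - 1) / 2 ≤ s ^ 2)
    (hs : s ^ 2 + 1 < d) (hq : q.Prime) (hdq : d < q) (hsq : 2 * s + 1 ≤ q)
    (hM : 2 * M + 1 < 2 ^ P.card) (b : ℕ)
    (hb : (∏ p ∈ P, p) * (2 * q ^ 2 + 1) < 2 ^ b) :
    ∃ f : ℤ[X], f.natDegree = d ∧ Irreducible f ∧ 0 < f.leadingCoeff ∧
      (∀ n : ℕ, 1 < n → ¬ ∀ x : ℤ, (n : ℤ) ∣ f.eval x) ∧
      (∑ k ∈ Finset.range (f.natDegree + 1), max 1 (Nat.size (f.coeff k).natAbs)
        ≤ (d + 1) + b * (2 * s + 2)) ∧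
      ∀ m : ℤ, |m| ≤ (M : ℤ) → 1 < (f.eval m).natAbs ∧ ¬ (f.eval m).natAbs.Prime := by
  classical
  set N : ℕ := ∏ p ∈ P, p with hN
  have hNpos : 0 < N := Finset.prod_pos (fun p hp => (hP p hp).1.pos)
  have hd1 : 1 ≤ d := by omega
  have hqP : q ∉ P := fun h => by have := (hP q h).2.2; omega
  have hpN : ∀ p ∈ P, p ∣ N := fun p hp => Finset.dvd_prod_of_mem _ hp
  have hqN : ¬ q ∣ N := by
    intro h
    obtain ⟨p, hp, hqp⟩ := (hq.prime.dvd_finsetProd_iff _).1 h
    have := (Nat.prime_dvd_prime_iff_eq hq (hP p hp).1).1 hqp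
    exact hqP (this ▸ hp)
  -- signs
  obtain ⟨ε, hε, hεS⟩ := exists_signs P (fun p hp => ⟨(hP p hp).1, (hP p hp).2.1⟩)
    (Finset.Icc (-(M : ℤ)) M) (by
      rw [Int.card_Icc]
      have : ((M : ℤ) + 1 - -(M : ℤ)).toNat = 2 * M + 1 := by omega
      rw [this]; exact hM)
  -- exponents
  have hij : ∀ p : ℕ, ∃ i j : ℕ, p ∈ P → (i < s ∧ j < s ∧ (j + 1) * s + 1 = (i + 1) + (p - 1) / 2) := by
    intro p
    by_cases hp : p ∈ P
    · have h3 : 1 ≤ (p - 1) / 2 := by
        have h2 := (hP p hp).1.two_le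
        have h2' := (hP p hp).2.1
        omega
      obtain ⟨i, j, h⟩ := diff_cover s ((p - 1) / 2) h3 (hPs p hp)
      exact ⟨i, j, fun _ => h⟩
    · exact ⟨0, 0, fun h => absurd h hp⟩
  choose i j hij using hij
  set E : Finset ℕ := (Finset.range s).image (fun i => i + 1) ∪
    (Finset.range s).image (fun j => (j + 1) * s + 1) with hEdef
  have hE : ∀ k ∈ E, 1 ≤ k ∧ k < d := by
    intro k hk
    rw [hEdef, mem_union, mem_image, mem_image] at hk
    rcases hk with ⟨x, hx, rfl⟩ | ⟨x, hx, rfl⟩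
    · rw [mem_range] at hx
      refine ⟨by omega, ?_⟩
      have : s ≤ s ^ 2 := Nat.le_self_pow (by norm_num) s
      omega
    · rw [mem_range] at hx
      refine ⟨by omega, ?_⟩
      have : (x + 1) * s ≤ s ^ 2 := by
        rw [sq]; exact Nat.mul_le_mul_right _ hx
      omega
  have hEcard : E.card ≤ 2 * s := by
    refine (card_union_le _ _).trans ?_
    have h1 := card_image_le (s := Finset.range s) (f := fun i => i + 1)
    have h2 := card_image_le (s := Finset.range s) (f := fun j => (j + 1) * s + 1)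
    rw [card_range] at h1 h2
    omega
  -- residues
  let a : ℕ → ℕ := fun p => (j p + 1) * s + 1
  let bb : ℕ → ℕ := fun p => i p + 1
  let r : ℕ → ℕ → ℤ := fun k p =>
    if p = q then 0 else (if k = a p then 1 else 0) - (if k = bb p then ε p else 0)
  have hQ : ∀ p ∈ insert q P, p.Prime := by
    intro p hp
    rcases mem_insert.1 hp with rfl | hp
    · exact hq
    · exact (hP p hp).1
  choose c hc0 hclt hcr using fun k => crt_int (insert q P) hQ (r k)
  have hprodQ : ((∏ p ∈ insert q P, p : ℕ) : ℤ) = (q : ℤ) * N := by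
    rw [prod_insert hqP]; push_cast; rw [hN]; push_cast; rfl
  have hqc : ∀ k ∈ E, (q : ℤ) ∣ c k := by
    intro k _
    have := hcr k q (mem_insert_self _ _)
    simpa [r] using this
  set W : ℤ := 2 * (q : ℤ) ^ 2 + 1 with hW
  set A : ℤ := (N : ℤ) * W with hA
  set B : ℤ := (N : ℤ) * q with hB
  have hqI : Prime (q : ℤ) := Nat.prime_iff_prime_int.1 hq
  have hq0 : (0 : ℤ) < q := by exact_mod_cast hq.pos
  have hN0 : (0 : ℤ) < N := by exact_mod_cast hNpos
  have hqNZ : ¬ (q : ℤ) ∣ N := by exact_mod_cast hqN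
  have hApos : 0 < A := by positivity
  have hqA : ¬ (q : ℤ) ∣ A := by
    rw [hA]
    intro h
    rcases hqI.dvd_or_dvd h with h | h
    · exact hqNZ h
    · rw [hW] at h
      have h2 : (q : ℤ) ∣ 2 * (q : ℤ) ^ 2 := Dvd.intro_left (2 * (q : ℤ)) (by ring)
      have h3 : (q : ℤ) ∣ 1 := (dvd_add_right h2).1 h
      exact hqI.not_isUnit (isUnit_of_dvd_one h3)
  have hqB : (q : ℤ) ∣ B := Dvd.intro_left _ rfl
  have hqB2 : ¬ (q : ℤ) ^ 2 ∣ B := by
    rw [hB, sq]
    intro h
    exact hqNZ ((mul_dvd_mul_iff_right hq0.ne').1 h)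
  -- evaluation mod p
  have heval : ∀ p ∈ P, ∀ m : ℤ,
      (p : ℤ) ∣ (fpoly A B d E c).eval m - m ^ bb p * (m ^ ((p - 1) / 2) - ε p) := by
    intro p hp m
    have hpq : p ≠ q := fun h => hqP (h ▸ hp)
    have haE : a p ∈ E := by
      rw [hEdef, mem_union]; right
      exact mem_image.2 ⟨j p, mem_range.2 (hij p hp).2.1, rfl⟩
    have hbE : bb p ∈ E := by
      rw [hEdef, mem_union]; left
      exact mem_image.2 ⟨i p, mem_range.2 (hij p hp).1, rfl⟩
    have hab : a p = bb p + (p - 1) / 2 := (hij p hp).2.2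
    have hsum : ∑ k ∈ E, r k p * m ^ k = m ^ bb p * (m ^ ((p - 1) / 2) - ε p) := by
      have : ∀ k ∈ E, r k p * m ^ k =
          (if k = a p then m ^ k else 0) - (if k = bb p then ε p * m ^ k else 0) := by
        intro k _
        simp only [r, hpq, if_false]
        split_ifs <;> ring
      rw [Finset.sum_congr rfl this, Finset.sum_sub_distrib, Finset.sum_ite_eq', Finset.sum_ite_eq',
        if_pos haE, if_pos hbE, hab, pow_add]
      ring
    rw [fpoly_eval, ← hsum]
    have e1 : (A * m ^ d + ∑ k ∈ E, c k * m ^ k + B) - ∑ k ∈ E, r k p * m ^ k =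
        A * m ^ d + B + ∑ k ∈ E, (c k - r k p) * m ^ k := by
      simp only [sub_mul, Finset.sum_sub_distrib]
      ring
    rw [e1]
    have hpA : (p : ℤ) ∣ A := by
      rw [hA]; exact Dvd.dvd.mul_right (by exact_mod_cast hpN p hp) _
    have hpB : (p : ℤ) ∣ B := by
      rw [hB]; exact Dvd.dvd.mul_right (by exact_mod_cast hpN p hp) _
    apply dvd_add (dvd_add (hpA.mul_right _) hpB)
    apply Finset.dvd_sum
    intro k _
    exact (hcr k p (mem_insert_of_mem hp)).mul_right _
  -- no fixed divisor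
  have hnf : ∀ n : ℕ, 1 < n → ¬ ∀ x : ℤ, (n : ℤ) ∣ (fpoly A B d E c).eval x := by
    intro n hn hall
    obtain ⟨ℓ, hℓ, hℓn⟩ := Nat.exists_prime_and_dvd (n := n) (by omega)
    have hall' : ∀ x : ℤ, (ℓ : ℤ) ∣ (fpoly A B d E c).eval x := fun x =>
      dvd_trans (by exact_mod_cast hℓn) (hall x)
    have hE0 : ∀ k ∈ E, c k * (0 : ℤ) ^ k = 0 := by
      intro k hk
      have : k ≠ 0 := by have := (hE k hk).1; omega
      simp [this]
    have h0 := hall' 0
    rw [fpoly_eval, Finset.sum_eq_zero hE0, zero_pow (by omega : d ≠ 0), mul_zero, zero_add,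
      zero_add] at h0
    have hℓI : Prime (ℓ : ℤ) := Nat.prime_iff_prime_int.1 hℓ
    rw [hB] at h0
    rcases hℓI.dvd_or_dvd h0 with h | h
    · have h' : ℓ ∣ N := by exact_mod_cast h
      obtain ⟨p, hp, hqp⟩ := (hℓ.prime.dvd_finsetProd_iff _).1 h'
      have hlp := (Nat.prime_dvd_prime_iff_eq hℓ (hP p hp).1).1 hqp
      subst hlp
      obtain ⟨m, hm1, hm2⟩ := exists_char ℓ (hP ℓ hp).1 (hP ℓ hp).2.1 (- ε ℓ) (by
        rcases hε ℓ with h | h <;> simp [h])
      have h1 := heval ℓ hp m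
      have h2 : (ℓ : ℤ) ∣ m ^ bb ℓ * (m ^ ((ℓ - 1) / 2) - ε ℓ) := by
        have := dvd_sub (hall' m) h1
        simpa using this
      rcases hℓI.dvd_or_dvd h2 with h3 | h3
      · exact hm1 (hℓI.dvd_of_dvd_pow h3)
      · have h4 : (ℓ : ℤ) ∣ 2 * ε ℓ := by
          have := dvd_sub hm2 h3
          have e : m ^ ((ℓ - 1) / 2) - -ε ℓ - (m ^ ((ℓ - 1) / 2) - ε ℓ) = 2 * ε ℓ := by ring
          rwa [e] at this
        have h5 : (ℓ : ℤ) ∣ 2 := by
          rcases hε ℓ with h | h
          · rw [h] at h4; simpa using h4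
          · rw [h] at h4; simpa using h4
        have h6 : ℓ ∣ 2 := by exact_mod_cast h5
        exact (hP ℓ hp).2.1 ((Nat.prime_dvd_prime_iff_eq hℓ Nat.prime_two).1 h6)
    · have h' : ℓ ∣ q := by exact_mod_cast h
      have hlq := (Nat.prime_dvd_prime_iff_eq hℓ hq).1 h'
      subst hlq
      have h1 := hall' 1
      rw [fpoly_eval] at h1
      simp only [one_pow, mul_one] at h1
      apply hqA
      have h2 : (ℓ : ℤ) ∣ ∑ k ∈ E, c k := Finset.dvd_sum hqc
      have h3 := dvd_sub (dvd_sub h1 hqB) h2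
      have e : A + ∑ k ∈ E, c k + B - B - ∑ k ∈ E, c k = A := by ring
      rwa [e] at h3
  refine ⟨fpoly A B d E c, fpoly_natDegree hApos.ne' hd1 hE, ?_, ?_, hnf, ?_, ?_⟩
  · exact fpoly_irreducible hq hApos.ne' hd1 hE hqA hqB hqB2 hqc hnf
  · rw [fpoly_leadingCoeff hApos.ne' hd1 hE]; exact hApos
  · have hqq : q ≤ 2 * q ^ 2 + 1 := by nlinarith [hq.pos]
    have hNq : N * q < 2 ^ b := lt_of_le_of_lt (Nat.mul_le_mul_left _ hqq) hb
    refine (fpoly_length (b := b) hApos.ne' hd1 hE ?_ ?_ ?_).trans ?_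
    · have : A = ((N * (2 * q ^ 2 + 1) : ℕ) : ℤ) := by rw [hA, hW]; push_cast; ring
      rw [this, Int.natAbs_natCast]; exact hb
    · have : B = ((N * q : ℕ) : ℤ) := by rw [hB]; push_cast; ring
      rw [this, Int.natAbs_natCast]; exact hNq
    · intro k _
      have h1 := hclt k
      rw [hprodQ] at h1
      have h2 : ((c k).natAbs : ℤ) = c k := Int.natAbs_of_nonneg (hc0 k)
      have h3 : ((c k).natAbs : ℤ) < ((N * q : ℕ) : ℤ) := by
        rw [h2]; push_cast; linarith
      have h4 : (c k).natAbs < N * q := by exact_mod_cast h3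
      omega
    · have : b * (E.card + 2) ≤ b * (2 * s + 2) := Nat.mul_le_mul_left _ (by omega)
      omega
  · intro m hm
    have hmS : m ∈ Finset.Icc (-(M : ℤ)) M := by
      rw [mem_Icc]; exact abs_le.1 hm
    obtain ⟨p, hp, hpd⟩ := hεS m hmS
    have hpI : Prime (p : ℤ) := Nat.prime_iff_prime_int.1 (hP p hp).1
    have hpf : (p : ℤ) ∣ (fpoly A B d E c).eval m := by
      have h1 := heval p hp m
      have h2 : (p : ℤ) ∣ m ^ bb p * (m ^ ((p - 1) / 2) - ε p) := by
        rcases hpI.dvd_or_dvd hpd with h | h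
        · exact Dvd.dvd.mul_right (dvd_pow h (by simp [bb])) _
        · exact Dvd.dvd.mul_left h _
      have := dvd_add h1 h2
      simpa using this
    -- size
    have hbig : (q : ℤ) < |(fpoly A B d E c).eval m| := by
      have hpN' : p ≤ N := Nat.le_of_dvd hNpos (hpN p hp)
      have h2 := (hP p hp).1.two_le
      rw [fpoly_eval]
      apply fpoly_big (N := (N : ℤ)) (q := (q : ℤ)) (s := s) (d := d) (E := E) (c := c)
        (by exact_mod_cast (by omega : 2 ≤ N)) (by exact_mod_cast hq.two_le) (by exact_mod_cast hsq)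
        hd1 hE (by exact_mod_cast hEcard)
      intro k _
      refine ⟨hc0 k, ?_⟩
      have h1 := hclt k
      rw [hprodQ] at h1
      linarith
    have hpd : (p : ℤ) < q := by
      have := (hP p hp).2.2
      exact_mod_cast (by omega : p < q)
    have habs : (((fpoly A B d E c).eval m).natAbs : ℤ) = |(fpoly A B d E c).eval m| :=
      Int.natCast_natAbs _
    have hlt : p < ((fpoly A B d E c).eval m).natAbs := by
      have : (p : ℤ) < (((fpoly A B d E c).eval m).natAbs : ℤ) := by rw [habs]; linarith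
      exact_mod_cast this
    have h2p := (hP p hp).1.two_le
    refine ⟨by omega, ?_⟩
    intro hprime
    have hdv : p ∣ ((fpoly A B d E c).eval m).natAbs := by
      rw [← Int.natCast_dvd_natCast, habs]
      exact (dvd_abs _ _).2 hpf
    have := (Nat.prime_dvd_prime_iff_eq (hP p hp).1 hprime).1 hdv
    omega

open Real in
/-- specialization to large degree -/
theorem large_degree (d : ℕ) (hd : 10000 ≤ d) (M : ℕ)
    (hM : 2 * M + 1 < 2 ^ (Nat.primeCounting d - 1)) :
    ∃ f : ℤ[X], f.natDegree = d ∧ Irreducible f ∧ 0 < f.leadingCoeff ∧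
      (∀ n : ℕ, 1 < n → ¬ ∀ x : ℤ, (n : ℤ) ∣ f.eval x) ∧
      (((∑ k ∈ Finset.range (f.natDegree + 1), max 1 (Nat.size (f.coeff k).natAbs) : ℕ) : ℝ)
        ≤ 18 * (d : ℝ) * √d) ∧
      ∀ m : ℤ, |m| ≤ (M : ℤ) → 1 < (f.eval m).natAbs ∧ ¬ (f.eval m).natAbs.Prime := by
  obtain ⟨q, hq, hdq, hq2⟩ := Nat.exists_prime_lt_and_le_two_mul d (by omega)
  set s : ℕ := Nat.sqrt (d / 2) + 1 with hs
  set P : Finset ℕ := (Nat.primesLE d).erase 2 with hP
  have h1 : Nat.sqrt (d / 2) ^ 2 ≤ d / 2 := Nat.sqrt_le' _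
  have h2 : d / 2 < (Nat.sqrt (d / 2) + 1) ^ 2 := Nat.lt_succ_sqrt' _
  have h3 : 70 ≤ Nat.sqrt (d / 2) := by
    rw [Nat.le_sqrt]; omega
  have hs1 : s ^ 2 + 1 < d := by
    rw [hs]
    have h4 : (Nat.sqrt (d / 2) + 1) ^ 2 = Nat.sqrt (d / 2) ^ 2 + 2 * Nat.sqrt (d / 2) + 1 := by ring
    have h5 : 2 * (d / 2) ≤ d := by omega
    have h6 : 70 * Nat.sqrt (d / 2) ≤ Nat.sqrt (d / 2) ^ 2 := by
      rw [sq]; exact Nat.mul_le_mul_right _ h3
    omega
  have hcardP : P.card = Nat.primeCounting d - 1 := by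
    rw [hP, card_erase_of_mem, Nat.primesLE_card_eq_primeCounting]
    rw [Nat.mem_primesLE]
    exact ⟨by omega, Nat.prime_two⟩
  have hprod : ∏ p ∈ P, p ≤ 4 ^ d := by
    refine le_trans ?_ (primorial_le_four_pow d)
    rw [primorial_eq_prod_primesLE]
    apply Finset.prod_le_prod_of_subset_of_one_le' (Finset.erase_subset _ _)
    intro p hp _
    exact ((Nat.mem_primesLE.1 hp).2).one_le
  have hpow : 8 * d ^ 2 + 1 < 4 ^ d := by
    have : ∀ n : ℕ, 4 ≤ n → 8 * n ^ 2 + 1 < 4 ^ n := by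
      intro n hn
      induction n, hn using Nat.le_induction with
      | base => norm_num
      | succ n hn ih =>
        calc 8 * (n + 1) ^ 2 + 1 ≤ 4 * (8 * n ^ 2 + 1) := by nlinarith
          _ < 4 * 4 ^ n := by omega
          _ = 4 ^ (n + 1) := by rw [pow_succ]; ring
    exact this d (by omega)
  obtain ⟨f, hf1, hf2, hf3, hf4, hf5, hf6⟩ := construction d s q M P (by
      intro p hp
      rw [hP, Finset.mem_erase, Nat.mem_primesLE] at hp
      exact ⟨hp.2.2, hp.1, hp.2.1⟩) (by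
      intro p hp
      rw [hP, Finset.mem_erase, Nat.mem_primesLE] at hp
      have := hp.2.1
      rw [hs]
      omega) hs1 hq hdq (by
        have : s ≤ s ^ 2 := Nat.le_self_pow (by norm_num) s
        nlinarith) (by rw [hcardP]; exact hM) (4 * d) (by
      have hq3 : 2 * q ^ 2 + 1 ≤ 8 * d ^ 2 + 1 := by
        have : q ^ 2 ≤ (2 * d) ^ 2 := Nat.pow_le_pow_left hq2 2
        nlinarith
      calc (∏ p ∈ P, p) * (2 * q ^ 2 + 1) ≤ 4 ^ d * (8 * d ^ 2 + 1) := Nat.mul_le_mul hprod hq3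
        _ < 4 ^ d * 4 ^ d := Nat.mul_lt_mul_of_pos_left hpow (by positivity)
        _ = 2 ^ (4 * d) := by
            rw [← pow_add, show (4 : ℕ) = 2 ^ 2 by norm_num, ← pow_mul]; ring_nf)
  refine ⟨f, hf1, hf2, hf3, hf4, ?_, hf6⟩
  have h6 : ((∑ k ∈ Finset.range (f.natDegree + 1), max 1 (Nat.size (f.coeff k).natAbs) : ℕ) : ℝ) ≤
      (((d + 1) + 4 * d * (2 * s + 2) : ℕ) : ℝ) := by exact_mod_cast hf5
  refine h6.trans ?_
  push_cast
  have hd' : (10000 : ℝ) ≤ d := by exact_mod_cast hd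
  have hsd : (s : ℝ) ≤ √d := by
    apply Real.le_sqrt_of_sq_le
    have : s ^ 2 ≤ d := by omega
    exact_mod_cast this
  have hsq : (100 : ℝ) ≤ √d := by
    apply Real.le_sqrt_of_sq_le
    rw [show (100 : ℝ) ^ 2 = 10000 by norm_num]
    exact hd'
  nlinarith

open Real in
/-- The main theorem, restated in the hand-in file. -/
theorem main : ∃ c : ℝ, 0 < c ∧ ∀ d : ℕ, 1 ≤ d →
    ∃ f : ℤ[X], f.natDegree = d ∧ Irreducible f ∧ 0 < f.leadingCoeff ∧
      (∀ n : ℕ, 1 < n → ¬ ∀ x : ℤ, (n : ℤ) ∣ f.eval x) ∧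
      ∀ m : ℤ,
        |(m : ℝ)| < Real.exp (c *
          ((∑ k ∈ Finset.range (f.natDegree + 1), max 1 (Nat.size (f.coeff k).natAbs) : ℕ) : ℝ)
            ^ (2 / 3 : ℝ) /
          Real.log ((∑ k ∈ Finset.range (f.natDegree + 1),
            max 1 (Nat.size (f.coeff k).natAbs) : ℕ) : ℝ)) →
        1 < (f.eval m).natAbs ∧ ¬ (f.eval m).natAbs.Prime := by
  refine ⟨1 / 10 ^ 6, by norm_num, ?_⟩
  intro d hd
  rcases le_or_gt 10000 d with hbig | hsmall
  · -- large degree
    have hd' : (10000 : ℝ) ≤ d := by exact_mod_cast hbig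
    have hlogd : 0 < Real.log d := Real.log_pos (by linarith)
    set R : ℝ := 1 / 10 ^ 6 * (7 * d) / Real.log d with hR
    have hR0 : 0 ≤ R := by positivity
    obtain ⟨f, hf1, hf2, hf3, hf4, hf5, hf6⟩ := large_degree d hbig ⌊Real.exp R⌋₊ (by
      have hpi := Chebyshev.pi_ge d
      have hlog2 : (0.69 : ℝ) < Real.log 2 := by have := Real.log_two_gt_d9; linarith
      have hlog2' : Real.log 2 < (0.7 : ℝ) := by have := Real.log_two_lt_d9; linarith
      have hlogle : Real.log ((d : ℝ) + 1) ≤ 0.05 * d := by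
        have h1 : Real.log ((d : ℝ) + 1) = 2 * Real.log (√((d : ℝ) + 1)) := by
          rw [Real.log_sqrt (by positivity)]; ring
        have h2 : Real.log (√((d : ℝ) + 1)) ≤ √((d : ℝ) + 1) - 1 :=
          Real.log_le_sub_one_of_pos (by positivity)
        have h3 : √((d : ℝ) + 1) ≤ 0.02 * d := by
          rw [Real.sqrt_le_left (by positivity)]
          nlinarith
        rw [h1]; linarith
      have hlogle2 : Real.log (d : ℝ) ≤ 0.05 * d :=
        le_trans (Real.log_le_log (by linarith) (by linarith)) hlogle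
      have hkey : R ≤ ((Nat.primeCounting d : ℝ) - 3) * Real.log 2 := by
        rw [div_le_iff₀ hlogd] at hpi
        rw [hR, div_le_iff₀ hlogd]
        have h4 : 0.49 * (d : ℝ) ≤ ((Nat.primeCounting d : ℝ) - 3) * Real.log d := by
          have : 0.69 * (d : ℝ) ≤ d * Real.log 2 := by nlinarith
          linarith
        have h5 : 0.49 * (d : ℝ) * 0.69 ≤ 0.49 * (d : ℝ) * Real.log 2 := by
          apply mul_le_mul_of_nonneg_left hlog2.le (by linarith)
        have h6 := mul_le_mul_of_nonneg_right h4 (show 0 ≤ Real.log 2 by linarith)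
        have h7 : ((Nat.primeCounting d : ℝ) - 3) * Real.log 2 * Real.log d =
          ((Nat.primeCounting d : ℝ) - 3) * Real.log d * Real.log 2 := by ring
        rw [h7]
        linarith
      have hpi3 : 3 ≤ Nat.primeCounting d := by
        have : 0 ≤ ((Nat.primeCounting d : ℝ) - 3) * Real.log 2 := le_trans hR0 hkey
        have h5 : 0 ≤ (Nat.primeCounting d : ℝ) - 3 := by
          by_contra hneg
          push Not at hneg
          have : ((Nat.primeCounting d : ℝ) - 3) * Real.log 2 < 0 :=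
            mul_neg_of_neg_of_pos hneg (by linarith)
          linarith
        have h6 : (3 : ℝ) ≤ Nat.primeCounting d := by linarith
        exact_mod_cast h6
      have hexp : Real.exp R ≤ 2 ^ (Nat.primeCounting d - 3) := by
        calc Real.exp R ≤ Real.exp (((Nat.primeCounting d : ℝ) - 3) * Real.log 2) :=
              Real.exp_le_exp.2 hkey
          _ = (2 : ℝ) ^ (((Nat.primeCounting d - 3 : ℕ) : ℝ)) := by
              rw [mul_comm, ← Real.rpow_def_of_pos (by norm_num)]
              congr 1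
              push_cast [hpi3]; ring
          _ = 2 ^ (Nat.primeCounting d - 3) := Real.rpow_natCast _ _
      have hfl : ⌊Real.exp R⌋₊ ≤ 2 ^ (Nat.primeCounting d - 3) := by
        have : ((⌊Real.exp R⌋₊ : ℕ) : ℝ) ≤ ((2 ^ (Nat.primeCounting d - 3) : ℕ) : ℝ) := by
          push_cast
          exact le_trans (Nat.floor_le (Real.exp_pos R).le) hexp
        exact_mod_cast this
      have h7 : 2 ^ (Nat.primeCounting d - 1) = 4 * 2 ^ (Nat.primeCounting d - 3) := by
        have : Nat.primeCounting d - 1 = (Nat.primeCounting d - 3) + 2 := by omega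
        rw [this, pow_add]; ring
      have h8 : 1 ≤ 2 ^ (Nat.primeCounting d - 3) := Nat.one_le_two_pow
      omega)
    refine ⟨f, hf1, hf2, hf3, hf4, ?_⟩
    intro m hm
    apply hf6
    set L : ℝ := ((∑ k ∈ Finset.range (f.natDegree + 1),
      max 1 (Nat.size (f.coeff k).natAbs) : ℕ) : ℝ) with hL
    have hLd : (d : ℝ) ≤ L := by
      rw [hL]
      have : d ≤ ∑ k ∈ Finset.range (f.natDegree + 1), max 1 (Nat.size (f.coeff k).natAbs) := by
        have h1 : ∑ k ∈ Finset.range (f.natDegree + 1), 1 ≤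
            ∑ k ∈ Finset.range (f.natDegree + 1), max 1 (Nat.size (f.coeff k).natAbs) :=
          Finset.sum_le_sum (fun k _ => le_max_left _ _)
        rw [Finset.sum_const, Finset.card_range, smul_eq_mul, mul_one] at h1
        omega
      exact_mod_cast this
    have hL23 : L ^ (2 / 3 : ℝ) ≤ 7 * d := by
      have h0 : (0 : ℝ) ≤ L := by linarith
      have h1 : L ^ (2 / 3 : ℝ) = (L ^ 2) ^ (1 / 3 : ℝ) := by
        rw [← Real.rpow_natCast, ← Real.rpow_mul h0]; norm_num
      have h2 : (7 * (d : ℝ)) = ((7 * (d : ℝ)) ^ 3) ^ (1 / 3 : ℝ) := by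
        rw [← Real.rpow_natCast, ← Real.rpow_mul (by positivity)]; norm_num
      rw [h1, h2]
      refine Real.rpow_le_rpow (sq_nonneg L) ?_ (by norm_num)
      have h3 : L ^ 2 ≤ (18 * (d : ℝ) * √d) ^ 2 := pow_le_pow_left₀ h0 hf5 2
      have h4 : (18 * (d : ℝ) * √d) ^ 2 = 324 * (d : ℝ) ^ 3 := by
        rw [mul_pow, Real.sq_sqrt (by positivity)]; ring
      rw [h4] at h3
      have : (0 : ℝ) ≤ (d : ℝ) ^ 3 := by positivity
      nlinarith
    have hlogL : Real.log d ≤ Real.log L := Real.log_le_log (by linarith) hLd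
    have hexpo : 1 / 10 ^ 6 * L ^ (2 / 3 : ℝ) / Real.log L ≤ R := by
      rw [hR]
      apply div_le_div₀ (by positivity) _ hlogd hlogL
      apply mul_le_mul_of_nonneg_left hL23 (by norm_num)
    have hm2 : |(m : ℝ)| < Real.exp R := lt_of_lt_of_le hm (Real.exp_le_exp.2 hexpo)
    have hm3 : ((|m|.toNat : ℕ) : ℝ) ≤ Real.exp R := by
      have : ((|m|.toNat : ℕ) : ℝ) = |(m : ℝ)| := by
        have h1 : ((|m|.toNat : ℕ) : ℤ) = |m| := Int.toNat_of_nonneg (abs_nonneg m)
        have h2 : ((|m|.toNat : ℕ) : ℝ) = (((|m|.toNat : ℕ) : ℤ) : ℝ) := by norm_cast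
        rw [h2, h1]; push_cast; rfl
      rw [this]; exact hm2.le
    have hm4 : |m|.toNat ≤ ⌊Real.exp R⌋₊ := Nat.le_floor hm3
    have h5 : ((|m|.toNat : ℕ) : ℤ) = |m| := Int.toNat_of_nonneg (abs_nonneg m)
    rw [← h5]
    exact_mod_cast hm4
  · -- small degree
    set f : ℤ[X] := C 106 * X ^ d + C 15 with hf
    have hc : ∀ n, f.coeff n = (if n = d then 106 else 0) + (if n = 0 then 15 else 0) := by
      intro n
      simp only [hf, coeff_add, coeff_C_mul, coeff_X_pow, coeff_C, mul_ite, mul_one, mul_zero]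
    have hev : ∀ x : ℤ, f.eval x = 106 * x ^ d + 15 := by
      intro x; simp [hf]
    have hd0 : d ≠ 0 := by omega
    have hdeg : f.natDegree = d := by
      apply le_antisymm
      · rw [natDegree_le_iff_coeff_eq_zero]
        intro n hn
        rw [hc, if_neg (by omega), if_neg (by omega), add_zero]
      · apply le_natDegree_of_ne_zero
        rw [hc, if_pos rfl, if_neg hd0]
        norm_num
    have hlc : f.leadingCoeff = 106 := by
      rw [leadingCoeff, hdeg, hc, if_pos rfl, if_neg hd0, add_zero]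
    have hc0 : f.coeff 0 = 15 := by
      rw [hc, if_neg (by omega), if_pos rfl, zero_add]
    have hne : f ≠ 0 := by
      intro h; rw [h] at hlc; simp at hlc
    have hdegree : f.degree = d := by rw [degree_eq_natDegree hne, hdeg]
    have hnf : ∀ n : ℕ, 1 < n → ¬ ∀ x : ℤ, (n : ℤ) ∣ f.eval x := by
      intro n hn hall
      have h0 := hall 0
      have h1 := hall 1
      rw [hev] at h0 h1
      rw [zero_pow hd0] at h0
      norm_num at h0 h1
      have h0' : n ∣ 15 := by exact_mod_cast h0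
      have h1' : n ∣ 121 := by exact_mod_cast h1
      have := Nat.dvd_gcd h0' h1'
      norm_num at this
      omega
    have hirr : Irreducible f := by
      have h3 : Prime (3 : ℤ) := Nat.prime_iff_prime_int.1 Nat.prime_three
      have hI : (Ideal.span {(3 : ℤ)}).IsPrime := (Ideal.span_singleton_prime h3.ne_zero).2 h3
      apply irreducible_of_eisenstein_criterion hI
      · rw [hlc, Ideal.mem_span_singleton]; norm_num
      · intro n hn
        rw [hdegree] at hn
        have hn' : n < d := by exact_mod_cast hn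
        rw [Ideal.mem_span_singleton, hc, if_neg (by omega), zero_add]
        split_ifs <;> norm_num
      · rw [hdegree]; exact_mod_cast (by omega : 0 < d)
      · rw [hc0, Ideal.span_singleton_pow, Ideal.mem_span_singleton]; norm_num
      · exact isPrimitive_of_noFixed hnf
    refine ⟨f, hdeg, hirr, by rw [hlc]; norm_num, hnf, ?_⟩
    intro m hm
    set Ln : ℕ := ∑ k ∈ Finset.range (f.natDegree + 1), max 1 (Nat.size (f.coeff k).natAbs) with hLn
    have hLup : Ln ≤ 7 * 10000 := by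
      have h1 : Ln ≤ ∑ k ∈ Finset.range (f.natDegree + 1), 7 := by
        apply Finset.sum_le_sum
        intro k _
        apply max_le (by norm_num)
        rw [Nat.size_le, hc]
        split_ifs <;> norm_num
      rw [Finset.sum_const, Finset.card_range, smul_eq_mul, hdeg] at h1
      omega
    have hLlow : 3 ≤ Ln := by
      have h1 : max 1 (Nat.size (f.coeff 0).natAbs) ≤ Ln := by
        apply Finset.single_le_sum (f := fun k => max 1 (Nat.size (f.coeff k).natAbs))
          (fun _ _ => Nat.zero_le _)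
        rw [Finset.mem_range]; omega
      have h2 : 3 < Nat.size (f.coeff 0).natAbs := by
        rw [Nat.lt_size, hc0]; norm_num
      have h3 := le_max_right 1 (Nat.size (f.coeff 0).natAbs)
      omega
    have hL3 : (3 : ℝ) ≤ (Ln : ℝ) := by exact_mod_cast hLlow
    have hL7 : (Ln : ℝ) ≤ 70000 := by exact_mod_cast (by omega : Ln ≤ 70000)
    have hlog1 : 1 ≤ Real.log (Ln : ℝ) := by
      rw [Real.le_log_iff_exp_le (by linarith)]
      have := Real.exp_one_lt_d9
      linarith
    have hpow1 : (Ln : ℝ) ^ (2 / 3 : ℝ) ≤ Ln := by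
      calc (Ln : ℝ) ^ (2 / 3 : ℝ) ≤ (Ln : ℝ) ^ (1 : ℝ) :=
            Real.rpow_le_rpow_of_exponent_le (by linarith) (by norm_num)
        _ = Ln := Real.rpow_one _
    have hexpo : 1 / 10 ^ 6 * (Ln : ℝ) ^ (2 / 3 : ℝ) / Real.log (Ln : ℝ) ≤ Real.log 2 := by
      have hlog2 : (0.69 : ℝ) < Real.log 2 := by have := Real.log_two_gt_d9; linarith
      rw [div_le_iff₀ (by linarith)]
      nlinarith
    have hm2 : |(m : ℝ)| < 2 := by
      refine lt_of_lt_of_le hm ?_
      calc Real.exp (1 / 10 ^ 6 * (Ln : ℝ) ^ (2 / 3 : ℝ) / Real.log (Ln : ℝ)) ≤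
          Real.exp (Real.log 2) := Real.exp_le_exp.2 hexpo
        _ = 2 := Real.exp_log (by norm_num)
    have hm3 : |m| < 2 := by exact_mod_cast hm2
    rw [abs_lt] at hm3
    rw [hev]
    have hm4 : m = -1 ∨ m = 0 ∨ m = 1 := by omega
    rcases hm4 with rfl | rfl | rfl
    · rcases Nat.even_or_odd d with he | ho
      · rw [he.neg_one_pow]; norm_num
      · rw [ho.neg_one_pow]; norm_num
    · rw [zero_pow hd0]; norm_num
    · rw [one_pow]; norm_num

/-- growth comparison used for the consequence below -/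
theorem eventually_growth (a : ℝ) (ha : a < 2 / 3) (C c : ℝ) (hc : 0 < c) :
    ∀ᶠ x : ℝ in Filter.atTop,
      C * Real.exp (x ^ a) < Real.exp (c * x ^ (2 / 3 : ℝ) / Real.log x) := by
  -- it suffices that log (|C| + 1) + x ^ a < c x ^ (2/3) / log x
  set b : ℝ := (max a 0 + 2 / 3) / 2 with hb
  have hb1 : max a 0 < b := by
    have : max a 0 < 2 / 3 := max_lt ha (by norm_num)
    rw [hb]; linarith
  have hb2 : b < 2 / 3 := by
    have : max a 0 < 2 / 3 := max_lt ha (by norm_num)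
    rw [hb]; linarith
  have hab : a < b := lt_of_le_of_lt (le_max_left _ _) hb1
  have h0b : 0 < b := lt_of_le_of_lt (le_max_right _ _) hb1
  have hlog : ∀ᶠ x : ℝ in Filter.atTop, ‖Real.log x‖ ≤ (c / 2) * ‖x ^ (2 / 3 - b)‖ :=
    (isLittleO_log_rpow_atTop (by linarith : (0 : ℝ) < 2 / 3 - b)).bound (by positivity)
  have hexpo : Filter.Tendsto (fun x : ℝ => x ^ b) Filter.atTop Filter.atTop :=
    tendsto_rpow_atTop h0b
  have h1 : ∀ᶠ x : ℝ in Filter.atTop, Real.log (|C| + 1) < x ^ b :=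
    hexpo.eventually_gt_atTop _
  filter_upwards [hlog, h1, Filter.eventually_gt_atTop (Real.exp 1)] with x h2 h3 h4
  have hx1 : 1 < x := lt_trans (by have := Real.add_one_lt_exp (one_ne_zero (α := ℝ)); linarith) h4
  have hx0 : 0 < x := by linarith
  have hlogx : 1 < Real.log x := by
    rw [Real.lt_log_iff_exp_lt hx0]; exact h4
  rw [Real.norm_of_nonneg (by linarith), Real.norm_of_nonneg (by positivity)] at h2
  have h5 : x ^ a ≤ x ^ b := Real.rpow_le_rpow_of_exponent_le hx1.le hab.le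
  have h6 : C ≤ Real.exp (Real.log (|C| + 1)) := by
    rw [Real.exp_log (by positivity)]
    have := le_abs_self C
    linarith
  calc C * Real.exp (x ^ a) ≤ Real.exp (Real.log (|C| + 1)) * Real.exp (x ^ a) :=
        mul_le_mul_of_nonneg_right h6 (Real.exp_pos _).le
    _ = Real.exp (Real.log (|C| + 1) + x ^ a) := (Real.exp_add _ _).symm
    _ < Real.exp (c * x ^ (2 / 3 : ℝ) / Real.log x) := by
        rw [Real.exp_lt_exp, lt_div_iff₀ (by linarith)]
        have h7 : Real.log (|C| + 1) + x ^ a < 2 * x ^ b := by linarith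
        have h8 : (Real.log (|C| + 1) + x ^ a) * Real.log x < 2 * x ^ b * Real.log x :=
          mul_lt_mul_of_pos_right h7 (by linarith)
        have h9 : 2 * x ^ b * Real.log x ≤ 2 * x ^ b * (c / 2 * x ^ (2 / 3 - b)) :=
          mul_le_mul_of_nonneg_left h2 (by positivity)
        have h10 : 2 * x ^ b * (c / 2 * x ^ (2 / 3 - b)) = c * x ^ (2 / 3 : ℝ) := by
          have : x ^ (2 / 3 : ℝ) = x ^ b * x ^ (2 / 3 - b) := by
            rw [← Real.rpow_add hx0]; congr 1; ring
          rw [this]; ring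
        linarith

end Pool.Agent.Helper14.TwoThirdsAux
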